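import Mathlib

/-!
Finite networks (multidigraphs) for the Beineke–Harary problem.
-/

namespace BHNet

/-- A multidigraph: every arc `a` has a tail `tl a` and a head `hd a`. -/
structure Net (V A : Type*) where
  tl : A → V
  hd : A → V

variable {V A : Type*} [Fintype V] [DecidableEq V] [Fintype A] [DecidableEq A]

/-- The arcs of `F` entering the vertex set `Z`. -/
def Net.ent (D : Net V A) (F : Finset A) (Z : Finset V) : Finset A :=
  F.filter (fun a => D.tl a ∉ Z ∧ D.hd a ∈ Z)

/-- `t` can be reached from `s` along arcs of `F`. -/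
def Net.Reach (D : Net V A) (F : Finset A) (s t : V) : Prop :=
  Relation.ReflTransGen (fun x y => ∃ a ∈ F, D.tl a = x ∧ D.hd a = y) s t

/-- arcs of `F` between `X \ Y` and `Y \ X`. -/
def Net.cross (D : Net V A) (F : Finset A) (X Y : Finset V) : Finset A :=
  F.filter (fun a => (D.tl a ∈ X \ Y ∧ D.hd a ∈ Y \ X) ∨ (D.tl a ∈ Y \ X ∧ D.hd a ∈ X \ Y))

omit [Fintype V] [Fintype A] [DecidableEq A] in
lemma Net.mem_ent {D : Net V A} {F : Finset A} {Z : Finset V} {a : A} :
    a ∈ D.ent F Z ↔ a ∈ F ∧ D.tl a ∉ Z ∧ D.hd a ∈ Z := by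
  simp [Net.ent]

omit [Fintype V] [Fintype A] [DecidableEq A] in
lemma Net.submod (D : Net V A) (F : Finset A) (X Y : Finset V) :
    (D.ent F (X ∩ Y)).card + (D.ent F (X ∪ Y)).card + (D.cross F X Y).card
      = (D.ent F X).card + (D.ent F Y).card := by
  simp only [Net.ent, Net.cross, Finset.card_filter, ← Finset.sum_add_distrib]
  apply Finset.sum_congr rfl
  intro a _
  by_cases h1 : D.tl a ∈ X <;> by_cases h2 : D.tl a ∈ Y <;>
    by_cases h3 : D.hd a ∈ X <;> by_cases h4 : D.hd a ∈ Y <;>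
    simp [h1, h2, h3, h4]

omit [Fintype V] [Fintype A] [DecidableEq A] in
lemma Net.ent_mono (D : Net V A) {F G : Finset A} (h : F ⊆ G) (Z : Finset V) :
    (D.ent F Z).card ≤ (D.ent G Z).card := by
  apply Finset.card_le_card
  intro a ha
  rw [Net.mem_ent] at ha ⊢
  exact ⟨h ha.1, ha.2⟩

end BHNet
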