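import Mathlib
import Pool.Agent.BH.Net

/-!
Core of the case `q = 2` of the network form of the Beineke–Harary problem.
-/

namespace BHNet

open Classical

set_option linter.unusedSectionVars false

variable {V A : Type*} [Fintype V] [DecidableEq V] [Fintype A] [DecidableEq A]

/-- rank of a set of colours (generic vectors of a plane) -/
def rk (X : Finset ℕ) : ℕ := min 2 X.card

lemma rk_le_two (X : Finset ℕ) : rk X ≤ 2 := min_le_left _ _

lemma rk_mono {X Y : Finset ℕ} (h : X ⊆ Y) : rk X ≤ rk Y :=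
  min_le_min le_rfl (Finset.card_le_card h)

lemma rk_insert_le (w : ℕ) (X : Finset ℕ) : rk (insert w X) ≤ rk X + 1 := by
  have := Finset.card_insert_le w X
  unfold rk; omega

lemma rk_insert_of_notMem {w : ℕ} {X : Finset ℕ} (h : w ∉ X) (h2 : rk X ≠ 2) :
    rk (insert w X) = rk X + 1 := by
  have := Finset.card_insert_of_notMem h
  unfold rk at *; omega

lemma rk_eq_zero {X : Finset ℕ} : rk X = 0 ↔ X = ∅ := by
  unfold rk
  constructor
  · intro h
    have : X.card = 0 := by omega
    exact Finset.card_eq_zero.mp this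
  · rintro rfl; simp

lemma rk_eq_one {X : Finset ℕ} : rk X = 1 ↔ ∃ c, X = {c} := by
  unfold rk
  rw [← Finset.card_eq_one]
  omega

lemma rk_eq_two {X : Finset ℕ} : rk X = 2 ↔ 2 ≤ X.card := by
  unfold rk; omega

/-- vertices reachable from `v` by special arcs -/
noncomputable def Net.Cl (D : Net V A) (Sp : Finset A) (v : V) : Finset V :=
  Finset.univ.filter (fun z => D.Reach Sp v z)

omit [DecidableEq V] [Fintype A] [DecidableEq A] in
lemma Net.mem_Cl {D : Net V A} {Sp : Finset A} {v z : V} : z ∈ D.Cl Sp v ↔ D.Reach Sp v z := by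
  simp [Net.Cl]

omit [DecidableEq V] [Fintype A] [DecidableEq A] in
lemma Net.self_mem_Cl (D : Net V A) (Sp : Finset A) (v : V) : v ∈ D.Cl Sp v := by
  rw [Net.mem_Cl]; exact Relation.ReflTransGen.refl

omit [DecidableEq V] [Fintype A] [DecidableEq A] in
lemma Net.Cl_step {D : Net V A} {Sp : Finset A} {v : V} {a : A} (ha : a ∈ Sp)
    (h : D.tl a ∈ D.Cl Sp v) : D.hd a ∈ D.Cl Sp v := by
  rw [Net.mem_Cl] at *
  exact h.tail ⟨a, ha, rfl, rfl⟩

omit [Fintype A] [DecidableEq A] in
/-- a special path from outside `X` to inside `X` enters `X` by a special arc -/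
lemma Net.Cl_enter {D : Net V A} {Sp : Finset A} {v x : V} {X : Finset V}
    (hx : x ∈ D.Cl Sp v) (hv : v ∉ X) (hxX : x ∈ X) :
    ∃ b ∈ D.ent Sp X, D.hd b ∈ D.Cl Sp v := by
  rw [Net.mem_Cl] at hx
  unfold Net.Reach at hx
  induction hx with
  | refl => exact absurd hxX hv
  | @tail y z hy hyz ih =>
    obtain ⟨b, hb, hb1, hb2⟩ := hyz
    by_cases hyX : y ∈ X
    · exact ih hyX
    · refine ⟨b, ?_, ?_⟩
      · rw [Net.mem_ent]
        refine ⟨hb, ?_, ?_⟩
        · rw [hb1]; exact hyX
        · rw [hb2]; exact hxX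
      · rw [Net.mem_Cl, hb2]
        exact Relation.ReflTransGen.tail hy ⟨b, hb, hb1, hb2⟩

/-- A state: set `T` of used ordinary arcs, `C` colours of the vertices. -/
structure St (D : Net V A) (Sp : Finset A) (s : V) (T : Finset A) (C : V → Finset ℕ) : Prop where
  disj : Disjoint T Sp
  clos : ∀ a ∈ Sp, C (D.tl a) ⊆ C (D.hd a)
  cert : ∀ Z : Finset V, s ∉ Z → D.ent Sp Z = ∅ → rk (Z.biUnion C) ≤ (D.ent T Z).card

/-- relative instance -/
structure Inst (D : Net V A) (Sp : Finset A) (p : ℕ) (K U : Finset V) (T : Finset A)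
    (C : V → Finset ℕ) : Prop where
  sub : K ⊆ U
  inv : ∀ Z, K ⊆ Z → Z ⊆ U → (D.ent Sp Z).card < p →
    p + 2 ≤ (D.ent Tᶜ Z).card + rk (Z.biUnion C)
  top : (D.ent Tᶜ U).card = p
  full : ∀ X, K ⊆ X → X ⊆ U → (∀ a ∉ T, D.hd a ∈ X → D.tl a ∈ U → D.tl a ∈ X) →
    rk (X.biUnion C) = 2
  heads : p ≤ (D.ent Sp U).card → ∃ a ∈ D.ent Sp U, (C (D.hd a)).Nonempty

/-- what a solution of a relative instance provides -/
structure Sol (D : Net V A) (Sp : Finset A) (s : V) (p : ℕ) (K U : Finset V) (T : Finset A)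
    (C : V → Finset ℕ) (T' : Finset A) (C' : V → Finset ℕ) : Prop where
  st : St D Sp s T' C'
  sub : T ⊆ T'
  new : ∀ a ∈ T', a ∉ T → D.tl a ∈ U ∧ D.tl a ∉ K ∧ D.hd a ∈ U
  mono : ∀ v, C v ⊆ C' v
  done : rk (K.biUnion C') = 2
  cuts : ∀ Z, K ⊆ Z → Z ⊆ U → p ≤ (D.ent T'ᶜ Z).card
  prov : ∀ X : Finset V, (∀ a ∈ T', a ∉ T → D.hd a ∉ X) → ∀ x ∈ X, ∀ c ∈ C' x,
    c ∈ C x ∨ ∃ b ∈ D.ent Sp X, c ∈ C' (D.hd b)

variable {D : Net V A} {Sp : Finset A} {s : V} {p : ℕ} {K U : Finset V} {T : Finset A}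
  {C : V → Finset ℕ}

/-- recolouring after using an arc `a` with colour `w` -/
noncomputable def addC (D : Net V A) (Sp : Finset A) (C : V → Finset ℕ) (a : A) (w : ℕ) :
    V → Finset ℕ :=
  fun z => if z ∈ D.Cl Sp (D.hd a) then insert w (C z) else C z

omit [Fintype A] [DecidableEq A] in
lemma addC_mono (C : V → Finset ℕ) (a : A) (w : ℕ) (v : V) : C v ⊆ addC D Sp C a w v := by
  unfold addC; split_ifs
  · exact Finset.subset_insert _ _
  · exact subset_rfl

omit [Fintype A] [DecidableEq A] in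
lemma addC_hd (C : V → Finset ℕ) (a : A) (w : ℕ) : w ∈ addC D Sp C a w (D.hd a) := by
  unfold addC
  rw [if_pos (Net.self_mem_Cl D Sp (D.hd a))]
  exact Finset.mem_insert_self _ _

omit [Fintype A] [DecidableEq A] in
lemma biUnion_mono' {C C' : V → Finset ℕ} (h : ∀ v, C v ⊆ C' v) (Z : Finset V) :
    Z.biUnion C ⊆ Z.biUnion C' := by
  intro c hc
  rw [Finset.mem_biUnion] at *
  obtain ⟨v, hv, hc⟩ := hc
  exact ⟨v, hv, h v hc⟩

omit [Fintype A] [DecidableEq A] in
lemma biUnion_addC (C : V → Finset ℕ) (a : A) (w : ℕ) (Z : Finset V) :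
    Z.biUnion (addC D Sp C a w) ⊆ insert w (Z.biUnion C) := by
  intro c hc
  rw [Finset.mem_biUnion] at hc
  obtain ⟨v, hv, hc⟩ := hc
  unfold addC at hc
  split_ifs at hc
  · rw [Finset.mem_insert] at hc
    rcases hc with rfl | hc
    · exact Finset.mem_insert_self _ _
    · exact Finset.mem_insert_of_mem (Finset.mem_biUnion.mpr ⟨v, hv, hc⟩)
  · exact Finset.mem_insert_of_mem (Finset.mem_biUnion.mpr ⟨v, hv, hc⟩)

/-- `T` plus an arc -/
lemma st_add (h : St D Sp s T C) {a : A} (haS : a ∉ Sp) (haT : a ∉ T) {w : ℕ}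
    (hw : w ∈ C (D.tl a) ∨ rk (C (D.tl a)) = 2) :
    St D Sp s (insert a T) (addC D Sp C a w) := by
  refine ⟨?_, ?_, ?_⟩
  · rw [Finset.disjoint_insert_left]
    exact ⟨haS, h.disj⟩
  · intro b hb
    by_cases hb1 : D.tl b ∈ D.Cl Sp (D.hd a)
    · have hb2 := Net.Cl_step hb hb1
      unfold addC
      rw [if_pos hb1, if_pos hb2]
      exact Finset.insert_subset_insert _ (h.clos b hb)
    · intro c hc
      unfold addC at hc
      rw [if_neg hb1] at hc
      exact addC_mono C a w _ (h.clos b hb hc)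
  · intro Z hsZ hZ
    have h1 := h.cert Z hsZ hZ
    have hmono : (D.ent T Z).card ≤ (D.ent (insert a T) Z).card :=
      D.ent_mono (Finset.subset_insert a T) Z
    by_cases hv : D.hd a ∈ Z
    · by_cases hu : D.tl a ∈ Z
      · -- inside
        have hsub : C (D.tl a) ⊆ Z.biUnion C := Finset.subset_biUnion_of_mem C hu
        rcases hw with hw | hw
        · have : Z.biUnion (addC D Sp C a w) ⊆ Z.biUnion C := by
            refine (biUnion_addC C a w Z).trans ?_
            exact Finset.insert_subset (hsub hw) subset_rfl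
          exact (rk_mono this).trans (h1.trans hmono)
        · have h2 : rk (Z.biUnion C) = 2 := by
            have := rk_mono hsub
            have := rk_le_two (Z.biUnion C)
            omega
          have := rk_le_two (Z.biUnion (addC D Sp C a w))
          omega
      · -- entering
        have h2 := rk_mono (biUnion_addC (D := D) (Sp := Sp) C a w Z)
        have h3 := rk_insert_le w (Z.biUnion C)
        have h4 : (D.ent T Z).card + 1 ≤ (D.ent (insert a T) Z).card := by
          have : insert a (D.ent T Z) ⊆ D.ent (insert a T) Z := by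
            intro b hb
            rw [Finset.mem_insert] at hb
            rw [Net.mem_ent]
            rcases hb with rfl | hb
            · exact ⟨Finset.mem_insert_self _ _, hu, hv⟩
            · rw [Net.mem_ent] at hb
              exact ⟨Finset.mem_insert_of_mem hb.1, hb.2⟩
          have h5 := Finset.card_le_card this
          rw [Finset.card_insert_of_notMem] at h5
          · exact h5
          · rw [Net.mem_ent]; intro h; exact haT h.1
        omega
    · have : Z.biUnion (addC D Sp C a w) ⊆ Z.biUnion C := by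
        intro c hc
        rw [Finset.mem_biUnion] at hc ⊢
        obtain ⟨z, hz, hc⟩ := hc
        refine ⟨z, hz, ?_⟩
        unfold addC at hc
        split_ifs at hc with hzc
        · exfalso
          obtain ⟨b, hb, -⟩ := Net.Cl_enter hzc hv hz
          rw [hZ] at hb
          simp at hb
        · exact hc
      exact (rk_mono this).trans (h1.trans hmono)

lemma ent_add_card {a : A} (haT : a ∉ T) (Z : Finset V) :
    (D.ent (insert a T)ᶜ Z).card + (if D.tl a ∉ Z ∧ D.hd a ∈ Z then 1 else 0)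
      = (D.ent Tᶜ Z).card := by
  split_ifs with h
  · have : D.ent Tᶜ Z = insert a (D.ent (insert a T)ᶜ Z) := by
      ext b
      simp only [Net.mem_ent, Finset.mem_insert, Finset.mem_compl, not_or]
      constructor
      · rintro ⟨h1, h2⟩
        by_cases hba : b = a
        · left; exact hba
        · right; exact ⟨⟨hba, h1⟩, h2⟩
      · rintro (rfl | ⟨⟨_, h1⟩, h2⟩)
        · exact ⟨haT, h⟩
        · exact ⟨h1, h2⟩
    rw [this, Finset.card_insert_of_notMem]
    rw [Net.mem_ent]
    simp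
  · have : D.ent Tᶜ Z = D.ent (insert a T)ᶜ Z := by
      ext b
      simp only [Net.mem_ent, Finset.mem_insert, Finset.mem_compl, not_or]
      constructor
      · rintro ⟨h1, h2⟩
        refine ⟨⟨?_, h1⟩, h2⟩
        rintro rfl
        exact h h2
      · rintro ⟨⟨_, h1⟩, h2⟩
        exact ⟨h1, h2⟩
    rw [this, Nat.add_zero]

/-- ordinary arcs entering `Z` give `d(Z) > d_2(Z)` -/
lemma sp_le (hd : Disjoint T Sp) (Z : Finset V) : (D.ent Sp Z).card ≤ (D.ent Tᶜ Z).card := by
  apply D.ent_mono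
  intro a ha
  rw [Finset.mem_compl]
  intro haT
  exact (Finset.disjoint_left.mp hd haT) ha

lemma sp_lt (hd : Disjoint T Sp) {Z : Finset V} {B : Finset A} (hB : ∀ b ∈ B, b ∉ T ∧ b ∉ Sp ∧
    D.tl b ∉ Z ∧ D.hd b ∈ Z) : (D.ent Sp Z).card + B.card ≤ (D.ent Tᶜ Z).card := by
  rw [← Finset.card_union_of_disjoint]
  · apply Finset.card_le_card
    intro a ha
    rw [Finset.mem_union] at ha
    rw [Net.mem_ent, Finset.mem_compl]
    rcases ha with ha | ha
    · rw [Net.mem_ent] at ha
      exact ⟨fun haT => (Finset.disjoint_left.mp hd haT) ha.1, ha.2⟩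
    · obtain ⟨h1, h2, h3⟩ := hB a ha
      exact ⟨h1, h3⟩
  · rw [Finset.disjoint_right]
    intro b hb hb2
    rw [Net.mem_ent] at hb2
    exact (hB b hb).2.1 hb2.1

/-- in a relative instance every cut has at least `p` entering arcs -/
lemma Inst.cut (h : Inst D Sp p K U T C) (hs : Disjoint T Sp) {Z : Finset V} (h1 : K ⊆ Z)
    (h2 : Z ⊆ U) : p ≤ (D.ent Tᶜ Z).card := by
  by_cases h3 : (D.ent Sp Z).card < p
  · have := h.inv Z h1 h2 h3
    have := rk_le_two (Z.biUnion C)
    omega
  · have := sp_le (D := D) hs Z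
    omega

/-- closed sets: no arc from `U \ X` to `X` -/
def Closed (D : Net V A) (U : Finset V) (T : Finset A) (X : Finset V) : Prop :=
  ∀ a ∉ T, D.hd a ∈ X → D.tl a ∈ U → D.tl a ∈ X

/-- a closed subset `X` of a `p`-cut is a `p`-cut and all arcs entering `U` enter `X` -/
lemma closed_pcut (hU : (D.ent Tᶜ U).card = p) {X : Finset V} (hXU : X ⊆ U)
    (hX : Closed D U T X) (hp : p ≤ (D.ent Tᶜ X).card) : D.ent Tᶜ X = D.ent Tᶜ U := by
  apply Finset.eq_of_subset_of_card_le
  · intro a ha
    rw [Net.mem_ent, Finset.mem_compl] at *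
    obtain ⟨h1, h2, h3⟩ := ha
    exact ⟨h1, fun h => h2 (hX a h1 h3 h), hXU h3⟩
  · omega

lemma closed_pcut_sp (hs : Disjoint T Sp) (hU : (D.ent Tᶜ U).card = p) {X : Finset V} (hXU : X ⊆ U)
    (hX : Closed D U T X) (hp : p ≤ (D.ent Tᶜ X).card) : D.ent Sp X = D.ent Sp U := by
  have h := closed_pcut hU hXU hX hp
  ext a
  constructor
  · intro ha
    rw [Net.mem_ent] at ha
    have : a ∈ D.ent Tᶜ X := by
      rw [Net.mem_ent, Finset.mem_compl]
      exact ⟨fun haT => (Finset.disjoint_left.mp hs haT) ha.1, ha.2⟩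
    rw [h, Net.mem_ent] at this
    rw [Net.mem_ent]
    exact ⟨ha.1, this.2⟩
  · intro ha
    rw [Net.mem_ent] at ha
    have : a ∈ D.ent Tᶜ U := by
      rw [Net.mem_ent, Finset.mem_compl]
      exact ⟨fun haT => (Finset.disjoint_left.mp hs haT) ha.1, ha.2⟩
    rw [← h, Net.mem_ent] at this
    rw [Net.mem_ent]
    exact ⟨ha.1, this.2⟩

/-- composition of cut conditions -/
lemma compose_cuts {T' : Finset A} {M : Finset V} (hM : (D.ent T'ᶜ M).card = p)
    (hKM : K ⊆ M) (hMU : M ⊆ U)
    (h1 : ∀ Z, K ⊆ Z → Z ⊆ M → p ≤ (D.ent T'ᶜ Z).card)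
    (h2 : ∀ Z, M ⊆ Z → Z ⊆ U → p ≤ (D.ent T'ᶜ Z).card) :
    ∀ Z, K ⊆ Z → Z ⊆ U → p ≤ (D.ent T'ᶜ Z).card := by
  intro Z hKZ hZU
  have h3 := D.submod T'ᶜ Z M
  have h4 := h1 (Z ∩ M) (Finset.subset_inter hKZ hKM) Finset.inter_subset_right
  have h5 := h2 (Z ∪ M) Finset.subset_union_right (Finset.union_subset hZU hMU)
  omega

/-- new arcs not entering `Z` do not change `d(Z)` -/
lemma ent_eq_of_new {T' : Finset A} (hT : T ⊆ T') {Z : Finset V}
    (h : ∀ a ∈ T', a ∉ T → ¬ (D.tl a ∉ Z ∧ D.hd a ∈ Z)) : D.ent T'ᶜ Z = D.ent Tᶜ Z := by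
  ext a
  rw [Net.mem_ent, Net.mem_ent, Finset.mem_compl, Finset.mem_compl]
  constructor
  · rintro ⟨h1, h2⟩
    exact ⟨fun h3 => h1 (hT h3), h2⟩
  · rintro ⟨h1, h2⟩
    exact ⟨fun h3 => h a h3 h1 h2, h2⟩

/-- A blocker of the arc `b` of colour `c`. -/
def Blk (D : Net V A) (Sp : Finset A) (p : ℕ) (K U : Finset V) (T : Finset A)
    (C : V → Finset ℕ) (c : ℕ) (b : A) (Z : Finset V) : Prop :=
  K ⊆ Z ∧ Z ⊆ U ∧ (D.ent Sp Z).card < p ∧ D.tl b ∉ Z ∧ D.hd b ∈ Z ∧
    (D.ent Tᶜ Z).card = p + 1 ∧ Z.biUnion C = {c}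

lemma local_lemma (h : Inst D Sp p K U T C) (hs : Disjoint T Sp)
    (hclos : ∀ a ∈ Sp, C (D.tl a) ⊆ C (D.hd a)) (hK : K.biUnion C = ∅) (c : ℕ)
    (hbad : ∀ J, K ⊆ J → J ⊆ U → (D.ent Tᶜ J).card = p → rk (J.biUnion C) ≤ 1 →
      ¬ ∃ Z, K ⊆ Z ∧ Z ⊆ J ∧ (D.ent Sp Z).card < p)
    {a0 : A} (ha0 : a0 ∉ T ∧ D.tl a0 ∈ U ∧ D.hd a0 ∈ U ∧ C (D.tl a0) = {c} ∧ C (D.hd a0) = ∅)
    (hblk : ∀ b, (b ∉ T ∧ D.tl b ∈ U ∧ D.hd b ∈ U ∧ C (D.tl b) = {c} ∧ C (D.hd b) = ∅) →
      ∃ Z, Blk D Sp p K U T C c b Z) : False := by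
  set L : A → Prop := fun b =>
    b ∉ T ∧ D.tl b ∈ U ∧ D.hd b ∈ U ∧ C (D.tl b) = {c} ∧ C (D.hd b) = ∅ with hL
  have hLsp : ∀ b, L b → b ∉ Sp := by
    intro b hb hbS
    have := hclos b hbS
    rw [hb.2.2.2.1, hb.2.2.2.2] at this
    simp at this
  -- minimal blockers
  have hmin : ∀ b, L b → ∃ Z, Blk D Sp p K U T C c b Z ∧
      ∀ Z', Blk D Sp p K U T C c b Z' → Z.card ≤ Z'.card := by
    intro b hb
    obtain ⟨Z, hZ⟩ := hblk b hb
    have hne : (Finset.univ.filter (fun Z => Blk D Sp p K U T C c b Z)).Nonempty :=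
      ⟨Z, by simp [hZ]⟩
    obtain ⟨Z0, hZ0, hm⟩ := Finset.exists_min_image _ Finset.card hne
    refine ⟨Z0, (Finset.mem_filter.mp hZ0).2, fun Z' hZ' => hm Z' (by simp [hZ'])⟩
  choose! B hB hBmin using hmin
  -- (i)
  have hin : ∀ b Z, Blk D Sp p K U T C c b Z → ∃ b', L b' ∧ D.tl b' ∈ Z ∧ D.hd b' ∈ Z := by
    intro b Z hZ
    by_contra hcon
    push Not at hcon
    obtain ⟨h1, h2, h3, h4, h5, h6, h7⟩ := hZ
    set Z0 := Z.filter (fun z => C z = ∅) with hZ0
    have hlab : ∀ z ∈ Z, C z = ∅ ∨ C z = {c} := by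
      intro z hz
      have : C z ⊆ {c} := by
        rw [← h7]; exact Finset.subset_biUnion_of_mem C hz
      exact Finset.subset_singleton_iff.mp this
    have hKZ0 : K ⊆ Z0 := by
      intro k hk
      rw [hZ0, Finset.mem_filter]
      refine ⟨h1 hk, ?_⟩
      have := Finset.subset_biUnion_of_mem C hk
      rw [hK] at this
      exact Finset.subset_empty.mp this
    have hent : ∀ F : Finset A, (∀ a ∈ F, a ∉ T) → D.ent F Z0 ⊆ D.ent F Z := by
      intro F hF a ha
      rw [Net.mem_ent] at ha ⊢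
      obtain ⟨ha1, ha2, ha3⟩ := ha
      rw [hZ0, Finset.mem_filter] at ha2 ha3
      refine ⟨ha1, ?_, ha3.1⟩
      intro ha4
      have ha5 : C (D.tl a) = {c} := by
        rcases hlab _ ha4 with h8 | h8
        · exact absurd ⟨ha4, h8⟩ ha2
        · exact h8
      exact hcon a ⟨hF a ha1, h2 ha4, h2 ha3.1, ha5, ha3.2⟩ ha4 ha3.1
    have hSp : (D.ent Sp Z0).card ≤ (D.ent Sp Z).card :=
      Finset.card_le_card (hent Sp (fun a ha haT => (Finset.disjoint_left.mp hs haT) ha))
    have hT : (D.ent Tᶜ Z0).card ≤ (D.ent Tᶜ Z).card :=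
      Finset.card_le_card (hent Tᶜ (fun a ha => Finset.mem_compl.mp ha))
    have hZ0U : Z0 ⊆ U := (Finset.filter_subset _ _).trans h2
    have h8 := h.inv Z0 hKZ0 hZ0U (by omega)
    have h9 : Z0.biUnion C = ∅ := by
      rw [← Finset.subset_empty, Finset.biUnion_subset]
      intro z hz
      rw [hZ0, Finset.mem_filter] at hz
      rw [hz.2]
    rw [h9, rk_eq_zero.mpr rfl] at h8
    omega
  -- minimal absorbing set
  have hne : (Finset.univ.filter (fun Y : Finset V => Y ⊆ U ∧
      (∀ b, L b → D.tl b ∈ Y → D.hd b ∈ Y → B b ⊆ Y) ∧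
      ∃ b, L b ∧ D.tl b ∈ Y ∧ D.hd b ∈ Y)).Nonempty := by
    refine ⟨U, ?_⟩
    simp only [Finset.mem_filter, Finset.mem_univ, true_and]
    exact ⟨subset_rfl, fun b hb _ _ => (hB b hb).2.1, a0, ha0, ha0.2.1, ha0.2.2.1⟩
  obtain ⟨Y, hY, hYmin⟩ := Finset.exists_min_image _ Finset.card hne
  simp only [Finset.mem_filter, Finset.mem_univ, true_and] at hY hYmin
  obtain ⟨hYU, hYc, a, haL, haY1, haY2⟩ := hY
  have hBa := hB a haL
  have hne2 : (Finset.univ.filter (fun X : Finset V => B a ⊆ X ∧ X ⊆ Y ∧ D.tl a ∉ X ∧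
      (D.ent Tᶜ X).card = p + 1 ∧ X.biUnion C = {c})).Nonempty := by
    refine ⟨B a, ?_⟩
    simp only [Finset.mem_filter, Finset.mem_univ, true_and]
    exact ⟨subset_rfl, hYc a haL haY1 haY2, hBa.2.2.2.1, hBa.2.2.2.2.2.1, hBa.2.2.2.2.2.2⟩
  obtain ⟨X, hX, hXmax⟩ := Finset.exists_max_image _ Finset.card hne2
  simp only [Finset.mem_filter, Finset.mem_univ, true_and] at hX hXmax
  obtain ⟨hX1, hX2, hX3, hX4, hX5⟩ := hX
  -- `X` is not absorbing
  have hb : ∃ b, L b ∧ D.tl b ∈ X ∧ D.hd b ∈ X ∧ ¬ B b ⊆ X := by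
    by_contra hcon
    push Not at hcon
    obtain ⟨b', hb', hb1, hb2⟩ := hin a (B a) hBa
    have := hYmin X ⟨hX2.trans hYU, hcon, b', hb', hX1 hb1, hX1 hb2⟩
    have h2 : X ⊂ Y := by
      rw [Finset.ssubset_iff_of_subset hX2]
      exact ⟨D.tl a, haY1, hX3⟩
    have := Finset.card_lt_card h2
    omega
  obtain ⟨b, hbL, hb1, hb2, hb3⟩ := hb
  have hBb := hB b hbL
  obtain ⟨hb4, hb5, hb6, hb7, hb8, hb9, hb10⟩ := hBb
  have hBbY : B b ⊆ Y := hYc b hbL (hX2 hb1) (hX2 hb2)
  have hKX : K ⊆ X := hBa.1.trans hX1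
  have hXU : X ⊆ U := hX2.trans hYU
  have hC' : (X ∪ B b).biUnion C = {c} := by
    rw [Finset.union_biUnion, hX5, hb10, Finset.union_self]
  have hCI : (X ∩ B b).biUnion C ⊆ {c} := by
    rw [← hX5]
    exact Finset.biUnion_subset_biUnion_of_subset_left _ Finset.inter_subset_left
  have hrk1 : rk ({c} : Finset ℕ) = 1 := rk_eq_one.mpr ⟨c, rfl⟩
  have hd1 : p + 1 ≤ (D.ent Tᶜ (X ∪ B b)).card := by
    by_cases hsm : (D.ent Sp (X ∪ B b)).card < p
    · have := h.inv (X ∪ B b) (hKX.trans Finset.subset_union_left) (Finset.union_subset hXU hb5) hsm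
      rw [hC', hrk1] at this
      omega
    · have h1 := sp_le (D := D) hs (X ∪ B b)
      by_contra h2
      have h3 : (D.ent Tᶜ (X ∪ B b)).card = p := by omega
      refine hbad (X ∪ B b) (hKX.trans Finset.subset_union_left) (Finset.union_subset hXU hb5) h3
        (by rw [hC', hrk1]) ⟨B a, hBa.1, hX1.trans Finset.subset_union_left, hBa.2.2.1⟩
  have hd2 : p + 1 ≤ (D.ent Tᶜ (X ∩ B b)).card := by
    by_cases hsm : (D.ent Sp (X ∩ B b)).card < p
    · have h1 := h.inv (X ∩ B b) (Finset.subset_inter hKX hb4)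
        (Finset.inter_subset_left.trans hXU) hsm
      have := rk_mono hCI
      omega
    · have h1 := sp_lt (D := D) (Sp := Sp) hs (Z := X ∩ B b) (B := {b}) (by
        intro b' hb'
        rw [Finset.mem_singleton] at hb'
        subst hb'
        refine ⟨hbL.1, hLsp _ hbL, ?_, Finset.mem_inter.mpr ⟨hb2, hb8⟩⟩
        intro hh
        exact hb7 (Finset.mem_inter.mp hh).2)
      rw [Finset.card_singleton] at h1
      omega
  have hsub := D.submod Tᶜ X (B b)
  have hdI : (D.ent Tᶜ (X ∩ B b)).card = p + 1 := by omega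
  have hdU : (D.ent Tᶜ (X ∪ B b)).card = p + 1 := by omega
  have hcr : (D.cross Tᶜ X (B b)).card = 0 := by omega
  have hta : D.tl a ∈ B b := by
    by_contra hta
    have := hXmax (X ∪ B b) ⟨hX1.trans Finset.subset_union_left, Finset.union_subset hX2 hBbY, by
      rw [Finset.mem_union]; rintro (h1 | h1)
      · exact hX3 h1
      · exact hta h1, hdU, hC'⟩
    have h2 : X ⊂ X ∪ B b := by
      rw [Finset.ssubset_iff_subset_ne]
      refine ⟨Finset.subset_union_left, ?_⟩
      intro h3
      apply hb3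
      rw [h3]
      exact Finset.subset_union_right
    have := Finset.card_lt_card h2
    omega
  have hhaX : D.hd a ∈ X := hX1 hBa.2.2.2.2.1
  have hha : D.hd a ∈ B b := by
    by_contra hha
    have : a ∈ D.cross Tᶜ X (B b) := by
      unfold Net.cross
      rw [Finset.mem_filter, Finset.mem_compl]
      refine ⟨haL.1, Or.inr ⟨?_, ?_⟩⟩
      · rw [Finset.mem_sdiff]; exact ⟨hta, hX3⟩
      · rw [Finset.mem_sdiff]; exact ⟨hhaX, hha⟩
    rw [Finset.card_eq_zero] at hcr
    rw [hcr] at this
    simp at this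
  have hab : a ≠ b := by
    rintro rfl
    exact hX3 hb1
  have h2 := sp_lt (D := D) (Sp := Sp) hs (Z := X ∩ B b) (B := {a, b}) (by
    intro b' hb'
    rw [Finset.mem_insert, Finset.mem_singleton] at hb'
    rcases hb' with rfl | rfl
    · refine ⟨haL.1, hLsp _ haL, ?_, Finset.mem_inter.mpr ⟨hhaX, hha⟩⟩
      intro hh
      exact hX3 (Finset.mem_inter.mp hh).1
    · refine ⟨hbL.1, hLsp _ hbL, ?_, Finset.mem_inter.mpr ⟨hb2, hb8⟩⟩
      intro hh
      exact hb7 (Finset.mem_inter.mp hh).2)
  rw [Finset.card_pair hab] at h2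
  have hsm : (D.ent Sp (X ∩ B b)).card < p := by omega
  have h3 := h.inv (X ∩ B b) (Finset.subset_inter hKX hb4)
        (Finset.inter_subset_left.trans hXU) hsm
  have hCI2 : (X ∩ B b).biUnion C = {c} := by
    rcases Finset.subset_singleton_iff.mp hCI with h4 | h4
    · rw [h4, rk_eq_zero.mpr rfl] at h3
      omega
    · exact h4
  have h4 := hBmin b hbL (X ∩ B b) ⟨Finset.subset_inter hKX hb4,
    Finset.inter_subset_left.trans hXU, hsm, fun hh => hb7 (Finset.mem_inter.mp hh).2,
    Finset.mem_inter.mpr ⟨hb2, hb8⟩, hdI, hCI2⟩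
  have h5 : X ∩ B b ⊂ B b := by
    rw [Finset.ssubset_iff_of_subset Finset.inter_subset_right]
    exact ⟨D.tl a, hta, fun hh => hX3 (Finset.mem_inter.mp hh).1⟩
  have := Finset.card_lt_card h5
  omega

/-- adding an unblocked arc gives a new relative instance -/
lemma inst_add (h : Inst D Sp p K U T C) (hst : St D Sp s T C)
    (hconn : ∀ X, K ⊆ X → X ⊆ U → Closed D U T X → X = U)
    {a : A} (haT : a ∉ T) (haS : a ∉ Sp) (hu : D.tl a ∈ U) {w : ℕ}
    (hw : w ∈ C (D.tl a) ∨ rk (C (D.tl a)) = 2)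
    (hun : ∀ Z, K ⊆ Z → Z ⊆ U → (D.ent Sp Z).card < p → D.tl a ∉ Z → D.hd a ∈ Z →
      p + 3 ≤ (D.ent Tᶜ Z).card + rk (insert w (Z.biUnion C)))
    (hrule : p ≤ (D.ent Sp U).card →
      2 ≤ (insert w ((D.ent Sp U).biUnion (fun b => C (D.hd b)) ∪ K.biUnion C)).card) :
    Inst D Sp p K U (insert a T) (addC D Sp C a w) := by
  have hst' := st_add hst haS haT hw
  have hmono : ∀ Z : Finset V, Z.biUnion C ⊆ Z.biUnion (addC D Sp C a w) :=
    fun Z => biUnion_mono' (fun v => addC_mono C a w v) Z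
  have hinv : ∀ Z, K ⊆ Z → Z ⊆ U → (D.ent Sp Z).card < p →
      p + 2 ≤ (D.ent (insert a T)ᶜ Z).card + rk (Z.biUnion (addC D Sp C a w)) := by
    intro Z h1 h2 h3
    have h4 := ent_add_card (D := D) haT Z
    split_ifs at h4 with h5
    · have h6 := hun Z h1 h2 h3 h5.1 h5.2
      have h7 : insert w (Z.biUnion C) ⊆ Z.biUnion (addC D Sp C a w) := by
        apply Finset.insert_subset
        · rw [Finset.mem_biUnion]
          exact ⟨D.hd a, h5.2, addC_hd C a w⟩
        · exact hmono Z
      have := rk_mono h7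
      omega
    · have h6 := h.inv Z h1 h2 h3
      have := rk_mono (hmono Z)
      omega
  have htop : (D.ent (insert a T)ᶜ U).card = p := by
    have h4 := ent_add_card (D := D) haT U
    rw [if_neg (fun h5 => h5.1 hu)] at h4
    have := h.top
    omega
  refine ⟨h.sub, hinv, htop, ?_, ?_⟩
  · intro X h1 h2 h3
    by_cases hXU : X = U
    · subst hXU
      have h4 := h.full X h1 subset_rfl (fun _ _ _ h => h)
      have h5 := rk_mono (hmono X)
      have := rk_le_two (X.biUnion (addC D Sp C a w))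
      omega
    · have h4 : ¬ Closed D U T X := fun h4 => hXU (hconn X h1 h2 h4)
      unfold Closed at h4
      push Not at h4
      obtain ⟨b, hb1, hb2, hb3, hb4⟩ := h4
      have hba : b = a := by
        by_contra hba
        exact hb4 (h3 b (by rw [Finset.mem_insert]; push Not; exact ⟨hba, hb1⟩) hb2 hb3)
      subst hba
      have hpX : p ≤ (D.ent (insert b T)ᶜ X).card := by
        by_cases hsm : (D.ent Sp X).card < p
        · have := hinv X h1 h2 hsm
          have := rk_le_two (X.biUnion (addC D Sp C b w))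
          omega
        · have := sp_le (D := D) hst'.disj X
          omega
      have h5 := closed_pcut htop h2 h3 hpX
      have h6 := closed_pcut_sp hst'.disj htop h2 h3 hpX
      by_cases hns : p ≤ (D.ent Sp U).card
      · have h7 := hrule hns
        have h8 : insert w ((D.ent Sp U).biUnion (fun b => C (D.hd b)) ∪ K.biUnion C) ⊆
            X.biUnion (addC D Sp C b w) := by
          apply Finset.insert_subset
          · rw [Finset.mem_biUnion]
            exact ⟨D.hd b, hb2, addC_hd C b w⟩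
          · apply Finset.union_subset
            · rw [← h6]
              intro c hc
              rw [Finset.mem_biUnion] at hc
              obtain ⟨e, he, hc⟩ := hc
              rw [Net.mem_ent] at he
              rw [Finset.mem_biUnion]
              exact ⟨D.hd e, he.2.2, addC_mono C b w _ hc⟩
            · exact (Finset.biUnion_subset_biUnion_of_subset_left _ h1).trans (hmono X)
        have h9 := Finset.card_le_card h8
        rw [rk_eq_two]
        omega
      · have h7 := hinv X h1 h2 (by rw [h6]; omega)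
        rw [h5, htop] at h7
        have := rk_le_two (X.biUnion (addC D Sp C b w))
        omega
  · intro hns
    obtain ⟨b, hb, c, hc⟩ := h.heads hns
    exact ⟨b, hb, c, addC_mono C a w _ hc⟩

/-- existence of an unblocked arc -/
lemma exists_arc (h : Inst D Sp p K U T C) (hst : St D Sp s T C)
    (hconn : ∀ X, K ⊆ X → X ⊆ U → Closed D U T X → X = U)
    (hrk : rk (K.biUnion C) ≠ 2)
    (hsm : ∀ M, K ⊆ M → M ⊆ U → (D.ent Sp M).card < p → (D.ent Tᶜ M).card = p → M = U)
    (hbad : ∀ J, K ⊆ J → J ⊆ U → (D.ent Tᶜ J).card = p → rk (J.biUnion C) ≤ 1 →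
      ¬ ∃ Z, K ⊆ Z ∧ Z ⊆ J ∧ (D.ent Sp Z).card < p) :
    ∃ a w, a ∉ T ∧ a ∉ Sp ∧ D.tl a ∈ U ∧ D.tl a ∉ K ∧ D.hd a ∈ U ∧
      (w ∈ C (D.tl a) ∨ rk (C (D.tl a)) = 2) ∧
      (∀ Z, K ⊆ Z → Z ⊆ U → (D.ent Sp Z).card < p → D.tl a ∉ Z → D.hd a ∈ Z →
        p + 3 ≤ (D.ent Tᶜ Z).card + rk (insert w (Z.biUnion C))) ∧
      (p ≤ (D.ent Sp U).card →
        2 ≤ (insert w ((D.ent Sp U).biUnion (fun b => C (D.hd b)) ∪ K.biUnion C)).card) := by
  set Y := (D.ent Sp U).biUnion (fun b => C (D.hd b)) with hY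
  have hK1 : (K.biUnion C).card ≤ 1 := by
    rw [Ne, rk_eq_two] at hrk; omega
  -- the set `H`
  obtain ⟨H, hH1, hH2, hH3⟩ : ∃ H : Finset ℕ, H.card ≤ 1 ∧ K.biUnion C ⊆ H ∧
      (Y.card = 1 → K.biUnion C ⊆ Y → H = Y) := by
    by_cases hc : Y.card = 1 ∧ K.biUnion C ⊆ Y
    · exact ⟨Y, hc.1.le, hc.2, fun _ _ => rfl⟩
    · exact ⟨K.biUnion C, hK1, subset_rfl, fun h1 h2 => absurd ⟨h1, h2⟩ hc⟩
  -- the rule
  have hrule : ∀ w, w ∉ H → p ≤ (D.ent Sp U).card → 2 ≤ (insert w (Y ∪ K.biUnion C)).card := by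
    intro w hw hns
    obtain ⟨b, hb, c, hc⟩ := h.heads hns
    have hcY : c ∈ Y := by
      rw [hY, Finset.mem_biUnion]; exact ⟨b, hb, hc⟩
    have hYc : 1 ≤ Y.card := Finset.card_pos.mpr ⟨c, hcY⟩
    by_cases hY1 : Y.card = 1
    · by_cases hKY : K.biUnion C ⊆ Y
      · have hHY := hH3 hY1 hKY
        rw [hHY] at hw
        have h1 : insert w Y ⊆ insert w (Y ∪ K.biUnion C) :=
          Finset.insert_subset_insert _ Finset.subset_union_left
        have h2 := Finset.card_le_card h1
        rw [Finset.card_insert_of_notMem hw] at h2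
        omega
      · rw [Finset.not_subset] at hKY
        obtain ⟨d, hd1, hd2⟩ := hKY
        have h1 : insert d Y ⊆ insert w (Y ∪ K.biUnion C) := by
          apply Finset.insert_subset
          · exact Finset.mem_insert_of_mem (Finset.mem_union_right _ hd1)
          · exact Finset.subset_union_left.trans (Finset.subset_insert _ _)
        have h2 := Finset.card_le_card h1
        rw [Finset.card_insert_of_notMem hd2] at h2
        omega
    · have h1 : Y ⊆ insert w (Y ∪ K.biUnion C) :=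
        Finset.subset_union_left.trans (Finset.subset_insert _ _)
      have h2 := Finset.card_le_card h1
      omega
  -- the crossing arc
  set P := U.filter (fun z => C z ⊆ H) with hP
  have hKP : K ⊆ P := by
    intro k hk
    rw [hP, Finset.mem_filter]
    exact ⟨h.sub hk, (Finset.subset_biUnion_of_mem C hk).trans hH2⟩
  have hPU : P ⊆ U := Finset.filter_subset _ _
  have hPne : P ≠ U := by
    intro hPU'
    have h1 := h.full U h.sub subset_rfl (fun _ _ _ h => h)
    have h2 : U.biUnion C ⊆ H := by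
      rw [Finset.biUnion_subset]
      intro z hz
      rw [← hPU', hP, Finset.mem_filter] at hz
      exact hz.2
    have h3 := Finset.card_le_card h2
    rw [rk_eq_two] at h1
    omega
  have hnc : ¬ Closed D U T P := fun hc => hPne (hconn P hKP hPU hc)
  unfold Closed at hnc
  push Not at hnc
  obtain ⟨a, haT, haP, haU, haP2⟩ := hnc
  have hhd : C (D.hd a) ⊆ H := by
    rw [hP, Finset.mem_filter] at haP; exact haP.2
  have htl : ¬ C (D.tl a) ⊆ H := by
    intro hh
    apply haP2
    rw [hP, Finset.mem_filter]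
    exact ⟨haU, hh⟩
  have haS : a ∉ Sp := fun haS => htl ((hst.clos a haS).trans hhd)
  have haK : D.tl a ∉ K := fun hk => haP2 (hKP hk)
  -- general analysis of blockers
  have hblock : ∀ (b : A) (w : ℕ), D.tl b ∈ U → ∀ Z, K ⊆ Z → Z ⊆ U → (D.ent Sp Z).card < p →
      D.tl b ∉ Z → D.hd b ∈ Z →
      ¬ (p + 3 ≤ (D.ent Tᶜ Z).card + rk (insert w (Z.biUnion C))) →
      (D.ent Tᶜ Z).card = p + 1 ∧ Z.biUnion C = {w} := by
    intro b w hbU Z h1 h2 h3 h4 h5 h6
    have h7 := h.inv Z h1 h2 h3
    have h8 := rk_le_two (Z.biUnion C)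
    have h9 := rk_mono (Finset.subset_insert w (Z.biUnion C))
    by_cases h10 : rk (Z.biUnion C) = 2
    · exfalso
      have h11 : (D.ent Tᶜ Z).card = p := by
        omega
      have h12 := hsm Z h1 h2 h3 h11
      rw [h12] at h4
      exact h4 hbU
    · by_cases h11 : w ∈ Z.biUnion C
      · rw [Finset.insert_eq_of_mem h11] at h6
        have h12 : rk (Z.biUnion C) ≠ 0 := by
          rw [Ne, rk_eq_zero]
          rintro h13
          rw [h13] at h11
          simp at h11
        have h13 : rk (Z.biUnion C) = 1 := by omega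
        refine ⟨by omega, ?_⟩
        obtain ⟨c, hc⟩ := rk_eq_one.mp h13
        rw [hc, Finset.mem_singleton] at h11
        rw [hc, h11]
      · have := rk_insert_of_notMem h11 h10
        omega
  have hhdU : D.hd a ∈ U := hPU haP
  by_cases hr2 : rk (C (D.tl a)) = 2
  · -- fresh colour
    obtain ⟨w, hw⟩ : ∃ w, w ∉ (Finset.univ.biUnion C ∪ H) := Infinite.exists_notMem_finset _
    rw [Finset.mem_union] at hw
    push Not at hw
    refine ⟨a, w, haT, haS, haU, haK, hhdU, Or.inr hr2, ?_, hrule w hw.2⟩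
    intro Z h1 h2 h3 h4 h5
    by_contra h6
    have h7 := (hblock a w haU Z h1 h2 h3 h4 h5 h6).2
    apply hw.1
    have h8 : w ∈ Z.biUnion C := by rw [h7]; exact Finset.mem_singleton_self _
    exact Finset.biUnion_subset_biUnion_of_subset_left _ (Finset.subset_univ Z) h8
  · -- one colour
    have hne : (C (D.tl a)).Nonempty := by
      rw [Finset.nonempty_iff_ne_empty]
      intro h1
      apply htl
      rw [h1]
      exact Finset.empty_subset _
    have hr1 : rk (C (D.tl a)) = 1 := by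
      have h1 := rk_le_two (C (D.tl a))
      have h2 : rk (C (D.tl a)) ≠ 0 := by
        rw [Ne, rk_eq_zero, ← Ne, ← Finset.nonempty_iff_ne_empty]
        exact hne
      omega
    obtain ⟨c, hc⟩ := rk_eq_one.mp hr1
    have hcH : c ∉ H := by
      intro hh
      apply htl
      rw [hc, Finset.singleton_subset_iff]
      exact hh
    by_cases hunb : ∀ Z, K ⊆ Z → Z ⊆ U → (D.ent Sp Z).card < p → D.tl a ∉ Z → D.hd a ∈ Z →
        p + 3 ≤ (D.ent Tᶜ Z).card + rk (insert c (Z.biUnion C))
    · exact ⟨a, c, haT, haS, haU, haK, hhdU, Or.inl (by rw [hc]; simp), hunb, hrule c hcH⟩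
    · push Not at hunb
      obtain ⟨Z, h1, h2, h3, h4, h5, h6⟩ := hunb
      have h7 := hblock a c haU Z h1 h2 h3 h4 h5 (by omega)
      have hhd0 : C (D.hd a) = ∅ := by
        have h8 : C (D.hd a) ⊆ {c} := by
          rw [← h7.2]; exact Finset.subset_biUnion_of_mem C h5
        rcases Finset.subset_singleton_iff.mp h8 with h9 | h9
        · exact h9
        · exfalso
          rw [h9, Finset.singleton_subset_iff] at hhd
          exact hcH hhd
      have hK0 : K.biUnion C = ∅ := by
        have h8 : K.biUnion C ⊆ {c} := by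
          rw [← h7.2]; exact Finset.biUnion_subset_biUnion_of_subset_left _ h1
        rcases Finset.subset_singleton_iff.mp h8 with h9 | h9
        · exact h9
        · exfalso
          rw [h9, Finset.singleton_subset_iff] at hH2
          exact hcH hH2
      by_contra hcon
      refine local_lemma h hst.disj hst.clos hK0 c hbad (a0 := a)
        ⟨haT, haU, hhdU, hc, hhd0⟩ ?_
      intro b hb
      by_contra hnb
      apply hcon
      refine ⟨b, c, hb.1, ?_, hb.2.1, ?_, hb.2.2.1, Or.inl (by rw [hb.2.2.2.1]; simp), ?_,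
        hrule c hcH⟩
      · intro hbS
        have := hst.clos b hbS
        rw [hb.2.2.2.1, hb.2.2.2.2] at this
        simp at this
      · intro hbK
        have := Finset.subset_biUnion_of_mem C hbK
        rw [hK0, hb.2.2.2.1] at this
        simp at this
      · intro Z h1 h2 h3 h4 h5
        by_contra h6
        have h7 := hblock b c hb.2.1 Z h1 h2 h3 h4 h5 h6
        exact hnb ⟨Z, h1, h2, h3, h4, h5, h7.1, h7.2⟩

/-- solution inside a `p`-cut `M` gives a solution for `U` -/
lemma sol_inner (h : Inst D Sp p K U T C) (hs : Disjoint T Sp) {M : Finset V} (hKM : K ⊆ M)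
    (hMU : M ⊆ U) (hM : (D.ent Tᶜ M).card = p) {T' : Finset A} {C' : V → Finset ℕ}
    (hsol : Sol D Sp s p K M T C T' C') : Sol D Sp s p K U T C T' C' := by
  refine ⟨hsol.st, hsol.sub, ?_, hsol.mono, hsol.done, ?_, hsol.prov⟩
  · intro a h1 h2
    obtain ⟨h3, h4, h5⟩ := hsol.new a h1 h2
    exact ⟨hMU h3, h4, hMU h5⟩
  · have hsame : ∀ Z, M ⊆ Z → D.ent T'ᶜ Z = D.ent Tᶜ Z := by
      intro Z hZ
      apply ent_eq_of_new hsol.sub
      intro a h1 h2 h3
      exact h3.1 (hZ (hsol.new a h1 h2).1)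
    apply compose_cuts (M := M) _ hKM hMU hsol.cuts
    · intro Z h1 h2
      rw [hsame Z h1]
      exact h.cut hs (hKM.trans h1) h2
    · rw [hsame M subset_rfl]; exact hM

/-- inner instance at a `p`-cut `M` -/
lemma inst_inner (h : Inst D Sp p K U T C) (_hs : Disjoint T Sp) {M : Finset V} (hKM : K ⊆ M)
    (hMU : M ⊆ U) (hM : (D.ent Tᶜ M).card = p)
    (hfull : ∀ X, K ⊆ X → X ⊆ M → Closed D M T X → rk (X.biUnion C) = 2)
    (hheads : p ≤ (D.ent Sp M).card → ∃ a ∈ D.ent Sp M, (C (D.hd a)).Nonempty) :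
    Inst D Sp p K M T C :=
  ⟨hKM, fun Z h1 h2 h3 => h.inv Z h1 (h2.trans hMU) h3, hM, hfull, hheads⟩

/-- The main theorem on relative instances. -/
theorem rel_main (D : Net V A) (Sp : Finset A) (s : V) (p : ℕ) :
    ∀ (N : ℕ) (K U : Finset V) (T : Finset A) (C : V → Finset ℕ),
      (U \ K).card * (Fintype.card A + 1) + (Tᶜ).card ≤ N →
      St D Sp s T C → Inst D Sp p K U T C → ∃ T' C', Sol D Sp s p K U T C T' C' := by
  intro N
  induction N using Nat.strong_induction_on with
  | _ N IH =>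
  intro K U T C hN hst h
  have hs := hst.disj
  -- the measure decreases when `U \ K` shrinks
  have hmeas : ∀ (K' U' : Finset V) (T' : Finset A), (U' \ K').card < (U \ K).card →
      (U' \ K').card * (Fintype.card A + 1) + (T'ᶜ).card < N := by
    intro K' U' T' hlt
    have h1 : (T'ᶜ).card ≤ Fintype.card A := Finset.card_le_univ _
    have h2 : ((U' \ K').card + 1) * (Fintype.card A + 1) ≤ (U \ K).card * (Fintype.card A + 1) :=
      Nat.mul_le_mul_right _ hlt
    nlinarith
  by_cases hrk : rk (K.biUnion C) = 2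
  · -- already finished
    exact ⟨T, C, hst, subset_rfl, fun a h1 h2 => absurd h1 h2, fun v => subset_rfl, hrk,
      fun Z h1 h2 => h.cut hs h1 h2, fun X _ x _ c hc => Or.inl hc⟩
  by_cases hconn : ∀ X, K ⊆ X → X ⊆ U → Closed D U T X → X = U
  swap
  · -- a proper closed set
    push Not at hconn
    obtain ⟨X, hKX, hXU, hX, hne⟩ := hconn
    have hpX := h.cut hs hKX hXU
    have h1 := closed_pcut h.top hXU hX hpX
    have h2 := closed_pcut_sp hs h.top hXU hX hpX
    have hXp : (D.ent Tᶜ X).card = p := by rw [h1, h.top]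
    have hinst : Inst D Sp p K X T C := by
      refine inst_inner h hs hKX hXU hXp ?_ ?_
      · intro X' h3 h4 h5
        refine h.full X' h3 (h4.trans hXU) ?_
        intro a ha1 ha2 ha3
        exact h5 a ha1 ha2 (hX a ha1 (h4 ha2) ha3)
      · rw [h2]; exact h.heads
    have hlt : (X \ K).card < (U \ K).card := by
      apply Finset.card_lt_card
      rw [Finset.ssubset_iff_subset_ne]
      refine ⟨Finset.sdiff_subset_sdiff hXU subset_rfl, ?_⟩
      intro heq
      apply hne
      rw [← Finset.sdiff_union_of_subset hKX, ← Finset.sdiff_union_of_subset h.sub, heq]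
    obtain ⟨T', C', hsol⟩ := IH _ (hmeas K X T hlt) K X T C le_rfl hst hinst
    exact ⟨T', C', sol_inner h hs hKX hXU hXp hsol⟩
  by_cases hsm : ∀ M, K ⊆ M → M ⊆ U → (D.ent Sp M).card < p → (D.ent Tᶜ M).card = p → M = U
  swap
  · -- a small `p`-cut
    push Not at hsm
    obtain ⟨M, hKM, hMU, hM1, hM2, hne⟩ := hsm
    have hinst : Inst D Sp p K M T C := by
      refine inst_inner h hs hKM hMU hM2 ?_ (fun h1 => absurd hM1 (not_lt.mpr h1))
      intro X h1 h2 h3
      have hpX := h.cut hs h1 (h2.trans hMU)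
      have h4 := closed_pcut hM2 h2 h3 hpX
      have h5 := closed_pcut_sp hs hM2 h2 h3 hpX
      have h6 := h.inv X h1 (h2.trans hMU) (by rw [h5]; exact hM1)
      rw [h4, hM2] at h6
      have := rk_le_two (X.biUnion C)
      omega
    have hlt : (M \ K).card < (U \ K).card := by
      apply Finset.card_lt_card
      rw [Finset.ssubset_iff_subset_ne]
      refine ⟨Finset.sdiff_subset_sdiff hMU subset_rfl, ?_⟩
      intro heq
      apply hne
      rw [← Finset.sdiff_union_of_subset hKM, ← Finset.sdiff_union_of_subset h.sub, heq]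
    obtain ⟨T', C', hsol⟩ := IH _ (hmeas K M T hlt) K M T C le_rfl hst hinst
    exact ⟨T', C', sol_inner h hs hKM hMU hM2 hsol⟩
  by_cases hbad : ∀ J, K ⊆ J → J ⊆ U → (D.ent Tᶜ J).card = p → rk (J.biUnion C) ≤ 1 →
      ¬ ∃ Z, K ⊆ Z ∧ Z ⊆ J ∧ (D.ent Sp Z).card < p
  swap
  · -- decomposition at a nonsmall `p`-cut
    push Not at hbad
    obtain ⟨J, hKJ, hJU, hJ1, hJ2, Z, hKZ, hZJ, hZ⟩ := hbad
    have hJns : p ≤ (D.ent Sp J).card := by
      by_contra hc
      have := h.inv J hKJ hJU (by omega)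
      omega
    -- minimal closed set
    have hne : (Finset.univ.filter (fun X : Finset V => K ⊆ X ∧ X ⊆ J ∧ Closed D J T X)).Nonempty :=
      ⟨J, by simp only [Finset.mem_filter, Finset.mem_univ, true_and]
             exact ⟨hKJ, subset_rfl, fun _ _ _ h => h⟩⟩
    obtain ⟨X, hX, hXmin⟩ := Finset.exists_min_image _ Finset.card hne
    simp only [Finset.mem_filter, Finset.mem_univ, true_and] at hX hXmin
    obtain ⟨hKX, hXJ, hXc⟩ := hX
    have hXU : X ⊆ U := hXJ.trans hJU
    have hpX := h.cut hs hKX hXU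
    have h1 := closed_pcut hJ1 hXJ hXc hpX
    have h2 := closed_pcut_sp hs hJ1 hXJ hXc hpX
    have hXp : (D.ent Tᶜ X).card = p := by rw [h1, hJ1]
    have hXrk : rk (X.biUnion C) ≤ 1 :=
      (rk_mono (Finset.biUnion_subset_biUnion_of_subset_left _ hXJ)).trans hJ2
    have hXmin' : ∀ X', K ⊆ X' → X' ⊆ X → Closed D X T X' → X' = X := by
      intro X' h3 h4 h5
      have h6 : Closed D J T X' := by
        intro a ha1 ha2 ha3
        exact h5 a ha1 ha2 (hXc a ha1 (h4 ha2) ha3)
      exact Finset.eq_of_subset_of_card_le h4 (hXmin X' ⟨h3, h4.trans hXJ, h6⟩)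
    have hXK : X ≠ K := by
      intro hXK
      have h3 : D.ent Sp J ⊆ D.ent Sp Z := by
        intro a ha
        have ha' := ha
        rw [← h2, hXK, Net.mem_ent] at ha'
        rw [Net.mem_ent] at ha ⊢
        exact ⟨ha.1, fun h4 => ha.2.1 (hZJ h4), hKZ ha'.2.2⟩
      have := Finset.card_le_card h3
      omega
    have hXneU : X ≠ U := by
      intro hXU'
      have := h.full U h.sub subset_rfl (fun _ _ _ h => h)
      rw [hXU'] at hXrk
      omega
    -- outer instance
    have hout : Inst D Sp p X U T C := by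
      refine ⟨hXU, fun Z h3 h4 h5 => h.inv Z (hKX.trans h3) h4 h5, h.top,
        fun X' h3 h4 h5 => h.full X' (hKX.trans h3) h4 h5, h.heads⟩
    have hlt1 : (U \ X).card < (U \ K).card := by
      apply Finset.card_lt_card
      rw [Finset.ssubset_iff_subset_ne]
      refine ⟨Finset.sdiff_subset_sdiff subset_rfl hKX, ?_⟩
      intro heq
      apply hXK
      rw [← Finset.sdiff_sdiff_eq_self hXU, heq, Finset.sdiff_sdiff_eq_self h.sub]
    obtain ⟨T1, C1, hsol1⟩ := IH _ (hmeas X U T hlt1) X U T C le_rfl hst hout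
    have hs1 := hsol1.st.disj
    -- new arcs do not enter `X`
    have hnew : ∀ a ∈ T1, a ∉ T → D.hd a ∉ X := by
      intro a ha1 ha2 ha3
      obtain ⟨_, ha4, _⟩ := hsol1.new a ha1 ha2
      have haS : a ∉ Sp := fun haS => (Finset.disjoint_left.mp hs1 ha1) haS
      have h3 := sp_lt (D := D) (Sp := Sp) hs (Z := X) (B := {a}) (by
        intro b hb
        rw [Finset.mem_singleton] at hb
        subst hb
        exact ⟨ha2, haS, ha4, ha3⟩)
      rw [Finset.card_singleton, h2] at h3
      omega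
    have hsame1 : ∀ Z, Z ⊆ X → D.ent T1ᶜ Z = D.ent Tᶜ Z := by
      intro Z hZ
      apply ent_eq_of_new hsol1.sub
      intro a h3 h4 h5
      exact hnew a h3 h4 (hZ h5.2)
    have hinn : Inst D Sp p K X T1 C1 := by
      refine ⟨hKX, ?_, ?_, ?_, ?_⟩
      · intro Z h3 h4 h5
        have h6 := h.inv Z h3 (h4.trans hXU) h5
        rw [hsame1 Z h4]
        have := rk_mono (biUnion_mono' hsol1.mono Z)
        omega
      · rw [hsame1 X subset_rfl]; exact hXp
      · intro X' h3 h4 h5
        have h6 : X' = X := by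
          apply hXmin' X' h3 h4
          intro a ha1 ha2 ha3
          by_cases haT1 : a ∈ T1
          · exact absurd (h4 ha2) (hnew a haT1 ha1)
          · exact h5 a haT1 ha2 ha3
        rw [h6]; exact hsol1.done
      · intro _
        have h3 : ¬ X.biUnion C1 ⊆ X.biUnion C := by
          intro h4
          have := rk_mono h4
          have := hsol1.done
          omega
        rw [Finset.not_subset] at h3
        obtain ⟨c, hc1, hc2⟩ := h3
        rw [Finset.mem_biUnion] at hc1
        obtain ⟨x, hx, hc1⟩ := hc1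
        rcases hsol1.prov X hnew x hx c hc1 with h4 | ⟨b, hb, hcb⟩
        · exact absurd (Finset.mem_biUnion.mpr ⟨x, hx, h4⟩) hc2
        · exact ⟨b, hb, c, hcb⟩
    have hlt2 : (X \ K).card < (U \ K).card := by
      apply Finset.card_lt_card
      rw [Finset.ssubset_iff_subset_ne]
      refine ⟨Finset.sdiff_subset_sdiff hXU subset_rfl, ?_⟩
      intro heq
      apply hXneU
      rw [← Finset.sdiff_union_of_subset hKX, ← Finset.sdiff_union_of_subset h.sub, heq]
    obtain ⟨T2, C2, hsol2⟩ := IH _ (hmeas K X T1 hlt2) K X T1 C1 le_rfl hsol1.st hinn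
    refine ⟨T2, C2, hsol2.st, hsol1.sub.trans hsol2.sub, ?_, fun v => (hsol1.mono v).trans
      (hsol2.mono v), hsol2.done, ?_, ?_⟩
    · intro a h3 h4
      by_cases haT1 : a ∈ T1
      · obtain ⟨h5, h6, h7⟩ := hsol1.new a haT1 h4
        exact ⟨h5, fun h8 => h6 (hKX h8), h7⟩
      · obtain ⟨h5, h6, h7⟩ := hsol2.new a h3 haT1
        exact ⟨hXU h5, h6, hXU h7⟩
    · have hsame2 : ∀ Z, X ⊆ Z → D.ent T2ᶜ Z = D.ent T1ᶜ Z := by
        intro Z hZ
        apply ent_eq_of_new hsol2.sub
        intro a h3 h4 h5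
        exact h5.1 (hZ (hsol2.new a h3 h4).1)
      apply compose_cuts (M := X) _ hKX hXU hsol2.cuts
      · intro Z h3 h4
        rw [hsame2 Z h3]
        exact hsol1.cuts Z h3 h4
      · rw [hsame2 X subset_rfl, hsame1 X subset_rfl]; exact hXp
    · intro X' h3 x hx c hc
      rcases hsol2.prov X' (fun a h4 h5 => h3 a h4 (fun h6 => h5 (hsol1.sub h6))) x hx c hc with
        h4 | ⟨b, hb, hcb⟩
      · rcases hsol1.prov X' (fun a h5 h6 => h3 a (hsol2.sub h5) h6) x hx c h4 with
          h5 | ⟨b, hb, hcb⟩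
        · exact Or.inl h5
        · exact Or.inr ⟨b, hb, hsol2.mono _ hcb⟩
      · exact Or.inr ⟨b, hb, hcb⟩
  -- an unblocked arc
  obtain ⟨a, w, haT, haS, hu, huK, hv, hw, hun, hrule⟩ := exists_arc h hst hconn hrk hsm hbad
  have hinst := inst_add h hst hconn haT haS hu hw hun hrule
  have hst' := st_add hst haS haT hw
  have hlt : (U \ K).card * (Fintype.card A + 1) + ((insert a T)ᶜ).card < N := by
    have h1 : ((insert a T)ᶜ).card < (Tᶜ).card := by
      apply Finset.card_lt_card
      rw [Finset.ssubset_iff_of_subset]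
      · exact ⟨a, Finset.mem_compl.mpr haT, fun hh => (Finset.mem_compl.mp hh)
          (Finset.mem_insert_self a T)⟩
      · exact Finset.compl_subset_compl.mpr (Finset.subset_insert a T)
    omega
  obtain ⟨T', C', hsol⟩ := IH _ hlt K U (insert a T) (addC D Sp C a w) le_rfl hst' hinst
  refine ⟨T', C', hsol.st, (Finset.subset_insert a T).trans hsol.sub, ?_, fun v =>
    (addC_mono C a w v).trans (hsol.mono v), hsol.done, hsol.cuts, ?_⟩
  · intro b h1 h2
    by_cases hba : b = a
    · subst hba; exact ⟨hu, huK, hv⟩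
    · exact hsol.new b h1 (by rw [Finset.mem_insert]; push Not; exact ⟨hba, h2⟩)
  · intro X h1 x hx c hc
    have haT' : a ∈ T' := hsol.sub (Finset.mem_insert_self a T)
    rcases hsol.prov X (fun b h2 h3 => h1 b h2 (fun h4 => h3 (Finset.mem_insert_of_mem h4)))
      x hx c hc with h2 | h2
    · unfold addC at h2
      split_ifs at h2 with h3
      · rw [Finset.mem_insert] at h2
        rcases h2 with rfl | h2
        · obtain ⟨b, hb1, hb2⟩ := Net.Cl_enter h3 (h1 a haT' haT) hx
          refine Or.inr ⟨b, hb1, hsol.mono _ ?_⟩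
          unfold addC
          rw [if_pos hb2]
          exact Finset.mem_insert_self _ _
        · exact Or.inl h2
      · exact Or.inl h2
    · exact Or.inr h2

/-- the network with an extra vertex `none` and `p` special arcs from it to `s` -/
def ext (D : Net V A) (s : V) (p : ℕ) : Net (Option V) (A ⊕ Fin p) where
  tl := fun e => match e with
    | Sum.inl a => some (D.tl a)
    | Sum.inr _ => none
  hd := fun e => match e with
    | Sum.inl a => some (D.hd a)
    | Sum.inr _ => some s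

/-- Core theorem with prescribed initial state. -/
theorem core_gen (D : Net V A) (Sp : Finset A) (s t : V) (p : ℕ) (hp : 1 ≤ p) (T0 : Finset A)
    (C0 : V → Finset ℕ) (hst0 : St D Sp s T0 C0) (hs2 : 2 ≤ (C0 s).card)
    (H : ∀ Z : Finset V, t ∈ Z → s ∉ Z → (D.ent Sp Z).card < p →
      p + 2 ≤ (D.ent T0ᶜ Z).card + rk (Z.biUnion C0)) :
    ∃ T : Finset A, T0 ⊆ T ∧ Disjoint T Sp ∧
      (∀ Z : Finset V, t ∈ Z → s ∉ Z → p ≤ (D.ent Tᶜ Z).card) ∧
      (∀ Z : Finset V, t ∈ Z → s ∉ Z → (D.ent Sp Z).card = 0 → 2 ≤ (D.ent T Z).card) := by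
  set D' := ext D s p with hD'
  set Sp' : Finset (A ⊕ Fin p) := Sp.disjSum Finset.univ with hSp'
  set K : Finset (Option V) := {some t} with hK
  set U : Finset (Option V) := Finset.univ.erase none with hU
  set T0' : Finset (A ⊕ Fin p) := T0.map Function.Embedding.inl with hT0'
  set C : Option V → Finset ℕ := fun z => z.elim ∅ C0 with hC
  have hCsome : ∀ v, C (some v) = C0 v := fun v => rfl
  have hmT0 : ∀ a, Sum.inl a ∈ T0' ↔ a ∈ T0 := by
    intro a; simp [hT0']
  have hmT0r : ∀ i, Sum.inr i ∉ T0' := by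
    intro i; simp [hT0']
  -- restriction of a vertex set
  set r : Finset (Option V) → Finset V := fun Z => Finset.univ.filter (fun v => some v ∈ Z) with hr
  have hmr : ∀ Z v, v ∈ r Z ↔ some v ∈ Z := by intro Z v; simp [hr]
  -- special arcs do not enter from outside
  have hent_inl : ∀ (F : Finset (A ⊕ Fin p)) (Z : Finset (Option V)) (a : A),
      Sum.inl a ∈ D'.ent F Z ↔ Sum.inl a ∈ F ∧ D.tl a ∉ r Z ∧ D.hd a ∈ r Z := by
    intro F Z a
    rw [Net.mem_ent, hmr, hmr]
    rfl
  have hent_inr : ∀ (F : Finset (A ⊕ Fin p)) (Z : Finset (Option V)) (i : Fin p),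
      Sum.inr i ∈ D'.ent F Z ↔ Sum.inr i ∈ F ∧ none ∉ Z ∧ some s ∈ Z := by
    intro F Z i
    rw [Net.mem_ent]
    rfl
  have hle : ∀ (F : Finset (A ⊕ Fin p)) (G : Finset A) (Z : Finset (Option V)),
      (∀ a ∈ G, Sum.inl a ∈ F) → (D.ent G (r Z)).card ≤ (D'.ent F Z).card := by
    intro F G Z hG
    rw [← Finset.card_map Function.Embedding.inl]
    apply Finset.card_le_card
    intro e he
    rw [Finset.mem_map] at he
    obtain ⟨a, ha, rfl⟩ := he
    rw [Net.mem_ent] at ha
    rw [Function.Embedding.inl_apply, hent_inl]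
    exact ⟨hG a ha.1, ha.2⟩
  have hge : ∀ (F : Finset (A ⊕ Fin p)) (G : Finset A) (Z : Finset (Option V)),
      (∀ a, Sum.inl a ∈ F → a ∈ G) → some s ∉ Z → (D'.ent F Z).card ≤ (D.ent G (r Z)).card := by
    intro F G Z hG hsZ
    rw [← Finset.card_map (s := D.ent G (r Z)) (Function.Embedding.inl : A ↪ A ⊕ Fin p)]
    apply Finset.card_le_card
    intro e he
    rw [Finset.mem_map]
    rcases e with a | i
    · rw [hent_inl] at he
      exact ⟨a, by rw [Net.mem_ent]; exact ⟨hG a he.1, he.2⟩, rfl⟩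
    · rw [hent_inr] at he
      exact absurd he.2.2 hsZ
  have hdummy : ∀ (F : Finset (A ⊕ Fin p)) (Z : Finset (Option V)),
      (∀ i : Fin p, Sum.inr i ∈ F) → none ∉ Z → some s ∈ Z → p ≤ (D'.ent F Z).card := by
    intro F Z hF h1 h2
    have h3 : (Finset.univ : Finset (Fin p)).map Function.Embedding.inr ⊆ D'.ent F Z := by
      intro e he
      rw [Finset.mem_map] at he
      obtain ⟨i, -, rfl⟩ := he
      rw [Function.Embedding.inr_apply, hent_inr]
      exact ⟨hF i, h1, h2⟩
    have h4 := Finset.card_le_card h3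
    rw [Finset.card_map, Finset.card_univ, Fintype.card_fin] at h4
    exact h4
  have hnU : ∀ Z : Finset (Option V), Z ⊆ U → none ∉ Z := by
    intro Z hZ h1
    have := hZ h1
    simp [hU] at this
  have hbi : ∀ Z : Finset (Option V), Z.biUnion C = (r Z).biUnion C0 := by
    intro Z
    ext c
    rw [Finset.mem_biUnion, Finset.mem_biUnion]
    constructor
    · rintro ⟨z, hz, hc⟩
      rcases z with _ | v
      · simp [hC] at hc
      · exact ⟨v, (hmr Z v).mpr hz, hc⟩
    · rintro ⟨v, hv, hc⟩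
      exact ⟨some v, (hmr Z v).mp hv, hc⟩
  have hst : St D' Sp' (some s) T0' C := by
    refine ⟨?_, ?_, ?_⟩
    · rw [Finset.disjoint_left]
      intro e he hes
      rcases e with a | i
      · rw [hmT0] at he
        exact Finset.disjoint_left.mp hst0.disj he (by simpa [hSp'] using hes)
      · exact hmT0r i he
    · intro e he
      rcases e with a | i
      · exact hst0.clos a (by simpa [hSp'] using he)
      · intro c hc
        simp [hC, hD', ext] at hc
    · intro Z h1 h2
      rw [hbi]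
      refine (hst0.cert (r Z) (by rw [hmr]; exact h1) ?_).trans
        (hle T0' T0 Z (fun a ha => (hmT0 a).mpr ha))
      rw [Finset.eq_empty_iff_forall_notMem]
      intro a ha
      rw [Net.mem_ent] at ha
      have : Sum.inl a ∈ D'.ent Sp' Z := by
        rw [hent_inl]; exact ⟨by simp [hSp', ha.1], ha.2⟩
      rw [h2] at this
      simp at this
  have hbase : ∀ Z, K ⊆ Z → Z ⊆ U → (D'.ent Sp' Z).card < p →
      p + 2 ≤ (D'.ent T0'ᶜ Z).card + rk (Z.biUnion C) := by
    intro Z h1 h2 h3
    have hsZ : some s ∉ Z := by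
      intro h4
      have := hdummy Sp' Z (fun i => by simp [hSp']) (hnU Z h2) h4
      omega
    have h4 : (D.ent Sp (r Z)).card ≤ (D'.ent Sp' Z).card := hle _ _ _ (by
      intro a ha; simp [hSp', ha])
    have h5 := H (r Z) (by rw [hmr]; exact h1 (by simp [hK])) (by rw [hmr]; exact hsZ) (by omega)
    have h6 : (D.ent T0ᶜ (r Z)).card ≤ (D'.ent T0'ᶜ Z).card := hle _ _ _ (by
      intro a ha
      rw [Finset.mem_compl] at ha ⊢
      rw [hmT0]; exact ha)
    rw [hbi]
    omega
  have hinst : Inst D' Sp' p K U T0' C := by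
    refine ⟨?_, hbase, ?_, ?_, ?_⟩
    · intro z hz
      rw [hK, Finset.mem_singleton] at hz
      rw [hz, hU]
      simp
    · have h1 : D'.ent T0'ᶜ U = (Finset.univ : Finset (Fin p)).map Function.Embedding.inr := by
        ext e
        rw [Finset.mem_map]
        rcases e with a | i
        · rw [hent_inl]
          constructor
          · rintro ⟨-, h2, -⟩
            exfalso
            apply h2
            rw [hmr, hU]
            simp
          · rintro ⟨i, -, h2⟩
            simp at h2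
        · rw [hent_inr, Finset.mem_compl]
          constructor
          · intro _
            exact ⟨i, Finset.mem_univ _, rfl⟩
          · intro _
            exact ⟨hmT0r i, by simp [hU], by simp [hU]⟩
      rw [h1, Finset.card_map, Finset.card_univ, Fintype.card_fin]
    · intro X h1 h2 h3
      by_cases hsX : some s ∈ X
      · have h4 : C0 s ⊆ X.biUnion C := Finset.subset_biUnion_of_mem C hsX
        have h5 := Finset.card_le_card h4
        rw [rk_eq_two]
        omega
      · exfalso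
        have h4 : D'.ent T0'ᶜ X = ∅ := by
          rw [Finset.eq_empty_iff_forall_notMem]
          intro e he
          rcases e with a | i
          · rw [hent_inl, hmr, hmr] at he
            exact he.2.1 (h3 (Sum.inl a) (Finset.mem_compl.mp he.1) he.2.2 (by simp [hU, hD', ext]))
          · rw [hent_inr] at he
            exact hsX he.2.2
        have h5 : (D'.ent Sp' X).card ≤ (D'.ent T0'ᶜ X).card := sp_le hst.disj X
        rw [h4, Finset.card_empty] at h5
        have h6 := hbase X h1 h2 (by omega)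
        rw [h4, Finset.card_empty] at h6
        have h7 := rk_le_two (X.biUnion C)
        omega
    · intro _
      refine ⟨Sum.inr ⟨0, hp⟩, ?_, ?_⟩
      · rw [hent_inr]
        refine ⟨by simp [hSp'], hnU U subset_rfl, by simp [hU]⟩
      · have : D'.hd (Sum.inr ⟨0, hp⟩) = some s := rfl
        rw [this, hCsome, ← Finset.card_pos]
        omega
  obtain ⟨T', C', hsol⟩ := rel_main D' Sp' (some s) p _ K U T0' C le_rfl hst hinst
  set T : Finset A := Finset.univ.filter (fun a => Sum.inl a ∈ T') with hT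
  have hmT : ∀ a, a ∈ T ↔ Sum.inl a ∈ T' := by intro a; simp [hT]
  -- extension of a vertex set
  have hext : ∀ Z : Finset V, r (Z.map Function.Embedding.some) = Z := by
    intro Z; ext v; rw [hmr]; simp
  refine ⟨T, ?_, ?_, ?_, ?_⟩
  · intro a ha
    rw [hmT]
    exact hsol.sub ((hmT0 a).mpr ha)
  · rw [Finset.disjoint_left]
    intro a h1 h2
    rw [hmT] at h1
    exact Finset.disjoint_left.mp hsol.st.disj h1 (by simp [hSp', h2])
  · intro Z htZ hsZ
    have h1 := hsol.cuts (Z.map Function.Embedding.some) (by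
      intro z hz
      rw [hK, Finset.mem_singleton] at hz
      rw [hz]; simp [htZ]) (by
      intro z hz
      rw [Finset.mem_map] at hz
      obtain ⟨v, -, rfl⟩ := hz
      simp [hU])
    have h2 := hge T'ᶜ Tᶜ (Z.map Function.Embedding.some) (by
      intro a ha
      rw [Finset.mem_compl] at ha ⊢
      rw [hmT]; exact ha) (by simp [hsZ])
    rw [hext] at h2
    omega
  · intro Z htZ hsZ hZ
    have h1 := hsol.st.cert (Z.map Function.Embedding.some) (by simp [hsZ]) (by
      rw [← Finset.card_eq_zero]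
      have h2 := hge Sp' Sp (Z.map Function.Embedding.some) (by
        intro a ha
        simpa [hSp'] using ha) (by simp [hsZ])
      rw [hext] at h2
      omega)
    have h2 := hge T' T (Z.map Function.Embedding.some) (by
      intro a ha
      rw [hmT]; exact ha) (by simp [hsZ])
    rw [hext] at h2
    have h3 : K.biUnion C' ⊆ (Z.map Function.Embedding.some).biUnion C' :=
      Finset.biUnion_subset_biUnion_of_subset_left _ (by
        intro z hz
        rw [hK, Finset.mem_singleton] at hz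
        rw [hz]; simp [htZ])
    have h4 := rk_mono h3
    rw [hsol.done] at h4
    omega

/-- **Core theorem, `q = 2`.** -/
theorem core2 (D : Net V A) (Sp : Finset A) (s t : V) (p : ℕ) (hp : 1 ≤ p)
    (H : ∀ Z : Finset V, t ∈ Z → s ∉ Z → (D.ent Sp Z).card < p →
      p + 2 ≤ (D.ent Finset.univ Z).card) :
    ∃ T : Finset A, Disjoint T Sp ∧
      (∀ Z : Finset V, t ∈ Z → s ∉ Z → p ≤ (D.ent Tᶜ Z).card) ∧
      (∀ Z : Finset V, t ∈ Z → s ∉ Z → (D.ent Sp Z).card = 0 → 2 ≤ (D.ent T Z).card) := by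
  set C : V → Finset ℕ := fun z => if z ∈ D.Cl Sp s then {0, 1} else ∅ with hC
  have hst : St D Sp s ∅ C := by
    refine ⟨Finset.disjoint_empty_left _, ?_, ?_⟩
    · intro a ha
      by_cases h1 : D.tl a ∈ D.Cl Sp s
      · have h2 := Net.Cl_step ha h1
        simp only [hC]
        rw [if_pos h1, if_pos h2]
      · simp only [hC]
        rw [if_neg h1]
        exact Finset.empty_subset _
    · intro Z h1 h2
      have h3 : Z.biUnion C = ∅ := by
        rw [← Finset.subset_empty, Finset.biUnion_subset]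
        intro z hz
        have h4 : z ∉ D.Cl Sp s := by
          intro h4
          obtain ⟨b, hb, -⟩ := Net.Cl_enter h4 h1 hz
          rw [h2] at hb
          simp at hb
        simp only [hC]
        rw [if_neg h4]
      rw [h3, rk_eq_zero.mpr rfl]
      exact Nat.zero_le _
  obtain ⟨T, -, h1, h2, h3⟩ := core_gen D Sp s t p hp ∅ C hst (by
    simp only [hC]
    rw [if_pos (Net.self_mem_Cl D Sp s)]
    rw [Finset.card_pair (by norm_num)]) (by
    intro Z h1 h2 h3
    rw [Finset.compl_empty]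
    have := H Z h1 h2 h3
    omega)
  exact ⟨T, h1, h2, h3⟩

/-- the network with one extra arc from `s` to `t` -/
def plus (D : Net V A) (s t : V) : Net V (Option A) where
  tl := fun e => e.elim s D.tl
  hd := fun e => e.elim t D.hd

/-- **Core theorem, `q = 1`.** -/
theorem core1 (D : Net V A) (Sp : Finset A) (s t : V) (p : ℕ) (hp : 1 ≤ p)
    (H : ∀ Z : Finset V, t ∈ Z → s ∉ Z → (D.ent Sp Z).card < p →
      p + 1 ≤ (D.ent Finset.univ Z).card) :
    ∃ T : Finset A, Disjoint T Sp ∧
      (∀ Z : Finset V, t ∈ Z → s ∉ Z → p ≤ (D.ent Tᶜ Z).card) ∧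
      (∀ Z : Finset V, t ∈ Z → s ∉ Z → (D.ent Sp Z).card = 0 → 1 ≤ (D.ent T Z).card) := by
  set D' := plus D s t with hD'
  set Sp' : Finset (Option A) := Sp.map Function.Embedding.some with hSp'
  have hmSp : ∀ a, some a ∈ Sp' ↔ a ∈ Sp := by intro a; simp [hSp']
  have hnSp : (none : Option A) ∉ Sp' := by simp [hSp']
  set C : V → Finset ℕ := fun z => if z ∈ D'.Cl Sp' s then {0, 1} else
    if z ∈ D'.Cl Sp' t then {0} else ∅ with hC
  have hents : ∀ (F : Finset (Option A)) (Z : Finset V) (a : A),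
      some a ∈ D'.ent F Z ↔ some a ∈ F ∧ D.tl a ∉ Z ∧ D.hd a ∈ Z := by
    intro F Z a; rw [Net.mem_ent]; rfl
  have hentn : ∀ (F : Finset (Option A)) (Z : Finset V),
      none ∈ D'.ent F Z ↔ none ∈ F ∧ s ∉ Z ∧ t ∈ Z := by
    intro F Z; rw [Net.mem_ent]; rfl
  have hle : ∀ (F : Finset (Option A)) (G : Finset A) (Z : Finset V),
      (∀ a ∈ G, some a ∈ F) → (D.ent G Z).card ≤ (D'.ent F Z).card := by
    intro F G Z hG
    rw [← Finset.card_map (s := D.ent G Z) (Function.Embedding.some : A ↪ Option A)]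
    apply Finset.card_le_card
    intro e he
    rw [Finset.mem_map] at he
    obtain ⟨a, ha, rfl⟩ := he
    rw [Net.mem_ent] at ha
    rw [Function.Embedding.some_apply, hents]
    exact ⟨hG a ha.1, ha.2⟩
  have hge : ∀ (F : Finset (Option A)) (G : Finset A) (Z : Finset V),
      (∀ a, some a ∈ F → a ∈ G) → none ∉ F → (D'.ent F Z).card ≤ (D.ent G Z).card := by
    intro F G Z hG hn
    rw [← Finset.card_map (s := D.ent G Z) (Function.Embedding.some : A ↪ Option A)]
    apply Finset.card_le_card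
    intro e he
    rw [Finset.mem_map]
    rcases e with _ | a
    · rw [hentn] at he
      exact absurd he.1 hn
    · rw [hents] at he
      exact ⟨a, by rw [Net.mem_ent]; exact ⟨hG a he.1, he.2⟩, rfl⟩
  have hst : St D' Sp' s {none} C := by
    refine ⟨by simpa using hnSp, ?_, ?_⟩
    · intro a ha
      by_cases h1 : D'.tl a ∈ D'.Cl Sp' s
      · have h2 := Net.Cl_step ha h1
        simp only [hC]
        rw [if_pos h1, if_pos h2]
      · by_cases h3 : D'.tl a ∈ D'.Cl Sp' t
        · have h4 := Net.Cl_step ha h3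
          simp only [hC]
          rw [if_neg h1, if_pos h3]
          split_ifs
          · simp
          · exact subset_rfl
        · simp only [hC]
          rw [if_neg h1, if_neg h3]
          exact Finset.empty_subset _
    · intro Z h1 h2
      have h3 : ∀ z ∈ Z, z ∉ D'.Cl Sp' s := by
        intro z hz h4
        obtain ⟨b, hb, -⟩ := Net.Cl_enter h4 h1 hz
        rw [h2] at hb
        simp at hb
      by_cases htZ : t ∈ Z
      · have h4 : Z.biUnion C ⊆ {0} := by
          rw [Finset.biUnion_subset]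
          intro z hz
          simp only [hC]
          rw [if_neg (h3 z hz)]
          split_ifs <;> simp
        have h5 := rk_mono h4
        have h6 : rk ({0} : Finset ℕ) = 1 := rk_eq_one.mpr ⟨0, rfl⟩
        have h7 : 1 ≤ (D'.ent {none} Z).card := by
          rw [Nat.one_le_iff_ne_zero, ← Nat.pos_iff_ne_zero, Finset.card_pos]
          exact ⟨none, by rw [hentn]; exact ⟨by simp, h1, htZ⟩⟩
        omega
      · have h4 : Z.biUnion C = ∅ := by
          rw [← Finset.subset_empty, Finset.biUnion_subset]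
          intro z hz
          simp only [hC]
          rw [if_neg (h3 z hz), if_neg]
          intro h5
          obtain ⟨b, hb, -⟩ := Net.Cl_enter h5 htZ hz
          rw [h2] at hb
          simp at hb
        rw [h4, rk_eq_zero.mpr rfl]
        exact Nat.zero_le _
  obtain ⟨T', h0, h1, h2, h3⟩ := core_gen D' Sp' s t p hp {none} C hst (by
    simp only [hC]
    rw [if_pos (Net.self_mem_Cl D' Sp' s)]
    rw [Finset.card_pair (by norm_num)]) (by
    intro Z h1 h2 h3
    have h4 : (D.ent Sp Z).card ≤ (D'.ent Sp' Z).card := hle _ _ _ (fun a ha => (hmSp a).mpr ha)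
    have h5 := H Z h1 h2 (by omega)
    have h6 : (D.ent Finset.univ Z).card ≤ (D'.ent ({none} : Finset (Option A))ᶜ Z).card :=
      hle _ _ _ (by intro a _; simp)
    have h7 : 1 ≤ rk (Z.biUnion C) := by
      rw [Nat.one_le_iff_ne_zero, Ne, rk_eq_zero]
      intro h8
      have h9 : (0 : ℕ) ∈ Z.biUnion C := by
        rw [Finset.mem_biUnion]
        refine ⟨t, h1, ?_⟩
        simp only [hC]
        rw [if_pos (Net.self_mem_Cl D' Sp' t)]
        split_ifs <;> simp
      rw [h8] at h9
      simp at h9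
    omega)
  have hnT : none ∈ T' := h0 (by simp)
  set T : Finset A := Finset.univ.filter (fun a => some a ∈ T') with hT
  have hmT : ∀ a, a ∈ T ↔ some a ∈ T' := by intro a; simp [hT]
  refine ⟨T, ?_, ?_, ?_⟩
  · rw [Finset.disjoint_left]
    intro a h4 h5
    rw [hmT] at h4
    exact Finset.disjoint_left.mp h1 h4 ((hmSp a).mpr h5)
  · intro Z htZ hsZ
    refine (h2 Z htZ hsZ).trans (hge T'ᶜ Tᶜ Z ?_ (by simpa using hnT))
    intro a ha
    rw [Finset.mem_compl] at ha ⊢
    rw [hmT]; exact ha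
  · intro Z htZ hsZ hZ
    have h4 := h3 Z htZ hsZ (by
      have h5 := hge Sp' Sp Z (fun a ha => (hmSp a).mp ha) hnSp
      omega)
    have h5 := hge (T'.erase none) T Z (by
      intro a ha
      rw [hmT]; exact (Finset.mem_erase.mp ha).2) (by simp)
    have h6 : D'.ent T' Z ⊆ insert none (D'.ent (T'.erase none) Z) := by
      intro e he
      rw [Net.mem_ent] at he
      rw [Finset.mem_insert, Net.mem_ent, Finset.mem_erase]
      by_cases h7 : e = none
      · exact Or.inl h7
      · exact Or.inr ⟨⟨h7, he.1⟩, he.2⟩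
    have h7 := (Finset.card_le_card h6).trans (Finset.card_insert_le _ _)
    omega

end BHNet
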