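import Mathlib
import Pool.Agent.BH.Net

/-!
Menger's theorem (arc form) for finite multidigraphs, with paths as arc sets.
-/

namespace BHNet

open Classical

set_option linter.unusedSectionVars false

variable {V A : Type*} [Fintype V] [DecidableEq V] [Fintype A] [DecidableEq A]

/-- `D.IsPath t Q s`: the arcs of `Q` form a trail from `s` to `t`. -/
inductive Net.IsPath (D : Net V A) (t : V) : Finset A → V → Prop
  | nil : Net.IsPath D t ∅ t
  | cons (Q : Finset A) (a : A) (h1 : a ∉ Q) (h2 : Net.IsPath D t Q (D.hd a)) :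
      Net.IsPath D t (insert a Q) (D.tl a)

/-- The arcs of `F` leaving `Z`. -/
def Net.out (D : Net V A) (F : Finset A) (Z : Finset V) : Finset A :=
  F.filter (fun a => D.tl a ∈ Z ∧ D.hd a ∉ Z)

lemma Net.mem_out {D : Net V A} {F : Finset A} {Z : Finset V} {a : A} :
    a ∈ D.out F Z ↔ a ∈ F ∧ D.tl a ∈ Z ∧ D.hd a ∉ Z := by
  simp [Net.out]

lemma Net.reach_mono {D : Net V A} {F G : Finset A} (h : F ⊆ G) {s t : V} (hr : D.Reach F s t) :
    D.Reach G s t := by
  unfold Net.Reach at *
  induction hr with
  | refl => exact Relation.ReflTransGen.refl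
  | tail h1 h2 ih =>
    obtain ⟨a, ha, h3, h4⟩ := h2
    exact Relation.ReflTransGen.tail ih ⟨a, h ha, h3, h4⟩

lemma Net.IsPath.reach {D : Net V A} {t : V} {Q : Finset A} {s : V} (h : D.IsPath t Q s) :
    D.Reach Q s t := by
  induction h with
  | nil => exact Relation.ReflTransGen.refl
  | cons Q a h1 h2 ih =>
    have h3 := Net.reach_mono (Finset.subset_insert a Q) ih
    exact Relation.ReflTransGen.head ⟨a, Finset.mem_insert_self a Q, rfl, rfl⟩ h3

/-- a path is a unit flow -/
lemma Net.IsPath.balance {D : Net V A} {t : V} {Q : Finset A} {s : V} (h : D.IsPath t Q s)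
    (Z : Finset V) : (D.ent Q Z).card + (if s ∈ Z then 1 else 0)
      = (D.out Q Z).card + (if t ∈ Z then 1 else 0) := by
  induction h with
  | nil => simp [Net.ent, Net.out]
  | cons Q a h1 h2 ih =>
    have e1 : (D.ent (insert a Q) Z).card
        = (D.ent Q Z).card + (if D.tl a ∉ Z ∧ D.hd a ∈ Z then 1 else 0) := by
      unfold Net.ent
      rw [Finset.filter_insert]
      split_ifs with h3
      · rw [Finset.card_insert_of_notMem]
        simp [h1]
      · rfl
    have e2 : (D.out (insert a Q) Z).card
        = (D.out Q Z).card + (if D.tl a ∈ Z ∧ D.hd a ∉ Z then 1 else 0) := by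
      unfold Net.out
      rw [Finset.filter_insert]
      split_ifs with h3
      · rw [Finset.card_insert_of_notMem]
        simp [h1]
      · rfl
    rw [e1, e2]
    by_cases h3 : D.tl a ∈ Z <;> by_cases h4 : D.hd a ∈ Z <;> simp [h3, h4] at ih ⊢ <;> omega

lemma Net.IsPath.suffix {D : Net V A} {t : V} {Q : Finset A} {s : V} (h : D.IsPath t Q s) :
    ∀ b ∈ Q, ∃ Q', Q' ⊆ Q ∧ D.IsPath t Q' (D.tl b) := by
  induction h with
  | nil => intro b hb; simp at hb
  | cons Q a h1 h2 ih =>
    intro b hb
    rw [Finset.mem_insert] at hb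
    rcases hb with rfl | hb
    · exact ⟨insert b Q, subset_rfl, Net.IsPath.cons Q b h1 h2⟩
    · obtain ⟨Q', hQ', hp⟩ := ih b hb
      exact ⟨Q', hQ'.trans (Finset.subset_insert a Q), hp⟩

lemma Net.exists_path {D : Net V A} {F : Finset A} {s t : V} (h : D.Reach F s t) :
    ∃ Q, Q ⊆ F ∧ D.IsPath t Q s := by
  unfold Net.Reach at h
  induction h using Relation.ReflTransGen.head_induction_on with
  | refl => exact ⟨∅, Finset.empty_subset _, Net.IsPath.nil⟩
  | head h1 h2 ih =>
    obtain ⟨a, ha, rfl, rfl⟩ := h1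
    obtain ⟨Q, hQ, hp⟩ := ih
    by_cases haQ : a ∈ Q
    · obtain ⟨Q', hQ', hp'⟩ := hp.suffix a haQ
      exact ⟨Q', hQ'.trans hQ, hp'⟩
    · exact ⟨insert a Q, Finset.insert_subset ha hQ, Net.IsPath.cons Q a haQ hp⟩

/-- growth step data for Menger's theorem -/
lemma menger_grow (D : Net V A) (F : Finset A) (s t : V) (n : ℕ) :
    ∀ (m : ℕ) (T : Finset A) (R : Finset V), (F \ T).card ≤ m → T ⊆ F → s ∈ R →
      (∀ v ∈ R, D.Reach T s v) →
      (∀ Z, t ∈ Z → s ∉ Z → n ≤ (D.ent (F \ T) Z).card) →
      (∀ Z, t ∈ Z → s ∉ Z → Disjoint Z R → n + 1 ≤ (D.ent (F \ T) Z).card) →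
      ∃ Q, Q ⊆ F ∧ D.IsPath t Q s ∧ ∀ Z, t ∈ Z → s ∉ Z → n ≤ (D.ent (F \ Q) Z).card := by
  intro m
  induction m with
  | zero =>
    intro T R hm hTF hsR hR h1 h2
    by_cases htR : t ∈ R
    · obtain ⟨Q, hQ, hp⟩ := Net.exists_path (hR t htR)
      refine ⟨Q, hQ.trans hTF, hp, fun Z h3 h4 => (h1 Z h3 h4).trans ?_⟩
      exact D.ent_mono (Finset.sdiff_subset_sdiff subset_rfl hQ) Z
    · exfalso
      have h3 := h2 Rᶜ (by simpa using htR) (by simpa using hsR) disjoint_compl_left
      have h4 : (D.ent (F \ T) Rᶜ).card ≤ (F \ T).card := Finset.card_filter_le _ _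
      omega
  | succ m ih =>
    intro T R hm hTF hsR hR h1 h2
    by_cases htR : t ∈ R
    · obtain ⟨Q, hQ, hp⟩ := Net.exists_path (hR t htR)
      refine ⟨Q, hQ.trans hTF, hp, fun Z h3 h4 => (h1 Z h3 h4).trans ?_⟩
      exact D.ent_mono (Finset.sdiff_subset_sdiff subset_rfl hQ) Z
    · -- find an unblocked arc
      have key : ∃ a ∈ F \ T, D.tl a ∈ R ∧ D.hd a ∉ R ∧
          ∀ Z, t ∈ Z → s ∉ Z → D.tl a ∉ Z → D.hd a ∈ Z → n + 1 ≤ (D.ent (F \ T) Z).card := by
        by_cases htight : ∃ Z, t ∈ Z ∧ s ∉ Z ∧ (D.ent (F \ T) Z).card = n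
        · obtain ⟨Z, hZ⟩ := htight
          have hne : (Finset.univ.filter (fun Z => t ∈ Z ∧ s ∉ Z ∧
              (D.ent (F \ T) Z).card = n)).Nonempty := ⟨Z, by simpa using hZ⟩
          obtain ⟨Z0, hZ0, hmin⟩ := Finset.exists_min_image _ Finset.card hne
          simp only [Finset.mem_filter, Finset.mem_univ, true_and] at hZ0 hmin
          obtain ⟨ht0, hs0, hc0⟩ := hZ0
          have h3 := h2 (Z0 \ R) (by simp [ht0, htR]) (by simp [hs0]) Finset.sdiff_disjoint
          have h4 : ¬ D.ent (F \ T) (Z0 \ R) ⊆ D.ent (F \ T) Z0 := by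
            intro h5
            have := Finset.card_le_card h5
            omega
          rw [Finset.not_subset] at h4
          obtain ⟨a, ha1, ha2⟩ := h4
          rw [Net.mem_ent] at ha1 ha2
          obtain ⟨ha3, ha4, ha5⟩ := ha1
          rw [Finset.mem_sdiff] at ha4 ha5
          have ha6 : D.tl a ∈ Z0 := by
            by_contra hh
            exact ha2 ⟨ha3, hh, ha5.1⟩
          have ha7 : D.tl a ∈ R := by
            by_contra hh
            exact ha4 ⟨ha6, hh⟩
          refine ⟨a, ha3, ha7, ha5.2, ?_⟩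
          intro Z hZt hZs hZ1 hZ2
          have h5 := h1 Z hZt hZs
          by_contra h6
          have h7 : (D.ent (F \ T) Z).card = n := by omega
          have h8 := D.submod (F \ T) Z Z0
          have h9 := h1 (Z ∩ Z0) (by simp [hZt, ht0]) (by simp [hZs])
          have h10 := h1 (Z ∪ Z0) (by simp [hZt]) (by simp [hZs, hs0])
          have h11 := hmin (Z ∩ Z0) ⟨by simp [hZt, ht0], by simp [hZs], by omega⟩
          have h12 : Z ∩ Z0 ⊂ Z0 := by
            rw [Finset.ssubset_iff_of_subset Finset.inter_subset_right]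
            exact ⟨D.tl a, ha6, by simp [hZ1]⟩
          have := Finset.card_lt_card h12
          omega
        · push Not at htight
          have h3 := h2 Rᶜ (by simpa using htR) (by simpa using hsR) disjoint_compl_left
          have h4 : (D.ent (F \ T) Rᶜ).Nonempty := by
            rw [← Finset.card_pos]; omega
          obtain ⟨a, ha⟩ := h4
          rw [Net.mem_ent] at ha
          refine ⟨a, ha.1, by simpa using ha.2.1, by simpa using ha.2.2, ?_⟩
          intro Z hZt hZs _ _
          have h5 := h1 Z hZt hZs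
          have h6 := htight Z hZt hZs
          omega
      obtain ⟨a, haF, ha1, ha2, ha3⟩ := key
      rw [Finset.mem_sdiff] at haF
      have hcard : ∀ Z : Finset V, (D.ent (F \ T) Z).card ≤ (D.ent (F \ insert a T) Z).card +
          (if D.tl a ∉ Z ∧ D.hd a ∈ Z then 1 else 0) := by
        intro Z
        split_ifs with h3
        · have : D.ent (F \ T) Z ⊆ insert a (D.ent (F \ insert a T) Z) := by
            intro b hb
            rw [Net.mem_ent, Finset.mem_sdiff] at hb
            rw [Finset.mem_insert, Net.mem_ent, Finset.mem_sdiff, Finset.mem_insert]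
            by_cases hba : b = a
            · exact Or.inl hba
            · exact Or.inr ⟨⟨hb.1.1, by push Not; exact ⟨hba, hb.1.2⟩⟩, hb.2⟩
          exact (Finset.card_le_card this).trans (Finset.card_insert_le _ _)
        · have : D.ent (F \ T) Z ⊆ D.ent (F \ insert a T) Z := by
            intro b hb
            rw [Net.mem_ent, Finset.mem_sdiff] at hb
            rw [Net.mem_ent, Finset.mem_sdiff, Finset.mem_insert]
            refine ⟨⟨hb.1.1, ?_⟩, hb.2⟩
            push Not
            refine ⟨?_, hb.1.2⟩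
            rintro rfl
            exact h3 hb.2
          have := Finset.card_le_card this
          omega
      apply ih (insert a T) (insert (D.hd a) R)
      · have h3 : F \ insert a T ⊂ F \ T := by
          rw [Finset.ssubset_iff_of_subset]
          · exact ⟨a, Finset.mem_sdiff.mpr haF, by simp⟩
          · exact Finset.sdiff_subset_sdiff subset_rfl (Finset.subset_insert a T)
        have := Finset.card_lt_card h3
        omega
      · exact Finset.insert_subset haF.1 hTF
      · exact Finset.mem_insert_of_mem hsR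
      · intro v hv
        rw [Finset.mem_insert] at hv
        rcases hv with rfl | hv
        · have h3 := Net.reach_mono (Finset.subset_insert a T) (hR _ ha1)
          exact Relation.ReflTransGen.tail h3 ⟨a, Finset.mem_insert_self a T, rfl, rfl⟩
        · exact Net.reach_mono (Finset.subset_insert a T) (hR v hv)
      · intro Z h3 h4
        have h5 := hcard Z
        split_ifs at h5 with h6
        · have := ha3 Z h3 h4 h6.1 h6.2
          omega
        · have := h1 Z h3 h4
          omega
      · intro Z h3 h4 h5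
        rw [Finset.disjoint_insert_right] at h5
        have h6 := h2 Z h3 h4 h5.2
        have h7 := hcard Z
        rw [if_neg (fun h8 => h5.1 h8.2)] at h7
        omega

/-- **Menger's theorem**, arc form. -/
theorem menger (D : Net V A) (s t : V) (n : ℕ) : ∀ (F : Finset A),
    (∀ Z, t ∈ Z → s ∉ Z → n ≤ (D.ent F Z).card) →
    ∃ P : Fin n → Finset A, (∀ i, P i ⊆ F) ∧ (∀ i j, i ≠ j → Disjoint (P i) (P j)) ∧
      ∀ i, D.IsPath t (P i) s := by
  induction n with
  | zero => intro F _; exact ⟨fun i => i.elim0, fun i => i.elim0, fun i => i.elim0, fun i => i.elim0⟩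
  | succ n ih =>
    intro F hF
    obtain ⟨Q, hQ, hp, hc⟩ := menger_grow D F s t n (F \ ∅).card ∅ {s} le_rfl
      (Finset.empty_subset _) (Finset.mem_singleton_self s)
      (by intro v hv; rw [Finset.mem_singleton] at hv; rw [hv]; exact Relation.ReflTransGen.refl)
      (by intro Z h1 h2; rw [Finset.sdiff_empty]; have := hF Z h1 h2; omega)
      (by intro Z h1 h2 _; rw [Finset.sdiff_empty]; exact hF Z h1 h2)
    obtain ⟨P, hP1, hP2, hP3⟩ := ih (F \ Q) hc
    refine ⟨Fin.cons Q P, ?_, ?_, ?_⟩
    · intro i
      refine Fin.cases ?_ (fun i => ?_) i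
      · simpa using hQ
      · simpa using (hP1 i).trans Finset.sdiff_subset
    · intro i j
      refine Fin.cases ?_ (fun i => ?_) i <;> refine Fin.cases ?_ (fun j => ?_) j
      · intro h; exact absurd rfl h
      · intro _
        simp only [Fin.cons_zero, Fin.cons_succ]
        exact Finset.disjoint_of_subset_right (hP1 j) Finset.disjoint_sdiff
      · intro _
        simp only [Fin.cons_zero, Fin.cons_succ]
        exact Finset.disjoint_of_subset_left (hP1 i) Finset.sdiff_disjoint
      · intro h
        simp only [Fin.cons_succ]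
        exact hP2 i j (fun h2 => h (by rw [h2]))
    · intro i
      refine Fin.cases ?_ (fun i => ?_) i
      · simpa using hp
      · simpa using hP3 i

end BHNet
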