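import Mathlib
import Pool.Agent.BH.Net
import Pool.Agent.BH.Menger
import Pool.Agent.BH.Core2

/-!
Flows from Menger's theorem and the bulk argument.
-/

namespace BHNet

open Classical

set_option linter.unusedSectionVars false

variable {V A : Type*} [Fintype V] [DecidableEq V] [Fintype A] [DecidableEq A]

/-- the network with `M` parallel copies of every arc -/
def copies (D : Net V A) (M : ℕ) : Net V (A × Fin M) where
  tl := fun e => D.tl e.1
  hd := fun e => D.hd e.1

/-- number of sets of the family containing `a` -/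
def mult {n : ℕ} (P : Fin n → Finset A) (a : A) : ℕ :=
  (Finset.univ.filter (fun i => a ∈ P i)).card

lemma reach_image {D : Net V A} {M : ℕ} {Q : Finset (A × Fin M)} {s t : V}
    (h : (copies D M).Reach Q s t) : D.Reach (Q.image Prod.fst) s t := by
  unfold Net.Reach at *
  induction h with
  | refl => exact Relation.ReflTransGen.refl
  | tail h1 h2 ih =>
    obtain ⟨e, he, h3, h4⟩ := h2
    exact Relation.ReflTransGen.tail ih ⟨e.1, Finset.mem_image_of_mem _ he, h3, h4⟩

/-- Menger's theorem with capacities `u` on the arcs. -/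
theorem capMenger (D : Net V A) (s t : V) (n : ℕ) (u : A → ℕ)
    (h : ∀ Z : Finset V, t ∈ Z → s ∉ Z → n ≤ ∑ a ∈ D.ent Finset.univ Z, u a) :
    ∃ P : Fin n → Finset A, (∀ i, D.IsPath t (P i) s) ∧ ∀ a, mult P a ≤ u a := by
  obtain ⟨M, hM⟩ : ∃ M, ∀ a, u a ≤ M := ⟨Finset.univ.sup u, fun a => Finset.le_sup (Finset.mem_univ a)⟩
  set F : Finset (A × Fin M) := Finset.univ.filter (fun e => (e.2 : ℕ) < u e.1) with hF
  have hcard : ∀ Z : Finset V, ∑ a ∈ D.ent Finset.univ Z, u a = ((copies D M).ent F Z).card := by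
    intro Z
    rw [Finset.card_eq_sum_card_fiberwise (f := Prod.fst) (t := D.ent Finset.univ Z)]
    · apply Finset.sum_congr rfl
      intro a ha
      rw [Net.mem_ent] at ha
      symm
      have h3 : (((copies D M).ent F Z).filter (fun e => e.1 = a)).image (fun e => (e.2 : ℕ))
          = Finset.range (u a) := by
        ext x
        simp only [Finset.mem_image, Finset.mem_filter, Net.mem_ent, Finset.mem_range]
        constructor
        · rintro ⟨e, ⟨⟨he1, _⟩, he2⟩, rfl⟩
          rw [hF, Finset.mem_filter] at he1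
          rw [← he2]; exact he1.2
        · intro hx
          refine ⟨(a, ⟨x, lt_of_lt_of_le hx (hM a)⟩), ⟨⟨?_, ha.2⟩, rfl⟩, rfl⟩
          rw [hF, Finset.mem_filter]
          exact ⟨Finset.mem_univ _, hx⟩
      rw [← Finset.card_range (u a), ← h3, Finset.card_image_of_injOn]
      rintro ⟨x, i⟩ hx ⟨y, k⟩ hy hxy
      simp only [Finset.coe_filter, Set.mem_setOf_eq] at hx hy
      simp only at hxy
      rw [Prod.mk.injEq]
      exact ⟨hx.2.trans hy.2.symm, Fin.ext hxy⟩
    · intro e he
      have he' := Finset.mem_coe.mp he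
      rw [Net.mem_ent] at he'
      apply Finset.mem_coe.mpr
      rw [Net.mem_ent]
      exact ⟨Finset.mem_univ _, he'.2⟩
  obtain ⟨Q, hQ1, hQ2, hQ3⟩ := menger (copies D M) s t n F (by
    intro Z h1 h2
    rw [← hcard]
    exact h Z h1 h2)
  have h4 : ∀ i, ∃ P, P ⊆ (Q i).image Prod.fst ∧ D.IsPath t P s := fun i =>
    Net.exists_path (reach_image (hQ3 i).reach)
  choose P hP1 hP2 using h4
  refine ⟨P, hP2, ?_⟩
  intro a
  have h5 : ∀ i ∈ Finset.univ.filter (fun i => a ∈ P i), ∃ x : ℕ, ∃ j : Fin M,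
      (j : ℕ) = x ∧ (a, j) ∈ Q i := by
    intro i hi
    have h6 := hP1 i (Finset.mem_filter.mp hi).2
    rw [Finset.mem_image] at h6
    obtain ⟨⟨b, j⟩, h7, h8⟩ := h6
    simp only at h8
    exact ⟨j, j, rfl, by rw [← h8]; exact h7⟩
  choose! f hf using h5
  have h6 : ((Finset.univ.filter (fun i => a ∈ P i)).image f) ⊆ Finset.range (u a) := by
    intro x hx
    rw [Finset.mem_image] at hx
    obtain ⟨i, hi, rfl⟩ := hx
    obtain ⟨j, hj, hj2⟩ := hf i hi
    have h7 := hQ1 i hj2
    rw [hF, Finset.mem_filter] at h7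
    rw [Finset.mem_range, ← hj]
    exact h7.2
  have h7 := Finset.card_le_card h6
  rw [Finset.card_range, Finset.card_image_of_injOn] at h7
  · exact h7
  · intro i hi j hj hij
    by_contra hne
    obtain ⟨x, hx, hx2⟩ := hf i hi
    obtain ⟨y, hy, hy2⟩ := hf j hj
    have h10 : x = y := Fin.ext (by rw [hx, hy]; exact hij)
    rw [h10] at hx2
    exact Finset.disjoint_left.mp (hQ2 i j hne) hx2 hy2

/-- total entering amount of `f` at `Z` -/
def inn (D : Net V A) (f : A → ℕ) (Z : Finset V) : ℕ := ∑ a ∈ D.ent Finset.univ Z, f a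

/-- total leaving amount of `f` at `Z` -/
def outt (D : Net V A) (f : A → ℕ) (Z : Finset V) : ℕ := ∑ a ∈ D.out Finset.univ Z, f a

lemma sum_mult {n : ℕ} (P : Fin n → Finset A) (S : Finset A) :
    ∑ a ∈ S, mult P a = ∑ i, (S ∩ P i).card := by
  unfold mult
  simp_rw [Finset.card_filter]
  rw [Finset.sum_comm]
  apply Finset.sum_congr rfl
  intro i _
  rw [← Finset.card_filter, Finset.filter_mem_eq_inter]

/-- a family of `n` paths is a flow of value `n` -/
lemma mult_flow {D : Net V A} {s t : V} {n : ℕ} {P : Fin n → Finset A}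
    (hP : ∀ i, D.IsPath t (P i) s) {Z : Finset V} (ht : t ∈ Z) (hs : s ∉ Z) :
    inn D (mult P) Z = outt D (mult P) Z + n := by
  unfold inn outt
  rw [sum_mult, sum_mult]
  have h1 : ∀ i, (D.ent Finset.univ Z ∩ P i).card = (D.out Finset.univ Z ∩ P i).card + 1 := by
    intro i
    have h2 := (hP i).balance Z
    rw [if_neg hs, if_pos ht] at h2
    have h3 : D.ent (P i) Z = D.ent Finset.univ Z ∩ P i := by
      ext a; simp [Net.ent]; tauto
    have h4 : D.out (P i) Z = D.out Finset.univ Z ∩ P i := by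
      ext a; simp [Net.out]; tauto
    rw [h3, h4] at h2
    omega
  rw [Finset.sum_congr rfl (fun i _ => h1 i), Finset.sum_add_distrib]
  simp

/-- If an `N`-flow `z` has a `p`-connected support, it splits into `p` disjoint paths and the rest. -/
theorem split_flow (D : Net V A) (s t : V) (p N : ℕ) (z : A → ℕ)
    (hz : ∀ Z : Finset V, t ∈ Z → s ∉ Z → inn D z Z = outt D z Z + N)
    (hsupp : ∀ Z : Finset V, t ∈ Z → s ∉ Z →
      p ≤ ((D.ent Finset.univ Z).filter (fun a => 1 ≤ z a)).card) :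
    ∃ (P : Fin p → Finset A) (Q : Fin (N - p) → Finset A),
      (∀ i, D.IsPath t (P i) s) ∧ (∀ i, D.IsPath t (Q i) s) ∧
      (∀ a, mult P a ≤ 1) ∧ (∀ a, mult P a + mult Q a ≤ z a) := by
  obtain ⟨P, hP1, hP2⟩ := capMenger D s t p (fun a => if 1 ≤ z a then 1 else 0) (by
    intro Z h1 h2
    rw [← Finset.card_filter]
    exact hsupp Z h1 h2)
  have hle : ∀ a, mult P a ≤ z a := by
    intro a
    have := hP2 a
    split_ifs at this with h1
    · omega
    · omega
  obtain ⟨Q, hQ1, hQ2⟩ := capMenger D s t (N - p) (fun a => z a - mult P a) (by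
    intro Z h1 h2
    have h3 := hz Z h1 h2
    have h4 := mult_flow hP1 h1 h2
    unfold inn outt at h3 h4
    have h5 : ∑ a ∈ D.ent Finset.univ Z, (z a - mult P a) + ∑ a ∈ D.ent Finset.univ Z, mult P a
        = ∑ a ∈ D.ent Finset.univ Z, z a := by
      rw [← Finset.sum_add_distrib]
      apply Finset.sum_congr rfl
      intro a _
      have := hle a
      omega
    have h6 : ∑ a ∈ D.out Finset.univ Z, mult P a ≤ ∑ a ∈ D.out Finset.univ Z, z a :=
      Finset.sum_le_sum (fun a _ => hle a)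
    omega)
  refine ⟨P, Q, hP1, hQ1, ?_, ?_⟩
  · intro a
    have := hP2 a
    split_ifs at this <;> omega
  · intro a
    have h1 := hQ2 a
    have h2 := hle a
    omega

/-- The bulk argument: a set `T` of ordinary arcs as in the core theorem for the network with `j`
parallel special arcs gives the `N = j p + r` paths. -/
theorem bulk (D : Net V A) (Sp : Finset A) (s t : V) (p j r : ℕ) (hj : 1 ≤ j)
    (T : Finset A) (hT : Disjoint T Sp)
    (h1 : ∀ Z : Finset V, t ∈ Z → s ∉ Z →
      j * p ≤ (D.ent (T ∪ Sp)ᶜ Z).card + j * (D.ent Sp Z).card)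
    (h2 : ∀ Z : Finset V, t ∈ Z → s ∉ Z → (D.ent Sp Z).card = 0 → r ≤ (D.ent T Z).card) :
    ∃ (P : Fin p → Finset A) (Q : Fin (j * p + r - p) → Finset A),
      (∀ i, D.IsPath t (P i) s) ∧ (∀ i, D.IsPath t (Q i) s) ∧
      (∀ a, mult P a ≤ 1) ∧ (∀ a ∉ Sp, mult P a + mult Q a ≤ 1) := by
  -- the bulk flow
  obtain ⟨B, hB1, hB2⟩ := capMenger D s t (j * p)
    (fun a => if a ∈ Sp then j else if a ∈ T then 0 else 1) (by
    intro Z h3 h4
    refine (h1 Z h3 h4).trans ?_
    have h5 : ∑ a ∈ D.ent Finset.univ Z, (if a ∈ Sp then j else if a ∈ T then 0 else 1)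
        = ∑ a ∈ D.ent Finset.univ Z, ((if a ∈ (T ∪ Sp)ᶜ then 1 else 0) +
          j * (if a ∈ Sp then 1 else 0)) := by
      apply Finset.sum_congr rfl
      intro a _
      by_cases h6 : a ∈ Sp <;> by_cases h7 : a ∈ T <;> simp [h6, h7]
    rw [h5, Finset.sum_add_distrib, ← Finset.mul_sum, ← Finset.card_filter, ← Finset.card_filter]
    have h8 : (D.ent Finset.univ Z).filter (fun a => a ∈ (T ∪ Sp)ᶜ) = D.ent (T ∪ Sp)ᶜ Z := by
      ext a
      simp only [Finset.mem_filter, Net.mem_ent, Finset.mem_univ, true_and]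
      tauto
    have h9 : (D.ent Finset.univ Z).filter (fun a => a ∈ Sp) = D.ent Sp Z := by
      ext a
      simp only [Finset.mem_filter, Net.mem_ent, Finset.mem_univ, true_and]
      tauto
    rw [h8, h9])
  -- the extra flow
  obtain ⟨R, hR1, hR2⟩ := capMenger D s t r
    (fun a => if a ∈ Sp then r else if a ∈ T then 1 else 0) (by
    intro Z h3 h4
    by_cases h5 : (D.ent Sp Z).card = 0
    · refine (h2 Z h3 h4 h5).trans ?_
      have h6 : (D.ent T Z).card = ∑ a ∈ D.ent T Z, (if a ∈ Sp then r else if a ∈ T then 1 else 0) := by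
        rw [Finset.card_eq_sum_ones]
        apply Finset.sum_congr rfl
        intro a ha
        rw [Net.mem_ent] at ha
        rw [if_neg (Finset.disjoint_left.mp hT ha.1), if_pos ha.1]
      rw [h6]
      apply Finset.sum_le_sum_of_subset
      intro a ha
      rw [Net.mem_ent] at ha ⊢
      exact ⟨Finset.mem_univ _, ha.2⟩
    · obtain ⟨b, hb⟩ := Finset.card_pos.mp (Nat.pos_of_ne_zero h5)
      rw [Net.mem_ent] at hb
      have h6 : b ∈ D.ent Finset.univ Z := by
        rw [Net.mem_ent]; exact ⟨Finset.mem_univ _, hb.2⟩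
      refine le_trans ?_ (Finset.single_le_sum (f := fun a =>
        if a ∈ Sp then r else if a ∈ T then 1 else 0) (fun a _ => Nat.zero_le _) h6)
      simp [hb.1])
  set z : A → ℕ := fun a => mult B a + mult R a with hz
  have hz1 : ∀ Z : Finset V, t ∈ Z → s ∉ Z → inn D z Z = outt D z Z + (j * p + r) := by
    intro Z h3 h4
    have h5 := mult_flow hB1 h3 h4
    have h6 := mult_flow hR1 h3 h4
    unfold inn outt at *
    rw [Finset.sum_add_distrib, Finset.sum_add_distrib]
    omega
  have hBj : ∀ a, mult B a ≤ j := by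
    intro a
    have := hB2 a
    split_ifs at this <;> omega
  obtain ⟨P, Q, hP1, hQ1, hP2, hPQ⟩ := split_flow D s t p (j * p + r) z hz1 (by
    intro Z h3 h4
    have h5 := mult_flow hB1 h3 h4
    unfold inn outt at h5
    have h6 : ∑ a ∈ D.ent Finset.univ Z, mult B a ≤
        ∑ a ∈ (D.ent Finset.univ Z).filter (fun a => 1 ≤ z a), j := by
      rw [Finset.sum_filter]
      apply Finset.sum_le_sum
      intro a _
      split_ifs with h7
      · exact hBj a
      · simp only [hz] at h7
        omega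
    rw [Finset.sum_const, smul_eq_mul] at h6
    have h7 : j * p ≤ ((D.ent Finset.univ Z).filter (fun a => 1 ≤ z a)).card * j := by omega
    rw [mul_comm] at h7
    exact Nat.le_of_mul_le_mul_right h7 hj)
  refine ⟨P, Q, hP1, hQ1, hP2, ?_⟩
  intro a ha
  refine (hPQ a).trans ?_
  have h3 := hB2 a
  have h4 := hR2 a
  simp only [if_neg ha] at h3 h4
  simp only [hz]
  split_ifs at h3 h4 <;> omega

/-- the network with `j` parallel copies of the special arcs (the other copies are loops at `s`) -/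
def multi (D : Net V A) (Sp : Finset A) (s : V) (j : ℕ) : Net V (A × Fin j) where
  tl := fun e => if e.1 ∈ Sp ∨ (e.2 : ℕ) = 0 then D.tl e.1 else s
  hd := fun e => if e.1 ∈ Sp ∨ (e.2 : ℕ) = 0 then D.hd e.1 else s

/-- what the core theorem for `r` says -/
def CoreStatement.{u, v} (r : ℕ) : Prop :=
  ∀ (V : Type u) (A : Type v) [Fintype V] [DecidableEq V] [Fintype A] [DecidableEq A] (D : Net V A)
    (Sp : Finset A) (s t : V) (p : ℕ), 1 ≤ p →
    (∀ Z : Finset V, t ∈ Z → s ∉ Z → (D.ent Sp Z).card < p →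
      p + r ≤ (D.ent Finset.univ Z).card) →
    ∃ T : Finset A, Disjoint T Sp ∧
      (∀ Z : Finset V, t ∈ Z → s ∉ Z → p ≤ (D.ent Tᶜ Z).card) ∧
      (∀ Z : Finset V, t ∈ Z → s ∉ Z → (D.ent Sp Z).card = 0 → r ≤ (D.ent T Z).card)

/-- **Reduction to one bulk layer**: the core theorem for `r` gives `N = j p + r` paths. -/
theorem net_of_core.{u, v} {r : ℕ} (hcore : CoreStatement.{u, v} r) {V : Type u} {A : Type v}
    [Fintype V] [DecidableEq V] [Fintype A] [DecidableEq A] (D : Net V A) (Sp : Finset A) (s t : V) (p j : ℕ) (hp : 1 ≤ p)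
    (hj : 1 ≤ j)
    (H : ∀ Z : Finset V, t ∈ Z → s ∉ Z → (D.ent Sp Z).card < p →
      j * p + r ≤ (D.ent Finset.univ Z).card) :
    ∃ (P : Fin p → Finset A) (Q : Fin (j * p + r - p) → Finset A),
      (∀ i, D.IsPath t (P i) s) ∧ (∀ i, D.IsPath t (Q i) s) ∧
      (∀ a, mult P a ≤ 1) ∧ (∀ a ∉ Sp, mult P a + mult Q a ≤ 1) := by
  set D' := multi D Sp s j with hD'
  set Sp' : Finset (A × Fin j) := Sp ×ˢ Finset.univ with hSp'
  -- arcs of `D'` entering a set
  have hent : ∀ (F : Finset (A × Fin j)) (Z : Finset V), s ∉ Z → ∀ e : A × Fin j,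
      e ∈ D'.ent F Z ↔ e ∈ F ∧ (e.1 ∈ Sp ∨ (e.2 : ℕ) = 0) ∧ D.tl e.1 ∉ Z ∧ D.hd e.1 ∈ Z := by
    intro F Z hs e
    rw [Net.mem_ent]
    simp only [hD', multi]
    by_cases h1 : e.1 ∈ Sp ∨ (e.2 : ℕ) = 0
    · rw [if_pos h1, if_pos h1]; tauto
    · rw [if_neg h1, if_neg h1]; tauto
  have hSpent : ∀ Z : Finset V, s ∉ Z → D'.ent Sp' Z = (D.ent Sp Z) ×ˢ Finset.univ := by
    intro Z hs
    ext e
    rw [hent _ _ hs]
    simp only [hSp', Finset.mem_product, Net.mem_ent, Finset.mem_univ, and_true]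
    tauto
  have hSpcard : ∀ Z : Finset V, s ∉ Z → (D'.ent Sp' Z).card = j * (D.ent Sp Z).card := by
    intro Z hs
    rw [hSpent Z hs, Finset.card_product, Finset.card_univ, Fintype.card_fin, mul_comm]
  -- ordinary arcs
  set i0 : Fin j := ⟨0, hj⟩ with hi0
  have hord : ∀ (F : Finset (A × Fin j)) (G : Finset A) (Z : Finset V), s ∉ Z →
      (∀ a ∉ Sp, (a, i0) ∈ F ↔ a ∈ G) → (∀ a ∈ G, a ∉ Sp) →
      (D'.ent (F \ Sp') Z).card = (D.ent G Z).card := by
    intro F G Z hs hFG hG
    symm
    apply Finset.card_bij (fun a _ => (a, i0))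
    · intro a ha
      rw [Net.mem_ent] at ha
      rw [hent _ _ hs]
      refine ⟨?_, Or.inr rfl, ha.2⟩
      rw [Finset.mem_sdiff]
      refine ⟨(hFG a (hG a ha.1)).mpr ha.1, ?_⟩
      rw [hSp', Finset.mem_product]
      exact fun h => hG a ha.1 h.1
    · intro a _ b _ hab
      exact (Prod.mk.inj hab).1
    · intro e he
      rw [hent _ _ hs, Finset.mem_sdiff, hSp', Finset.mem_product] at he
      obtain ⟨⟨he1, he2⟩, he3, he4⟩ := he
      have he5 : e.1 ∉ Sp := fun h => he2 ⟨h, Finset.mem_univ _⟩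
      have he6 : e.2 = i0 := by
        rcases he3 with h | h
        · exact absurd h he5
        · exact Fin.ext h
      have he7 : e = (e.1, i0) := by rw [← he6]
      refine ⟨e.1, ?_, he7.symm⟩
      rw [Net.mem_ent]
      refine ⟨(hFG e.1 he5).mp ?_, he4⟩
      rw [← he7]; exact he1
  have hsplit : ∀ (F : Finset (A × Fin j)) (Z : Finset V), Sp' ⊆ F →
      (D'.ent F Z).card = (D'.ent (F \ Sp') Z).card + (D'.ent Sp' Z).card := by
    intro F Z hF
    rw [← Finset.card_union_of_disjoint]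
    · congr 1
      ext e
      simp only [Finset.mem_union, Net.mem_ent, Finset.mem_sdiff]
      constructor
      · rintro ⟨h1, h2⟩
        by_cases h3 : e ∈ Sp'
        · exact Or.inr ⟨h3, h2⟩
        · exact Or.inl ⟨⟨h1, h3⟩, h2⟩
      · rintro (⟨⟨h1, _⟩, h2⟩ | ⟨h1, h2⟩)
        · exact ⟨h1, h2⟩
        · exact ⟨hF h1, h2⟩
    · rw [Finset.disjoint_left]
      intro e h1 h2
      rw [Net.mem_ent, Finset.mem_sdiff] at h1
      rw [Net.mem_ent] at h2
      exact h1.1.2 h2.1
  obtain ⟨T', hT1, hT2, hT3⟩ := hcore V (A × Fin j) D' Sp' s t (j * p)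
    (Nat.mul_pos hj hp) (by
    intro Z h1 h2 h3
    rw [hSpcard Z h2] at h3
    have h4 : (D.ent Sp Z).card < p := Nat.lt_of_mul_lt_mul_left h3
    have h5 := H Z h1 h2 h4
    rw [hsplit _ _ (Finset.subset_univ _), hSpcard Z h2,
      hord Finset.univ Spᶜ Z h2 (by intro a ha; simp [ha]) (by intro a ha; simpa using ha)]
    have h6 : (D.ent Finset.univ Z).card = (D.ent Spᶜ Z).card + (D.ent Sp Z).card := by
      rw [← Finset.card_union_of_disjoint]
      · congr 1
        ext a
        simp only [Finset.mem_union, Net.mem_ent, Finset.mem_univ, Finset.mem_compl, true_and]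
        tauto
      · rw [Finset.disjoint_left]
        intro a h1 h2
        rw [Net.mem_ent] at h1 h2
        exact (Finset.mem_compl.mp h1.1) h2.1
    have h7 : (D.ent Sp Z).card ≤ j * (D.ent Sp Z).card := Nat.le_mul_of_pos_left _ hj
    omega)
  set T : Finset A := Finset.univ.filter (fun a => a ∉ Sp ∧ (a, i0) ∈ T') with hT
  have hTSp : Disjoint T Sp := by
    rw [Finset.disjoint_left]
    intro a ha
    exact (Finset.mem_filter.mp ha).2.1
  apply bulk D Sp s t p j r hj T hTSp
  · intro Z h1 h2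
    have h3 := hT2 Z h1 h2
    have h4 : Sp' ⊆ T'ᶜ := by
      intro e he
      rw [Finset.mem_compl]
      exact fun h => Finset.disjoint_left.mp hT1 h he
    rw [hsplit _ _ h4, hSpcard Z h2, hord T'ᶜ (T ∪ Sp)ᶜ Z h2 (by
      intro a ha
      rw [Finset.mem_compl, Finset.mem_compl, Finset.mem_union, hT, Finset.mem_filter]
      simp only [Finset.mem_univ, true_and]
      tauto) (by
      intro a ha
      rw [Finset.mem_compl, Finset.mem_union] at ha
      tauto)] at h3
    exact h3
  · intro Z h1 h2 h3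
    have h4 := hT3 Z h1 h2 (by rw [hSpcard Z h2, h3, mul_zero])
    have h5 : D'.ent T' Z = D'.ent (T' \ Sp') Z := by
      ext e
      rw [Net.mem_ent, Net.mem_ent, Finset.mem_sdiff]
      constructor
      · rintro ⟨h6, h7⟩
        exact ⟨⟨h6, fun h => Finset.disjoint_left.mp hT1 h6 h⟩, h7⟩
      · rintro ⟨⟨h6, _⟩, h7⟩
        exact ⟨h6, h7⟩
    rw [h5, hord T' T Z h2 (by
      intro a ha
      rw [hT, Finset.mem_filter]
      simp only [Finset.mem_univ, true_and]
      tauto) (by
      intro a ha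
      exact (Finset.mem_filter.mp ha).2.1)] at h4
    exact h4

theorem coreStatement_one.{u, v} : CoreStatement.{u, v} 1 := by
  intro V A _ _ _ _ D Sp s t p hp H
  exact core1 D Sp s t p hp H

theorem coreStatement_two.{u, v} : CoreStatement.{u, v} 2 := by
  intro V A _ _ _ _ D Sp s t p hp H
  exact core2 D Sp s t p hp H

/-- The network form of the problem: if every cut entered by fewer than `p` special arcs is
entered by at least `N` arcs, then there are `p` arc-disjoint paths and `N - p` further paths, all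
of them disjoint on the ordinary arcs. -/
def NetStatement.{u, v} (p N : ℕ) : Prop :=
  ∀ (V : Type u) (A : Type v) [Fintype V] [DecidableEq V] [Fintype A] [DecidableEq A]
    (D : Net V A) (Sp : Finset A) (s t : V),
    (∀ Z : Finset V, t ∈ Z → s ∉ Z → (D.ent Sp Z).card < p → N ≤ (D.ent Finset.univ Z).card) →
    ∃ (P : Fin p → Finset A) (Q : Fin (N - p) → Finset A),
      (∀ i, D.IsPath t (P i) s) ∧ (∀ i, D.IsPath t (Q i) s) ∧
      (∀ a, mult P a ≤ 1) ∧ (∀ a ∉ Sp, mult P a + mult Q a ≤ 1)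

theorem netStatement_of_core.{u, v} {r : ℕ} (hcore : CoreStatement.{u, v} r) {p j : ℕ}
    (hp : 1 ≤ p) (hj : 1 ≤ j) : NetStatement.{u, v} p (j * p + r) := by
  intro V A _ _ _ _ D Sp s t H
  exact net_of_core hcore D Sp s t p j hp hj H

end BHNet
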