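import Mathlib

/-!
# Mixed connectivity of multigraphs: definitions

Multigraphs, walks and paths, disconnecting pairs, connectivity pairs and the conclusion of the
Beineke–Harary problem.
-/

namespace BeinekeHarary

/-- A multigraph with vertex set `V` and edge set `E`: every edge has an unordered pair of end
vertices (parallel edges, and loops, are allowed). -/
structure MGraph (V E : Type*) where
  ends : E → Sym2 V

variable {V E : Type*}

/-- Walks of a multigraph. -/
inductive MGraph.Walk (G : MGraph V E) : V → V → Type _
  | nil (u : V) : MGraph.Walk G u u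
  | cons (u : V) {v w : V} (e : E) (h : G.ends e = s(u, v)) (p : MGraph.Walk G v w) :
      MGraph.Walk G u w

/-- The list of the vertices of a walk. -/
def MGraph.Walk.support {G : MGraph V E} : {u v : V} → G.Walk u v → List V
  | _, _, .nil u => [u]
  | _, _, .cons u _ _ p => u :: p.support

/-- The list of the edges of a walk. -/
def MGraph.Walk.edges {G : MGraph V E} : {u v : V} → G.Walk u v → List E
  | _, _, .nil _ => []
  | _, _, .cons _ e _ p => e :: p.edges

/-- A walk is a path if its vertices are distinct. -/
def MGraph.Walk.IsPath {G : MGraph V E} {u v : V} (p : G.Walk u v) : Prop :=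
  p.support.Nodup

/-- `(W, F)` is an `s`-`t` disconnecting pair of `G`: `W` is a set of vertices different from `s`
and `t`, `F` is a set of edges and every `s`-`t` path of `G` meets `W` or `F`. -/
def MGraph.IsDisc (G : MGraph V E) (s t : V) (W : Finset V) (F : Finset E) : Prop :=
  s ∉ W ∧ t ∉ W ∧
    ∀ p : G.Walk s t, p.IsPath → (∃ v ∈ p.support, v ∈ W) ∨ (∃ e ∈ p.edges, e ∈ F)

/-- `(k, l)` is a connectivity pair for `s` and `t` in `G`: some `s`-`t` disconnecting pair has
order `k` and size `l`, and every `s`-`t` disconnecting pair of order at most `k` and size at most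
`l` has cardinality at least `k + l`. -/
def MGraph.IsConnPair (G : MGraph V E) (s t : V) (k l : ℕ) : Prop :=
  (∃ W F, G.IsDisc s t W F ∧ W.card = k ∧ F.card = l) ∧
    ∀ W F, G.IsDisc s t W F → W.card ≤ k → F.card ≤ l → k + l ≤ W.card + F.card

/-- `G` has `k + l` pairwise edge-disjoint `s`-`t` paths, the first `k + 1` of which are pairwise
internally disjoint. -/
def MGraph.HasPaths (G : MGraph V E) (s t : V) (k l : ℕ) : Prop :=
  ∃ P : Fin (k + l) → G.Walk s t, (∀ i, (P i).IsPath) ∧
    (∀ i j, i ≠ j → ∀ e, e ∈ (P i).edges → e ∉ (P j).edges) ∧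
    ∀ i j : Fin (k + l), i ≠ j → (i : ℕ) < k + 1 → (j : ℕ) < k + 1 →
      ∀ v, v ∈ (P i).support → v ∈ (P j).support → v = s ∨ v = t

/-- The statement of the Beineke–Harary problem for the pair `(k, l)`. -/
def Holds.{u, v} (k l : ℕ) : Prop :=
  ∀ (V : Type u) (E : Type v) [Finite V] [Finite E] (G : MGraph V E) (s t : V), s ≠ t →
    G.IsConnPair s t k l → G.HasPaths s t k l

end BeinekeHarary
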