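import Mathlib
import Pool.Agent.BH.Defs
import Pool.Agent.BH.Bulk

/-!
From the network form to multigraphs.
-/

namespace BeinekeHarary

open Classical BHNet

set_option linter.unusedSectionVars false

section walks

variable {V E : Type*} {G : MGraph V E}

lemma MGraph.Walk.mem_start {u w : V} (p : G.Walk u w) : u ∈ p.support := by
  cases p <;> simp [MGraph.Walk.support]

lemma MGraph.Walk.exists_drop {v w : V} (p : G.Walk v w) : ∀ u ∈ p.support,
    ∃ q : G.Walk u w, (∀ x ∈ q.support, x ∈ p.support) ∧ (∀ e ∈ q.edges, e ∈ p.edges) ∧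
      (p.IsPath → q.IsPath) := by
  induction p with
  | nil v =>
    intro u hu
    simp only [MGraph.Walk.support, List.mem_singleton] at hu
    subst hu
    exact ⟨.nil u, fun x hx => hx, fun e he => he, fun h => h⟩
  | cons v e h p ih =>
    intro u hu
    simp only [MGraph.Walk.support, List.mem_cons] at hu
    rcases hu with rfl | hu
    · exact ⟨.cons u e h p, fun x hx => hx, fun e he => he, fun h => h⟩
    · obtain ⟨q, h1, h2, h3⟩ := ih u hu
      refine ⟨q, fun x hx => ?_, fun e he => ?_, fun hp => ?_⟩
      · simp only [MGraph.Walk.support, List.mem_cons]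
        exact Or.inr (h1 x hx)
      · simp only [MGraph.Walk.edges, List.mem_cons]
        exact Or.inr (h2 e he)
      · apply h3
        unfold MGraph.Walk.IsPath at hp ⊢
        simp only [MGraph.Walk.support, List.nodup_cons] at hp
        exact hp.2

lemma MGraph.Walk.exists_path {u w : V} (p : G.Walk u w) :
    ∃ q : G.Walk u w, q.IsPath ∧ (∀ x ∈ q.support, x ∈ p.support) ∧
      (∀ e ∈ q.edges, e ∈ p.edges) := by
  induction p with
  | nil v =>
    exact ⟨.nil v, by simp [MGraph.Walk.IsPath, MGraph.Walk.support], fun x hx => hx,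
      fun e he => he⟩
  | cons v e h p ih =>
    obtain ⟨q, h1, h2, h3⟩ := ih
    by_cases hv : v ∈ q.support
    · obtain ⟨r, h4, h5, h6⟩ := q.exists_drop v hv
      refine ⟨r, h6 h1, fun x hx => ?_, fun e he => ?_⟩
      · simp only [MGraph.Walk.support, List.mem_cons]
        exact Or.inr (h2 x (h4 x hx))
      · simp only [MGraph.Walk.edges, List.mem_cons]
        exact Or.inr (h3 e (h5 e he))
    · refine ⟨.cons v e h q, ?_, fun x hx => ?_, fun f hf => ?_⟩
      · unfold MGraph.Walk.IsPath at h1 ⊢
        simp only [MGraph.Walk.support, List.nodup_cons]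
        exact ⟨hv, h1⟩
      · simp only [MGraph.Walk.support, List.mem_cons] at hx ⊢
        rcases hx with hx | hx
        · exact Or.inl hx
        · exact Or.inr (h2 x hx)
      · simp only [MGraph.Walk.edges, List.mem_cons] at hf ⊢
        rcases hf with hf | hf
        · exact Or.inl hf
        · exact Or.inr (h3 f hf)

lemma MGraph.Walk.edge_ends {u w : V} (p : G.Walk u w) : ∀ e ∈ p.edges,
    ∃ x y, G.ends e = s(x, y) ∧ x ∈ p.support ∧ y ∈ p.support ∧ (p.IsPath → x ≠ y) := by
  induction p with
  | nil v => intro e he; simp [MGraph.Walk.edges] at he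
  | @cons v v' w e h p ih =>
    intro f hf
    simp only [MGraph.Walk.edges, List.mem_cons] at hf
    rcases hf with rfl | hf
    · refine ⟨v, v', h, ?_, ?_, ?_⟩
      · simp [MGraph.Walk.support]
      · simp only [MGraph.Walk.support, List.mem_cons]
        exact Or.inr p.mem_start
      · intro hp
        unfold MGraph.Walk.IsPath at hp
        simp only [MGraph.Walk.support, List.nodup_cons] at hp
        rintro rfl
        exact hp.1 p.mem_start
    · obtain ⟨x, y, h1, h2, h3, h4⟩ := ih f hf
      refine ⟨x, y, h1, ?_, ?_, ?_⟩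
      · simp only [MGraph.Walk.support, List.mem_cons]; exact Or.inr h2
      · simp only [MGraph.Walk.support, List.mem_cons]; exact Or.inr h3
      · intro hp
        apply h4
        unfold MGraph.Walk.IsPath at hp ⊢
        simp only [MGraph.Walk.support, List.nodup_cons] at hp
        exact hp.2

lemma MGraph.Walk.mem_support_of_mem_ends {u w : V} (p : G.Walk u w) {e : E} (he : e ∈ p.edges)
    {x : V} (hx : x ∈ G.ends e) : x ∈ p.support := by
  obtain ⟨y, z, h1, h2, h3, -⟩ := p.edge_ends e he
  rw [h1, Sym2.mem_iff] at hx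
  rcases hx with rfl | rfl
  · exact h2
  · exact h3

end walks

section bound

variable {V E : Type*} {G : MGraph V E} {s t : V} {k l : ℕ}

/-- in a connectivity pair, every disconnecting pair of order at most `k` has cardinality at least
`k + l`. -/
lemma conn_bound (hst : s ≠ t) (hc : G.IsConnPair s t k l) : ∀ (n : ℕ) (W : Finset V) (F : Finset E),
    F.card = n → G.IsDisc s t W F → W.card ≤ k → k + l ≤ W.card + F.card := by
  intro n
  induction n with
  | zero =>
    intro W F hF hd hW
    exact hc.2 W F hd hW (by omega)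
  | succ n ih =>
    intro W F hF hd hW
    by_cases hFl : F.card ≤ l
    · exact hc.2 W F hd hW hFl
    by_contra hcon
    push Not at hFl hcon
    obtain ⟨W1, F1, hd1, -, hF1⟩ := hc.1
    have h1 : ∃ e ∈ F, G.ends e ≠ s(s, t) := by
      by_contra h1
      push Not at h1
      have h2 : F ⊆ F1 := by
        intro e he
        have h3 := hd1.2.2 (.cons s e (h1 e he) (.nil t)) (by
          simp [MGraph.Walk.IsPath, MGraph.Walk.support, hst])
        rcases h3 with ⟨v, hv, hv2⟩ | ⟨f, hf, hf2⟩
        · simp only [MGraph.Walk.support, List.mem_cons, List.not_mem_nil, or_false] at hv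
          rcases hv with rfl | rfl
          · exact absurd hv2 hd1.1
          · exact absurd hv2 hd1.2.1
        · simp only [MGraph.Walk.edges, List.mem_cons, List.not_mem_nil, or_false] at hf
          rw [← hf]; exact hf2
      have := Finset.card_le_card h2
      omega
    obtain ⟨e, heF, he⟩ := h1
    have hcard : (F.erase e).card = n := by
      rw [Finset.card_erase_of_mem heF, hF]; rfl
    by_cases hx : ∃ x ∈ G.ends e, x ≠ s ∧ x ≠ t
    · obtain ⟨x, hx, hxs, hxt⟩ := hx
      have hd2 : G.IsDisc s t (insert x W) (F.erase e) := by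
        refine ⟨?_, ?_, ?_⟩
        · rw [Finset.mem_insert]; push Not; exact ⟨hxs.symm, hd.1⟩
        · rw [Finset.mem_insert]; push Not; exact ⟨hxt.symm, hd.2.1⟩
        · intro p hp
          rcases hd.2.2 p hp with ⟨v, hv, hv2⟩ | ⟨f, hf, hf2⟩
          · exact Or.inl ⟨v, hv, Finset.mem_insert_of_mem hv2⟩
          · by_cases hfe : f = e
            · subst hfe
              exact Or.inl ⟨x, p.mem_support_of_mem_ends hf hx, Finset.mem_insert_self _ _⟩
            · exact Or.inr ⟨f, hf, Finset.mem_erase.mpr ⟨hfe, hf2⟩⟩
      have h2 := Finset.card_insert_le x W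
      have h3 := ih (insert x W) (F.erase e) hcard hd2 (by omega)
      omega
    · push Not at hx
      have hd2 : G.IsDisc s t W (F.erase e) := by
        refine ⟨hd.1, hd.2.1, ?_⟩
        intro p hp
        rcases hd.2.2 p hp with h2 | ⟨f, hf, hf2⟩
        · exact Or.inl h2
        · by_cases hfe : f = e
          · exfalso
            subst hfe
            obtain ⟨x, y, h3, -, -, h4⟩ := p.edge_ends f hf
            have h5 := h4 hp
            have h6 : x = s ∨ x = t := by
              by_cases h7 : x = s
              · exact Or.inl h7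
              · exact Or.inr (hx x (by rw [h3]; exact Sym2.mem_mk_left x y) h7)
            have h7 : y = s ∨ y = t := by
              by_cases h8 : y = s
              · exact Or.inl h8
              · exact Or.inr (hx y (by rw [h3]; exact Sym2.mem_mk_right x y) h8)
            rcases h6 with rfl | rfl <;> rcases h7 with rfl | rfl
            · exact h5 rfl
            · exact he h3
            · exact he (by rw [h3]; exact Sym2.eq_swap)
            · exact h5 rfl
          · exact Or.inr ⟨f, hf, Finset.mem_erase.mpr ⟨hfe, hf2⟩⟩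
      have h3 := ih W (F.erase e) hcard hd2 hW
      omega

end bound

section network

variable {V E : Type*} [Fintype V] [Fintype E]

/-- the network of a multigraph: `v⁻ = inl (v, false)`, `v⁺ = inl (v, true)` and the same for
edges -/
noncomputable def gnet (G : MGraph V E) (s : V) (N : ℕ) :
    Net ((V × Bool) ⊕ (E × Bool)) (V ⊕ (E ⊕ (E × V × Bool × Fin N))) where
  tl := fun a => match a with
    | .inl v => .inl (v, false)
    | .inr (.inl e) => .inr (e, false)
    | .inr (.inr (e, v, b, _)) =>
      if v ∈ G.ends e then (if b = true then .inr (e, true) else .inl (v, true))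
        else .inl (s, true)
  hd := fun a => match a with
    | .inl v => .inl (v, true)
    | .inr (.inl e) => .inr (e, true)
    | .inr (.inr (e, v, b, _)) =>
      if v ∈ G.ends e then (if b = true then .inl (v, false) else .inr (e, false))
        else .inl (s, true)

variable {G : MGraph V E} {s t : V} {N : ℕ}

/-- a cut entered by no connector gives a disconnecting pair -/
lemma disc_of_cut (hst : s ≠ t) (Z : Finset ((V × Bool) ⊕ (E × Bool)))
    (ht : .inl (t, false) ∈ Z) (hs : .inl (s, true) ∉ Z)
    (hc1 : ∀ e v, v ∈ G.ends e → .inl (v, true) ∉ Z → .inr (e, false) ∉ Z)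
    (hc2 : ∀ e v, v ∈ G.ends e → .inr (e, true) ∉ Z → .inl (v, false) ∉ Z) :
    G.IsDisc s t (Finset.univ.filter (fun v => .inl (v, false) ∉ Z ∧ .inl (v, true) ∈ Z))
      (Finset.univ.filter (fun e => .inr (e, false) ∉ Z ∧ .inr (e, true) ∈ Z)) := by
  refine ⟨by simp [hs], by simp [ht], ?_⟩
  intro p _
  by_contra hcon
  push Not at hcon
  obtain ⟨h1, h2⟩ := hcon
  have key : ∀ {u w : V} (p : G.Walk u w), .inl (u, true) ∉ Z →
      (∀ v ∈ p.support, v ∉ Finset.univ.filter (fun v => .inl (v, false) ∉ Z ∧
        .inl (v, true) ∈ Z)) →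
      (∀ e ∈ p.edges, e ∉ Finset.univ.filter (fun e => .inr (e, false) ∉ Z ∧
        .inr (e, true) ∈ Z)) → u = w ∨ .inl (w, false) ∉ Z := by
    intro u w p
    induction p with
    | nil v => intro _ _ _; exact Or.inl rfl
    | @cons u v w e h p ih =>
      intro hu hW hF
      right
      have hu' : u ∈ G.ends e := by rw [h]; exact Sym2.mem_mk_left u v
      have hv' : v ∈ G.ends e := by rw [h]; exact Sym2.mem_mk_right u v
      have h3 := hc1 e u hu' hu
      have h4 : .inr (e, true) ∉ Z := by
        have := hF e (by simp [MGraph.Walk.edges])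
        simp only [Finset.mem_filter, Finset.mem_univ, true_and] at this
        tauto
      have h5 := hc2 e v hv' h4
      have h6 : .inl (v, true) ∉ Z := by
        have := hW v (by
          simp only [MGraph.Walk.support, List.mem_cons]
          exact Or.inr p.mem_start)
        simp only [Finset.mem_filter, Finset.mem_univ, true_and] at this
        tauto
      rcases ih h6 (fun x hx => hW x (by
          simp only [MGraph.Walk.support, List.mem_cons]; exact Or.inr hx))
        (fun f hf => hF f (by
          simp only [MGraph.Walk.edges, List.mem_cons]; exact Or.inr hf)) with h7 | h7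
      · rw [← h7]; exact h5
      · exact h7
  rcases key p hs h1 h2 with h3 | h3
  · exact hst h3
  · exact h3 ht

/-- the cut condition for the network of a multigraph -/
lemma gnet_cut (hst : s ≠ t) {k N : ℕ}
    (hb : ∀ (W : Finset V) (F : Finset E), G.IsDisc s t W F → W.card ≤ k → N ≤ W.card + F.card)
    (Z : Finset ((V × Bool) ⊕ (E × Bool))) (ht : .inl (t, false) ∈ Z) (hs : .inl (s, true) ∉ Z)
    (hsm : ((gnet G s N).ent (Finset.univ.map Function.Embedding.inl) Z).card < k + 1) :
    N ≤ ((gnet G s N).ent Finset.univ Z).card := by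
  by_cases hcon : ∃ (e : E) (v : V) (b : Bool), v ∈ G.ends e ∧
      (if b = true then (.inr (e, true) : (V × Bool) ⊕ (E × Bool)) else .inl (v, true)) ∉ Z ∧
      (if b = true then (.inl (v, false) : (V × Bool) ⊕ (E × Bool)) else .inr (e, false)) ∈ Z
  · obtain ⟨e, v, b, h1, h2, h3⟩ := hcon
    have h4 : (Finset.univ : Finset (Fin N)).image
        (fun i => (.inr (.inr (e, v, b, i)) : V ⊕ (E ⊕ (E × V × Bool × Fin N)))) ⊆
        (gnet G s N).ent Finset.univ Z := by
      intro a ha
      rw [Finset.mem_image] at ha
      obtain ⟨i, -, rfl⟩ := ha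
      rw [Net.mem_ent]
      refine ⟨Finset.mem_univ _, ?_, ?_⟩
      · simp only [gnet, if_pos h1]; exact h2
      · simp only [gnet, if_pos h1]; exact h3
    have h5 := Finset.card_le_card h4
    rw [Finset.card_image_of_injective, Finset.card_univ, Fintype.card_fin] at h5
    · exact h5
    · intro i j hij
      simpa using hij
  · push Not at hcon
    have hc1 : ∀ e v, v ∈ G.ends e → .inl (v, true) ∉ Z → .inr (e, false) ∉ Z := by
      intro e v hv h1
      exact hcon e v false hv h1
    have hc2 : ∀ e v, v ∈ G.ends e → .inr (e, true) ∉ Z → .inl (v, false) ∉ Z := by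
      intro e v hv h1
      exact hcon e v true hv h1
    have hd := disc_of_cut hst Z ht hs hc1 hc2
    set W := (Finset.univ.filter (fun v : V => (.inl (v, false) : (V × Bool) ⊕ (E × Bool)) ∉ Z ∧
      (.inl (v, true) : (V × Bool) ⊕ (E × Bool)) ∈ Z)) with hW
    set F := (Finset.univ.filter (fun e : E => (.inr (e, false) : (V × Bool) ⊕ (E × Bool)) ∉ Z ∧
      (.inr (e, true) : (V × Bool) ⊕ (E × Bool)) ∈ Z)) with hF
    have h1 : W.card ≤ ((gnet G s N).ent (Finset.univ.map Function.Embedding.inl) Z).card := by
      rw [← Finset.card_map (s := W)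
        (Function.Embedding.inl : V ↪ V ⊕ (E ⊕ (E × V × Bool × Fin N)))]
      apply Finset.card_le_card
      intro a ha
      rw [Finset.mem_map] at ha
      obtain ⟨v, hv, rfl⟩ := ha
      rw [hW, Finset.mem_filter] at hv
      rw [Net.mem_ent]
      exact ⟨Finset.mem_map_of_mem _ (Finset.mem_univ v), hv.2⟩
    have h2 := hb W F hd (by omega)
    have h3 : W.disjSum (F.disjSum ∅) ⊆ (gnet G s N).ent Finset.univ Z := by
      intro a ha
      rw [Net.mem_ent]
      refine ⟨Finset.mem_univ _, ?_⟩
      rcases a with v | e | c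
      · rw [Finset.inl_mem_disjSum, hW, Finset.mem_filter] at ha
        exact ha.2
      · rw [Finset.inr_mem_disjSum, Finset.inl_mem_disjSum, hF, Finset.mem_filter] at ha
        exact ha.2
      · rw [Finset.inr_mem_disjSum, Finset.inr_mem_disjSum] at ha
        simp at ha
    have h4 := Finset.card_le_card h3
    rw [Finset.card_disjSum, Finset.card_disjSum, Finset.card_empty] at h4
    omega

/-- what a vertex of the network that reaches `t⁻` along the arcs of `S` provides -/
def Good (G : MGraph V E) (t : V) (W : V → Prop) (F : E → Prop) : (V × Bool) ⊕ (E × Bool) → Prop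
  | .inl (v, false) => ∃ p : G.Walk v t, (∀ x ∈ p.support, W x ∨ x = t) ∧ (∀ e ∈ p.edges, F e)
  | .inl (v, true) =>
      ∃ p : G.Walk v t, (∀ x ∈ p.support, W x ∨ x = t ∨ x = v) ∧ (∀ e ∈ p.edges, F e)
  | .inr (e, true) =>
      ∃ v, v ∈ G.ends e ∧ ∃ p : G.Walk v t, (∀ x ∈ p.support, W x ∨ x = t) ∧ (∀ e ∈ p.edges, F e)
  | .inr (e, false) => F e ∧
      ∃ v, v ∈ G.ends e ∧ ∃ p : G.Walk v t, (∀ x ∈ p.support, W x ∨ x = t) ∧ (∀ e ∈ p.edges, F e)

lemma good_of_reach {S : Finset (V ⊕ (E ⊕ (E × V × Bool × Fin N)))} {x : (V × Bool) ⊕ (E × Bool)}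
    (h : (gnet G s N).Reach S x (.inl (t, false))) :
    Good G t (fun v => .inl v ∈ S) (fun e => .inr (.inl e) ∈ S) x := by
  unfold Net.Reach at h
  induction h using Relation.ReflTransGen.head_induction_on with
  | refl =>
    exact ⟨.nil t, fun x hx => by
      simp only [MGraph.Walk.support, List.mem_singleton] at hx
      exact Or.inr hx, fun e he => by simp [MGraph.Walk.edges] at he⟩
  | head h1 h2 ih =>
    obtain ⟨a, ha, rfl, rfl⟩ := h1
    rcases a with v | e | ⟨e, v, b, i⟩
    · -- special arc
      obtain ⟨p, hp1, hp2⟩ := ih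
      refine ⟨p, fun x hx => ?_, hp2⟩
      rcases hp1 x hx with h3 | h3 | h3
      · exact Or.inl h3
      · exact Or.inr h3
      · left; rw [h3]; exact ha
    · -- edge arc
      exact ⟨ha, ih⟩
    · -- connector
      by_cases hv : v ∈ G.ends e
      · cases b with
        | true =>
          simp only [gnet, if_pos hv, if_true] at ih ⊢
          exact ⟨v, hv, ih⟩
        | false =>
          simp only [gnet, if_pos hv, Bool.false_eq_true, if_false] at ih ⊢
          obtain ⟨he, w, hw, p, hp1, hp2⟩ := ih
          by_cases hvw : v = w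
          · subst hvw
            refine ⟨p, fun x hx => ?_, hp2⟩
            rcases hp1 x hx with h3 | h3
            · exact Or.inl h3
            · exact Or.inr (Or.inl h3)
          · have hends : G.ends e = s(v, w) := by
              rw [(Sym2.mem_and_mem_iff hvw).mp ⟨hv, hw⟩]
            refine ⟨.cons v e hends p, fun x hx => ?_, fun f hf => ?_⟩
            · simp only [MGraph.Walk.support, List.mem_cons] at hx
              rcases hx with rfl | hx
              · exact Or.inr (Or.inr rfl)
              · rcases hp1 x hx with h3 | h3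
                · exact Or.inl h3
                · exact Or.inr (Or.inl h3)
            · simp only [MGraph.Walk.edges, List.mem_cons] at hf
              rcases hf with rfl | hf
              · exact he
              · exact hp2 f hf
      · simp only [gnet, if_neg hv] at ih ⊢
        exact ih

end network

lemma two_le_mult {A : Type*} [DecidableEq A] {n : ℕ} {P : Fin n → Finset A} {a : A} {i j : Fin n}
    (hij : i ≠ j) (hi : a ∈ P i) (hj : a ∈ P j) : 2 ≤ mult P a := by
  unfold mult
  rw [← Finset.card_pair hij]
  apply Finset.card_le_card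
  intro x hx
  rw [Finset.mem_insert, Finset.mem_singleton] at hx
  rw [Finset.mem_filter]
  rcases hx with rfl | rfl
  · exact ⟨Finset.mem_univ _, hi⟩
  · exact ⟨Finset.mem_univ _, hj⟩

lemma one_le_mult {A : Type*} [DecidableEq A] {n : ℕ} {P : Fin n → Finset A} {a : A} {i : Fin n}
    (hi : a ∈ P i) : 1 ≤ mult P a := by
  unfold mult
  rw [Nat.one_le_iff_ne_zero, ← Nat.pos_iff_ne_zero, Finset.card_pos]
  exact ⟨i, by simp [hi]⟩

/-- **The network form implies the graph form.** -/
theorem holds_of_net.{u, v} {k l : ℕ}
    (hnet : NetStatement.{max u v, max u v} (k + 1) (k + l)) : Holds.{u, v} k l := by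
  intro V E _ _ G s t hst hc
  haveI : Fintype V := Fintype.ofFinite V
  haveI : Fintype E := Fintype.ofFinite E
  obtain ⟨P, Q, hP, hQ, hP1, hPQ⟩ := hnet ((V × Bool) ⊕ (E × Bool))
    (V ⊕ (E ⊕ (E × V × Bool × Fin (k + l)))) (gnet G s (k + l))
    (Finset.univ.map Function.Embedding.inl) (.inl (s, true)) (.inl (t, false)) (by
    intro Z h1 h2 h3
    exact gnet_cut hst (fun W F hd hW => conn_bound hst hc _ W F rfl hd hW) Z h1 h2 h3)
  -- all arc sets in one family
  set S : Fin (k + l) → Finset (V ⊕ (E ⊕ (E × V × Bool × Fin (k + l)))) := fun i =>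
    if h : (i : ℕ) < k + 1 then P ⟨i, h⟩ else Q ⟨(i : ℕ) - (k + 1), by omega⟩ with hS
  have hSP : ∀ i : Fin (k + l), (h : (i : ℕ) < k + 1) → S i = P ⟨i, h⟩ := by
    intro i h; simp only [hS, dif_pos h]
  have hSQ : ∀ i : Fin (k + l), (h : ¬ (i : ℕ) < k + 1) → S i = Q ⟨(i : ℕ) - (k + 1), by omega⟩ := by
    intro i h; simp only [hS, dif_neg h]
  have hreach : ∀ i, (gnet G s (k + l)).Reach (S i) (.inl (s, true)) (.inl (t, false)) := by
    intro i
    by_cases h : (i : ℕ) < k + 1
    · rw [hSP i h]; exact (hP _).reach
    · rw [hSQ i h]; exact (hQ _).reach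
  have hord : ∀ i j, i ≠ j → ∀ a, a ∉ Finset.univ.map
      (Function.Embedding.inl : V ↪ V ⊕ (E ⊕ (E × V × Bool × Fin (k + l)))) →
      a ∈ S i → a ∉ S j := by
    intro i j hij a ha hi hj
    have h1 := hPQ a ha
    by_cases h2 : (i : ℕ) < k + 1 <;> by_cases h3 : (j : ℕ) < k + 1
    · rw [hSP i h2] at hi
      rw [hSP j h3] at hj
      have := two_le_mult (P := P) (by
        intro h4
        apply hij
        apply Fin.ext
        simpa using h4) hi hj
      omega
    · rw [hSP i h2] at hi
      rw [hSQ j h3] at hj
      have := one_le_mult hi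
      have := one_le_mult hj
      omega
    · rw [hSQ i h2] at hi
      rw [hSP j h3] at hj
      have := one_le_mult hi
      have := one_le_mult hj
      omega
    · rw [hSQ i h2] at hi
      rw [hSQ j h3] at hj
      have := two_le_mult (P := Q) (by
        intro h4
        apply hij
        apply Fin.ext
        have h5 := congrArg Fin.val h4
        simp only at h5
        omega) hi hj
      omega
  have hwalk : ∀ i, ∃ p : G.Walk s t, p.IsPath ∧
      (∀ x ∈ p.support, .inl x ∈ S i ∨ x = t ∨ x = s) ∧
      (∀ e ∈ p.edges, .inr (.inl e) ∈ S i) := by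
    intro i
    obtain ⟨p, hp1, hp2⟩ := good_of_reach (hreach i)
    obtain ⟨q, hq1, hq2, hq3⟩ := p.exists_path
    exact ⟨q, hq1, fun x hx => hp1 x (hq2 x hx), fun e he => hp2 e (hq3 e he)⟩
  choose R hR1 hR2 hR3 using hwalk
  refine ⟨R, hR1, ?_, ?_⟩
  · intro i j hij e hi hj
    exact hord i j hij (.inr (.inl e)) (by simp) (hR3 i e hi) (hR3 j e hj)
  · intro i j hij hi hj v hvi hvj
    rcases hR2 i v hvi with h1 | h1 | h1
    · rcases hR2 j v hvj with h2 | h2 | h2
      · exfalso
        rw [hSP i hi] at h1
        rw [hSP j hj] at h2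
        have h3 := two_le_mult (P := P) (by
          intro h4
          apply hij
          apply Fin.ext
          simpa using h4) h1 h2
        have h4 := hP1 (.inl v)
        omega
      · exact Or.inr h2
      · exact Or.inl h2
    · exact Or.inr h1
    · exact Or.inl h1

end BeinekeHarary
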