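import Pool.Agent.BH.MinCost

/-!
# Beineke–Harary, network form, for `N = j p + r` with `r < j`  (helper32)

A flow of value `N` minimising the overload `Σ (z a - j)^+` over the special arcs has a support with at
least `p` arcs in every cut.
-/

set_option autoImplicit false

namespace BHNet

variable {V A : Type*} [Fintype V] [DecidableEq V] [Fintype A] [DecidableEq A]

/-- every arc gets a cheap copy `(a, false)` and an expensive copy `(a, true)` -/
def dbl (D : Net V A) : Net V (A × Bool) where
  tl := fun e => D.tl e.1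
  hd := fun e => D.hd e.1

omit [DecidableEq A] in
lemma sum_bool (f : A × Bool → ℤ) : ∑ e, f e = ∑ a, (f (a, false) + f (a, true)) := by
  rw [Fintype.sum_prod_type]
  apply Finset.sum_congr rfl
  intro a _
  rw [Fintype.sum_bool, add_comm]

omit [Fintype V] [DecidableEq A] in
lemma bal_dbl (D : Net V A) (f : A × Bool → ℤ) (v : V) :
    (dbl D).bal f v = D.bal (fun a => f (a, false) + f (a, true)) v := by
  unfold Net.bal
  rw [sum_bool]
  apply Finset.sum_congr rfl
  intro a _
  by_cases h1 : D.hd a = v <;> by_cases h2 : D.tl a = v <;> simp [dbl, h1, h2]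
  ring

/-- the balances of an `s`-`t` flow of value `N` -/
def stb (s t : V) (N : ℤ) (v : V) : ℤ := (if v = t then N else 0) - (if v = s then N else 0)

omit [Fintype V] in
lemma sum_stb (s t : V) (N : ℤ) (Z : Finset V) :
    ∑ v ∈ Z, stb s t N v = (if t ∈ Z then N else 0) - (if s ∈ Z then N else 0) := by
  unfold stb
  rw [Finset.sum_sub_distrib]
  simp

/-- the level structure of a flow of value `N` with minimal overload -/
structure Lev (D : Net V A) (Sp : Finset A) (s t : V) (N j : ℕ) (z : A → ℕ) (l : ℕ)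
    (lam : V → ℕ) : Prop where
  bal : ∀ v, D.bal (fun a => (z a : ℤ)) v = stb s t N v
  lams : lam s = 0
  lamt : lam t = l
  lamle : ∀ v, lam v ≤ l
  mono : ∀ a, 1 ≤ z a → lam (D.tl a) ≤ lam (D.hd a)
  ord_le : ∀ a, a ∉ Sp → z a ≤ 1
  ord_zero : ∀ a, a ∉ Sp → z a = 0 → lam (D.hd a) ≤ lam (D.tl a)
  sp_le : ∀ a, a ∈ Sp → lam (D.hd a) ≤ lam (D.tl a) + 1
  sp_ent : ∀ a, a ∈ Sp → lam (D.tl a) < lam (D.hd a) → j ≤ z a
  sp_over : ∀ a, a ∈ Sp → j < z a → lam (D.hd a) = lam (D.tl a) + 1
  lev : ∀ m, 1 ≤ m → m ≤ l → ∃ a ∈ Sp, j < z a ∧ lam (D.hd a) = m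

/-- in a set of `l` integers every count `1 ≤ m ≤ l` is the number of elements below a member -/
lemma exists_rank (M : Finset ℤ) (m : ℕ) (h1 : 1 ≤ m) (h2 : m ≤ M.card) :
    ∃ x ∈ M, (M.filter (· ≤ x)).card = m := by
  have hne : (M.filter (fun x => m ≤ (M.filter (· ≤ x)).card)).Nonempty := by
    have hM : M.Nonempty := by
      rw [← Finset.card_pos]; omega
    refine ⟨M.max' hM, ?_⟩
    rw [Finset.mem_filter]
    refine ⟨M.max'_mem hM, ?_⟩
    rw [Finset.filter_true_of_mem (fun y hy => M.le_max' y hy)]
    exact h2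
  set K := M.filter (fun x => m ≤ (M.filter (· ≤ x)).card) with hK
  set x := K.min' hne with hx
  have hxK : x ∈ K := K.min'_mem hne
  rw [hK, Finset.mem_filter] at hxK
  refine ⟨x, hxK.1, le_antisymm ?_ hxK.2⟩
  by_contra hcon
  push Not at hcon
  -- then M.filter (< x) has at least m elements
  have h3 : M.filter (· ≤ x) = insert x (M.filter (· < x)) := by
    ext y
    simp only [Finset.mem_filter, Finset.mem_insert]
    constructor
    · rintro ⟨hy1, hy2⟩
      rcases eq_or_lt_of_le hy2 with h | h
      · exact Or.inl h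
      · exact Or.inr ⟨hy1, h⟩
    · rintro (h | ⟨hy1, hy2⟩)
      · subst h; exact ⟨hxK.1, le_rfl⟩
      · exact ⟨hy1, hy2.le⟩
  rw [h3, Finset.card_insert_of_notMem (by simp)] at hcon
  have hne2 : (M.filter (· < x)).Nonempty := by
    rw [← Finset.card_pos]; omega
  set y := (M.filter (· < x)).max' hne2 with hy
  have hyM : y ∈ M.filter (· < x) := Finset.max'_mem _ hne2
  rw [Finset.mem_filter] at hyM
  have h4 : M.filter (· < x) ⊆ M.filter (· ≤ y) := by
    intro w hw
    have h5 := Finset.le_max' _ w hw
    rw [Finset.mem_filter] at hw ⊢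
    exact ⟨hw.1, h5⟩
  have h5 := Finset.card_le_card h4
  have hyK : y ∈ K := by
    rw [hK, Finset.mem_filter]
    exact ⟨hyM.1, by omega⟩
  have := K.min'_le y hyK
  have h6 := hyM.2
  omega

theorem exists_levels (D : Net V A) (Sp : Finset A) (s t : V) (N j : ℕ)
    (H0 : ∀ Z : Finset V, t ∈ Z → s ∉ Z → (D.ent Sp Z).card = 0 → N ≤ (D.ent Spᶜ Z).card) :
    ∃ (z : A → ℕ) (l : ℕ) (lam : V → ℕ), Lev D Sp s t N j z l lam := by
  set u : A × Bool → ℕ := fun e => if e.2 then (if e.1 ∈ Sp then N + 1 else 0)
    else (if e.1 ∈ Sp then j else 1) with hu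
  set c : A × Bool → ℤ := fun e => if e.2 then 1 else 0 with hc
  obtain ⟨z', hz1, hz2, π, hπ⟩ := mincost (dbl D) (stb s t (N : ℤ))
    (by rw [sum_stb]; simp) u c (by
      intro Z
      have hnn : 0 ≤ (dbl D).cap u Z := by
        unfold Net.cap
        apply Finset.sum_nonneg
        intro e _
        split_ifs
        · exact Int.natCast_nonneg _
        · exact le_rfl
      rw [sum_stb]
      by_cases ht : t ∈ Z <;> by_cases hs : s ∈ Z
      · rw [if_pos ht, if_pos hs]; omega
      · rw [if_pos ht, if_neg hs]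
        by_cases h0 : (D.ent Sp Z).card = 0
        · have h1 := H0 Z ht hs h0
          have h2 : ((D.ent Spᶜ Z).card : ℤ) ≤ (dbl D).cap u Z := by
            unfold Net.cap
            rw [sum_bool]
            rw [Net.ent, Finset.card_filter]
            push_cast
            rw [← Finset.sum_subset (Finset.subset_univ Spᶜ)]
            · apply Finset.sum_le_sum
              intro a ha
              rw [Finset.mem_compl] at ha
              by_cases h3 : D.tl a ∉ Z ∧ D.hd a ∈ Z
              · simp [dbl, hu, ha, h3]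
              · simp [dbl, h3]
            · intro a _ ha
              rw [Finset.mem_compl, not_not] at ha
              rw [Finset.card_eq_zero] at h0
              have h3 : ¬ (D.tl a ∉ Z ∧ D.hd a ∈ Z) := by
                intro h4
                have : a ∈ D.ent Sp Z := Net.mem_ent.mpr ⟨ha, h4⟩
                rw [h0] at this
                simp at this
              simp [dbl, h3]
          omega
        · obtain ⟨a, ha⟩ := Finset.card_pos.mp (Nat.pos_of_ne_zero h0)
          rw [Net.mem_ent] at ha
          have h2 : ((N : ℤ) + 1) ≤ (dbl D).cap u Z := by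
            unfold Net.cap
            refine le_trans ?_ (Finset.single_le_sum (f := fun e => if (dbl D).tl e ∉ Z ∧
              (dbl D).hd e ∈ Z then ((u e : ℕ) : ℤ) else 0) ?_ (Finset.mem_univ (a, true)))
            · simp only [dbl, hu]
              rw [if_pos ha.2]
              simp [ha.1]
            · intro e _
              show 0 ≤ if (dbl D).tl e ∉ Z ∧ (dbl D).hd e ∈ Z then ((u e : ℕ) : ℤ) else 0
              split_ifs
              · exact Int.natCast_nonneg _
              · exact le_rfl
          omega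
      · rw [if_neg ht, if_pos hs]; omega
      · rw [if_neg ht, if_neg hs]; omega)
  set z : A → ℕ := fun a => z' (a, false) + z' (a, true) with hz
  -- basic facts
  have hbal : ∀ v, D.bal (fun a => (z a : ℤ)) v = stb s t N v := by
    intro v
    rw [← hz2 v, bal_dbl]
    congr 1
  have hmono : ∀ a, 1 ≤ z a → π (D.tl a) ≤ π (D.hd a) := by
    intro a ha
    have h1 : 0 < z' (a, false) ∨ 0 < z' (a, true) := by simp only [hz] at ha; omega
    rcases h1 with h1 | h1
    · have := (hπ (a, false)).1 h1
      simp only [dbl, hc] at this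
      simp at this
      omega
    · have := (hπ (a, true)).1 h1
      simp only [dbl, hc] at this
      simp at this
      omega
  have hord : ∀ a, a ∉ Sp → z a ≤ 1 := by
    intro a ha
    have h1 := hz1 (a, false)
    have h2 := hz1 (a, true)
    simp only [hu, ha] at h1 h2
    simp at h1 h2
    simp only [hz]; omega
  have hord0 : ∀ a, a ∉ Sp → z a = 0 → π (D.hd a) ≤ π (D.tl a) := by
    intro a ha h0
    have h1 : z' (a, false) = 0 := by simp only [hz] at h0; omega
    have h2 := (hπ (a, false)).2 (by rw [h1]; simp [hu, ha])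
    simp only [dbl, hc] at h2
    simp at h2
    exact h2
  -- flow through a level
  have hlevflow : ∀ (x : ℤ) (a : A), π (D.tl a) < x → x ≤ π (D.hd a) →
      (z a : ℤ) ≤ (if x ≤ π t then (N : ℤ) else 0) - (if x ≤ π s then (N : ℤ) else 0) := by
    intro x a h1 h2
    have h3 := sum_stb s t (N : ℤ) (Finset.univ.filter (fun v => x ≤ π v))
    simp only [Finset.mem_filter, Finset.mem_univ, true_and] at h3
    rw [← h3, ← Finset.sum_congr rfl (fun v _ => hbal v), D.sum_bal]
    refine le_trans ?_ (Finset.single_le_sum (f := fun e =>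
      (if D.hd e ∈ Finset.univ.filter (fun v => x ≤ π v) then (z e : ℤ) else 0) -
      (if D.tl e ∈ Finset.univ.filter (fun v => x ≤ π v) then (z e : ℤ) else 0)) ?_
      (Finset.mem_univ a))
    · simp only [Finset.mem_filter, Finset.mem_univ, true_and]
      rw [if_pos h2, if_neg (by omega)]; simp
    · intro e _
      simp only [Finset.mem_filter, Finset.mem_univ, true_and]
      by_cases h4 : z e = 0
      · rw [h4]; simp
      · have := hmono e (by omega)
        split_ifs
        · simp
        · simp
        · omega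
        · simp
  have hsp1 : ∀ a, a ∈ Sp → π (D.hd a) ≤ π (D.tl a) + 1 := by
    intro a ha
    by_contra hcon
    push Not at hcon
    have h1 : ¬ z' (a, true) < u (a, true) := by
      intro h2
      have := (hπ (a, true)).2 h2
      simp only [dbl, hc] at this
      simp at this
      omega
    have h2 : u (a, true) = N + 1 := by simp [hu, ha]
    have h3 : N + 1 ≤ z a := by
      have := hz1 (a, true)
      simp only [hz]; omega
    have h4 := hlevflow (π (D.hd a)) a (by omega) le_rfl
    split_ifs at h4 <;> omega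
  have hspent : ∀ a, a ∈ Sp → π (D.tl a) < π (D.hd a) → j ≤ z a := by
    intro a ha h1
    have h2 : ¬ z' (a, false) < u (a, false) := by
      intro h2
      have := (hπ (a, false)).2 h2
      simp only [dbl, hc] at this
      simp at this
      omega
    have h3 : u (a, false) = j := by simp [hu, ha]
    simp only [hz]; omega
  have hspover : ∀ a, a ∈ Sp → j < z a → π (D.hd a) = π (D.tl a) + 1 := by
    intro a ha h1
    have h2 := hz1 (a, false)
    have h3 : u (a, false) = j := by simp [hu, ha]
    have h4 : 0 < z' (a, true) := by simp only [hz] at h1; omega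
    have h5 := (hπ (a, true)).1 h4
    simp only [dbl, hc] at h5
    simp at h5
    have := hsp1 a ha
    omega
  -- the thresholds
  set M : Finset ℤ := (Sp.filter (fun a => j < z a)).image (fun a => π (D.hd a)) with hM
  set lam : V → ℕ := fun v => (M.filter (· ≤ π v)).card with hlam
  have hlmono : ∀ v w, π v ≤ π w → lam v ≤ lam w := by
    intro v w h
    apply Finset.card_le_card
    intro x hx
    rw [Finset.mem_filter] at hx ⊢
    exact ⟨hx.1, hx.2.trans h⟩
  have hMst : ∀ x ∈ M, π s < x ∧ x ≤ π t := by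
    intro x hx
    rw [hM, Finset.mem_image] at hx
    obtain ⟨a, ha, rfl⟩ := hx
    rw [Finset.mem_filter] at ha
    have h1 := hspover a ha.1 ha.2
    have h2 := hlevflow (π (D.hd a)) a (by omega) le_rfl
    have h3 : 0 < z a := by omega
    constructor
    · by_contra h4
      push Not at h4
      rw [if_pos h4] at h2
      split_ifs at h2 <;> omega
    · by_contra h4
      rw [if_neg h4] at h2
      split_ifs at h2 <;> omega
  refine ⟨z, M.card, lam, ⟨hbal, ?_, ?_, ?_, ?_, hord, ?_, ?_, ?_, ?_, ?_⟩⟩
  · simp only [hlam]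
    rw [Finset.card_eq_zero, Finset.filter_eq_empty_iff]
    intro x hx
    have := (hMst x hx).1
    omega
  · simp only [hlam]
    rw [Finset.filter_true_of_mem (fun x hx => (hMst x hx).2)]
  · intro v
    exact Finset.card_filter_le _ _
  · intro a ha
    exact hlmono _ _ (hmono a ha)
  · intro a ha h0
    exact hlmono _ _ (hord0 a ha h0)
  · intro a ha
    have h1 := hsp1 a ha
    have h2 : M.filter (· ≤ π (D.hd a)) ⊆ insert (π (D.hd a)) (M.filter (· ≤ π (D.tl a))) := by
      intro x hx
      rw [Finset.mem_filter] at hx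
      rw [Finset.mem_insert, Finset.mem_filter]
      by_cases h3 : x = π (D.hd a)
      · exact Or.inl h3
      · exact Or.inr ⟨hx.1, by have := hx.2; omega⟩
    exact (Finset.card_le_card h2).trans (Finset.card_insert_le _ _)
  · intro a ha h1
    apply hspent a ha
    by_contra h2
    push Not at h2
    have := hlmono _ _ h2
    omega
  · intro a ha h1
    have h2 := hspover a ha h1
    have hmem : π (D.hd a) ∈ M := by
      rw [hM, Finset.mem_image]
      exact ⟨a, Finset.mem_filter.mpr ⟨ha, h1⟩, rfl⟩
    have h3 : M.filter (· ≤ π (D.hd a)) = insert (π (D.hd a)) (M.filter (· ≤ π (D.tl a))) := by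
      ext x
      rw [Finset.mem_filter, Finset.mem_insert, Finset.mem_filter]
      constructor
      · rintro ⟨h4, h5⟩
        by_cases h6 : x = π (D.hd a)
        · exact Or.inl h6
        · exact Or.inr ⟨h4, by omega⟩
      · rintro (h4 | ⟨h4, h5⟩)
        · subst h4; exact ⟨hmem, le_rfl⟩
        · exact ⟨h4, by omega⟩
    simp only [hlam]
    rw [h3, Finset.card_insert_of_notMem]
    rw [Finset.mem_filter]
    rintro ⟨-, h4⟩
    omega
  · intro m h1 h2
    obtain ⟨x, hx, hcard⟩ := exists_rank M m h1 h2
    rw [hM, Finset.mem_image] at hx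
    obtain ⟨a, ha, rfl⟩ := hx
    rw [Finset.mem_filter] at ha
    exact ⟨a, ha.1, ha.2, hcard⟩

omit [DecidableEq V] [DecidableEq A] in
lemma card_lev (x y n : ℕ) (hn : y ≤ n) :
    (∑ i ∈ Finset.range n, if x ≤ i ∧ i < y then 1 else 0) = y - x := by
  rw [← Finset.card_filter, ← Nat.card_Ico]
  congr 1
  ext i
  simp only [Finset.mem_filter, Finset.mem_range, Finset.mem_Ico]
  constructor
  · rintro ⟨-, h⟩; exact h
  · intro h; exact ⟨by omega, h⟩

omit [Fintype A] [DecidableEq A] in
lemma sum_ent_card (D : Net V A) (F : Finset A) (h : V → ℕ) (n : ℕ) (hn : ∀ v, h v ≤ n) :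
    ∑ i ∈ Finset.range n, (D.ent F (Finset.univ.filter (fun v => i < h v))).card
      = ∑ a ∈ F, (h (D.hd a) - h (D.tl a)) := by
  simp_rw [Net.ent, Finset.card_filter]
  rw [Finset.sum_comm]
  apply Finset.sum_congr rfl
  intro a _
  rw [← card_lev (h (D.tl a)) (h (D.hd a)) n (hn _)]
  apply Finset.sum_congr rfl
  intro i _
  simp only [Finset.mem_filter, Finset.mem_univ, true_and, not_lt]

/-- the numerical heart: the number of used arcs through one piece -/
lemma piece_num {p j r α β A' O w w' f f' : ℕ} (hrj : r < j) (h1 : j * p + r ≤ α + j * β + O)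
    (h2 : O ≤ w + w') (h3 : A' ≤ f + f') (h4 : f + w ≤ r) (h5 : f' + w' ≤ r) (h6 : A' ≤ α) :
    p + A' ≤ α + β := by
  by_contra hcon
  push Not at hcon
  obtain ⟨i, rfl⟩ : ∃ i, j = i + 1 := ⟨j - 1, by omega⟩
  have h7 : i * A' ≤ i * α := Nat.mul_le_mul_left _ h6
  have h8 : (i + 1) * (α + β + 1) ≤ (i + 1) * (p + A') := Nat.mul_le_mul_left _ hcon
  have h9 : (i + 1) * (α + β + 1) = i * α + α + (i + 1) * β + i + 1 := by ring
  have h10 : (i + 1) * (p + A') = (i + 1) * p + i * A' + A' := by ring
  omega

theorem cut_support (D : Net V A) (Sp : Finset A) (s t : V) (p j r : ℕ) (hrj : r < j)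
    (H : ∀ Z : Finset V, t ∈ Z → s ∉ Z → (D.ent Sp Z).card < p →
      j * p + r ≤ (D.ent Spᶜ Z).card + j * (D.ent Sp Z).card)
    {z : A → ℕ} {l : ℕ} {lam : V → ℕ} (hL : Lev D Sp s t (j * p + r) j z l lam)
    (Z : Finset V) (ht : t ∈ Z) (hs : s ∉ Z) :
    p ≤ (D.ent (Finset.univ.filter (fun a => 1 ≤ z a)) Z).card := by
  set U : Finset A := Finset.univ.filter (fun a => 1 ≤ z a) with hU
  have hmU : ∀ a, a ∈ U ↔ 1 ≤ z a := by intro a; simp [hU]
  set h : V → ℕ := fun v => lam v + if v ∈ Z then 1 else 0 with hh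
  have hhle : ∀ v, h v ≤ l + 1 := by
    intro v
    have := hL.lamle v
    simp only [hh]
    split_ifs <;> omega
  have hlamh : ∀ v, lam v ≤ h v := by intro v; simp only [hh]; omega
  have hhlam : ∀ v, h v ≤ lam v + 1 := by intro v; simp only [hh]; split_ifs <;> omega
  -- quantities at the thresholds
  set fN : ℕ → ℕ := fun m => ∑ a ∈ Spᶜ, if lam (D.tl a) < m ∧ m ≤ lam (D.hd a) then 1 else 0 with hf
  set wN : ℕ → ℕ := fun m => ∑ a ∈ Sp,
    if lam (D.tl a) < m ∧ m ≤ lam (D.hd a) then z a - j else 0 with hw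
  -- flow across sets
  have hflow : ∀ X : Finset V, ∑ a, ((if D.hd a ∈ X then (z a : ℤ) else 0) -
      (if D.tl a ∈ X then (z a : ℤ) else 0)) =
      (if t ∈ X then ((j * p + r : ℕ) : ℤ) else 0) - (if s ∈ X then ((j * p + r : ℕ) : ℤ) else 0) := by
    intro X
    rw [← sum_stb, ← D.sum_bal]
    exact Finset.sum_congr rfl (fun v _ => hL.bal v)
  -- the level cuts
  have hlevel : ∀ m, 1 ≤ m → m ≤ l → fN m + wN m = r ∧
      (D.ent U (Finset.univ.filter (fun v => m - 1 < lam v))).card = p + fN m := by
    intro m h1 h2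
    set X : Finset V := Finset.univ.filter (fun v => m - 1 < lam v) with hX
    have hmX : ∀ v, v ∈ X ↔ m ≤ lam v := by
      intro v
      simp only [hX, Finset.mem_filter, Finset.mem_univ, true_and]
      omega
    have htX : t ∈ X := by rw [hmX, hL.lamt]; exact h2
    have hsX : s ∉ X := by rw [hmX, hL.lams]; omega
    have h3 := hflow X
    rw [if_pos htX, if_neg hsX, sub_zero] at h3
    have h4 : ∑ a, ((if D.hd a ∈ X then (z a : ℤ) else 0) -
        (if D.tl a ∈ X then (z a : ℤ) else 0)) =
        ∑ a, (if D.tl a ∉ X ∧ D.hd a ∈ X then (z a : ℤ) else 0) := by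
      apply Finset.sum_congr rfl
      intro a _
      by_cases h5 : D.hd a ∈ X <;> by_cases h6 : D.tl a ∈ X
      · simp [h5, h6]
      · simp [h5, h6]
      · have h7 : z a = 0 := by
          by_contra h8
          have h9 := hL.mono a (by omega)
          rw [hmX] at h5 h6
          omega
        simp [h7]
      · simp [h5, h6]
    rw [h4] at h3
    have h5 : ∑ a, (if D.tl a ∉ X ∧ D.hd a ∈ X then z a else 0) = j * p + r := by
      zify
      rw [← Nat.cast_mul, ← Nat.cast_add, ← h3]
    have hfN : fN m = (D.ent Spᶜ X).card := by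
      simp only [hf, Net.ent]
      rw [Finset.card_filter]
      apply Finset.sum_congr rfl
      intro a _
      simp only [hmX, not_le]
    have h6 : ∑ a ∈ Spᶜ, (if D.tl a ∉ X ∧ D.hd a ∈ X then z a else 0) = fN m := by
      rw [hfN, Net.ent, Finset.card_filter]
      apply Finset.sum_congr rfl
      intro a ha
      rw [Finset.mem_compl] at ha
      by_cases h7 : D.tl a ∉ X ∧ D.hd a ∈ X
      · rw [if_pos h7, if_pos h7]
        have h8 := hL.ord_le a ha
        have h9 : z a ≠ 0 := by
          intro h9
          have := hL.ord_zero a ha h9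
          rw [hmX, hmX] at h7
          omega
        omega
      · rw [if_neg h7, if_neg h7]
    have h7 : ∑ a ∈ Sp, (if D.tl a ∉ X ∧ D.hd a ∈ X then z a else 0) =
        j * (D.ent Sp X).card + wN m := by
      rw [Net.ent, Finset.card_filter, Finset.mul_sum, ← Finset.sum_add_distrib]
      apply Finset.sum_congr rfl
      intro a ha
      by_cases h8 : D.tl a ∉ X ∧ D.hd a ∈ X
      · have h9 : lam (D.tl a) < m ∧ m ≤ lam (D.hd a) := by
          rw [hmX, hmX, not_le] at h8; exact h8
        rw [if_pos h8, if_pos h8, if_pos h9]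
        have := hL.sp_ent a ha (by omega)
        omega
      · have h9 : ¬ (lam (D.tl a) < m ∧ m ≤ lam (D.hd a)) := by
          rw [hmX, hmX, not_le] at h8; exact h8
        rw [if_neg h8, if_neg h8, if_neg h9, Nat.mul_zero]
    have h8 : ∑ a ∈ Sp, (if D.tl a ∉ X ∧ D.hd a ∈ X then z a else 0) +
        ∑ a ∈ Spᶜ, (if D.tl a ∉ X ∧ D.hd a ∈ X then z a else 0) = j * p + r := by
      rw [← h5]; exact Finset.sum_add_sum_compl _ _
    rw [h6, h7] at h8
    have h9 : 1 ≤ wN m := by
      obtain ⟨a, ha, ha1, ha2⟩ := hL.lev m h1 h2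
      have h10 := hL.sp_over a ha ha1
      refine le_trans ?_ (Finset.single_le_sum (f := fun a => if lam (D.tl a) < m ∧
        m ≤ lam (D.hd a) then z a - j else 0) (fun _ _ => Nat.zero_le _) ha)
      show 1 ≤ if lam (D.tl a) < m ∧ m ≤ lam (D.hd a) then z a - j else 0
      rw [if_pos ⟨by omega, by omega⟩]
      omega
    have h10 : p ≤ (D.ent Sp X).card := by
      by_contra h11
      have := H X htX hsX (by omega)
      rw [← hfN] at this
      omega
    have h11 : (D.ent Sp X).card ≤ p := by
      by_contra h12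
      have h13 : j * (p + 1) ≤ j * (D.ent Sp X).card := Nat.mul_le_mul_left _ (by omega)
      rw [Nat.mul_add, Nat.mul_one] at h13
      omega
    have h12 : (D.ent Sp X).card = p := le_antisymm h11 h10
    rw [h12] at h8
    refine ⟨by omega, ?_⟩
    -- all entering arcs are used
    have h13 : (D.ent U X) = D.ent Sp X ∪ D.ent Spᶜ X := by
      ext a
      rw [Finset.mem_union, Net.mem_ent, Net.mem_ent, Net.mem_ent, hmU, Finset.mem_compl]
      constructor
      · rintro ⟨-, h14⟩
        by_cases ha : a ∈ Sp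
        · exact Or.inl ⟨ha, h14⟩
        · exact Or.inr ⟨ha, h14⟩
      · rintro (⟨ha, h14⟩ | ⟨ha, h14⟩)
        · refine ⟨?_, h14⟩
          rw [hmX, hmX] at h14
          have := hL.sp_ent a ha (by omega)
          omega
        · refine ⟨?_, h14⟩
          by_contra h15
          have := hL.ord_zero a ha (by omega)
          rw [hmX, hmX] at h14
          omega
    have h14 : Disjoint (D.ent Sp X) (D.ent Spᶜ X) := by
      rw [Finset.disjoint_left]
      intro a h15 h16
      rw [Net.mem_ent] at h15 h16
      exact (Finset.mem_compl.mp h16.1) h15.1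
    rw [h13, Finset.card_union_of_disjoint h14, h12, hfN]
  have hlevel' : ∀ m, fN m + wN m ≤ r := by
    intro m
    by_cases h1 : 1 ≤ m ∧ m ≤ l
    · exact (hlevel m h1.1 h1.2).1.le
    · have h2 : fN m = 0 := by
        simp only [hf]
        apply Finset.sum_eq_zero
        intro a _
        rw [if_neg]
        have := hL.lamle (D.hd a)
        omega
      have h3 : wN m = 0 := by
        simp only [hw]
        apply Finset.sum_eq_zero
        intro a _
        rw [if_neg]
        have := hL.lamle (D.hd a)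
        omega
      omega
  -- the ordinary arcs entering a level
  set O1 : Finset A := Spᶜ.filter (fun a => lam (D.tl a) < lam (D.hd a)) with hO1
  have hmO : ∀ a, a ∈ O1 ↔ a ∉ Sp ∧ lam (D.tl a) < lam (D.hd a) := by intro a; simp [hO1]
  have hOU : O1 ⊆ U := by
    intro a ha
    rw [hmO] at ha
    rw [hmU]
    by_contra h1
    have := hL.ord_zero a ha.1 (by omega)
    omega
  -- the pieces
  have hpiece : ∀ i, i ≤ l → p + (D.ent O1 (Finset.univ.filter (fun v => i < h v))).card ≤
      (D.ent U (Finset.univ.filter (fun v => i < h v))).card := by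
    intro i hi
    set X : Finset V := Finset.univ.filter (fun v => i < h v) with hX
    have hmX : ∀ v, v ∈ X ↔ i < h v := by intro v; simp [hX]
    have htX : t ∈ X := by
      rw [hmX]; simp only [hh]; rw [if_pos ht, hL.lamt]; omega
    have hsX : s ∉ X := by
      rw [hmX]; simp only [hh]; rw [if_neg hs, hL.lams]; omega
    have h3 := hflow X
    rw [if_pos htX, if_neg hsX, sub_zero] at h3
    have h5 : j * p + r ≤ ∑ a, (if D.tl a ∉ X ∧ D.hd a ∈ X then z a else 0) := by
      zify
      rw [← Nat.cast_mul, ← Nat.cast_add, ← h3]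
      apply Finset.sum_le_sum
      intro a _
      by_cases h6 : D.hd a ∈ X <;> by_cases h7 : D.tl a ∈ X <;> simp [h6, h7]
    rw [← Finset.sum_add_sum_compl Sp] at h5
    have h6 : ∑ a ∈ Spᶜ, (if D.tl a ∉ X ∧ D.hd a ∈ X then z a else 0) ≤
        (D.ent (U ∩ Spᶜ) X).card := by
      rw [Net.ent, Finset.card_filter, Finset.inter_comm, ← Finset.filter_mem_eq_inter,
        Finset.sum_filter]
      apply Finset.sum_le_sum
      intro a ha
      rw [Finset.mem_compl] at ha
      have h8 := hL.ord_le a ha
      by_cases h9 : D.tl a ∉ X ∧ D.hd a ∈ X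
      · rw [if_pos h9, if_pos h9]
        by_cases h10 : z a = 0
        · rw [h10]; exact Nat.zero_le _
        · rw [if_pos (by rw [hmU]; omega)]; exact h8
      · rw [if_neg h9]; exact Nat.zero_le _
    have h7 : ∑ a ∈ Sp, (if D.tl a ∉ X ∧ D.hd a ∈ X then z a else 0) ≤
        j * (D.ent (U ∩ Sp) X).card +
          ∑ a ∈ Sp, (if D.tl a ∉ X ∧ D.hd a ∈ X then z a - j else 0) := by
      rw [Net.ent, Finset.card_filter, Finset.inter_comm, ← Finset.filter_mem_eq_inter,
        Finset.sum_filter, Finset.mul_sum, ← Finset.sum_add_distrib]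
      apply Finset.sum_le_sum
      intro a ha
      by_cases h9 : D.tl a ∉ X ∧ D.hd a ∈ X
      · rw [if_pos h9, if_pos h9, if_pos h9]
        by_cases h10 : z a = 0
        · rw [h10]; exact Nat.zero_le _
        · rw [if_pos (by rw [hmU]; omega)]; omega
      · rw [if_neg h9]; exact Nat.zero_le _
    have h8 : ∑ a ∈ Sp, (if D.tl a ∉ X ∧ D.hd a ∈ X then z a - j else 0) ≤ wN i + wN (i + 1) := by
      simp only [hw]
      rw [← Finset.sum_add_distrib]
      apply Finset.sum_le_sum
      intro a ha
      by_cases h9 : D.tl a ∉ X ∧ D.hd a ∈ X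
      · rw [if_pos h9]
        by_cases h10 : j < z a
        · have h11 := hL.sp_over a ha h10
          rw [hmX, hmX] at h9
          have h12 := hlamh (D.tl a)
          have h13 := hhlam (D.hd a)
          by_cases h14 : lam (D.tl a) < i
          · rw [if_pos ⟨h14, by omega⟩]; omega
          · rw [if_pos (show lam (D.tl a) < i + 1 ∧ i + 1 ≤ lam (D.hd a) from ⟨by omega, by omega⟩)]
            omega
        · omega
      · rw [if_neg h9]; exact Nat.zero_le _
    have h9 : (D.ent O1 X).card ≤ fN i + fN (i + 1) := by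
      simp only [hf]
      rw [← Finset.sum_add_distrib, Net.ent, Finset.card_filter, hO1, Finset.sum_filter]
      apply Finset.sum_le_sum
      intro a ha
      by_cases h10 : lam (D.tl a) < lam (D.hd a)
      · rw [if_pos h10]
        by_cases h11 : D.tl a ∉ X ∧ D.hd a ∈ X
        · rw [if_pos h11]
          rw [hmX, hmX] at h11
          have h12 := hlamh (D.tl a)
          have h13 := hhlam (D.hd a)
          by_cases h14 : lam (D.tl a) < i
          · rw [if_pos ⟨h14, by omega⟩]; omega
          · rw [if_pos (show lam (D.tl a) < i + 1 ∧ i + 1 ≤ lam (D.hd a) from ⟨by omega, by omega⟩)]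
            omega
        · rw [if_neg h11]; exact Nat.zero_le _
      · rw [if_neg h10]; exact Nat.zero_le _
    have h10 : (D.ent O1 X).card ≤ (D.ent (U ∩ Spᶜ) X).card := by
      apply D.ent_mono
      intro a ha
      rw [Finset.mem_inter, Finset.mem_compl]
      exact ⟨hOU ha, ((hmO a).mp ha).1⟩
    have h11 : (D.ent U X).card = (D.ent (U ∩ Spᶜ) X).card + (D.ent (U ∩ Sp) X).card := by
      rw [← Finset.card_union_of_disjoint]
      · congr 1
        ext a
        simp only [Finset.mem_union, Net.mem_ent, Finset.mem_inter, Finset.mem_compl]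
        tauto
      · rw [Finset.disjoint_left]
        intro a h12 h13
        rw [Net.mem_ent, Finset.mem_inter] at h12 h13
        exact (Finset.mem_compl.mp h12.1.2) h13.1.2
    rw [h11]
    exact piece_num hrj (by omega) h8 h9 (hlevel' i) (hlevel' (i + 1)) h10
  -- summation
  have e1 := sum_ent_card D U h (l + 1) hhle
  have e2 := sum_ent_card D O1 h (l + 1) hhle
  have e3 := sum_ent_card D U lam l hL.lamle
  have e4 := sum_ent_card D O1 lam l hL.lamle
  have e5 : ∑ i ∈ Finset.range (l + 1), (p + (D.ent O1 (Finset.univ.filter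
      (fun v => i < h v))).card) ≤ ∑ i ∈ Finset.range (l + 1),
      (D.ent U (Finset.univ.filter (fun v => i < h v))).card := by
    apply Finset.sum_le_sum
    intro i hi
    rw [Finset.mem_range] at hi
    exact hpiece i (by omega)
  rw [Finset.sum_add_distrib, Finset.sum_const, Finset.card_range, smul_eq_mul, e1, e2] at e5
  have e6 : ∑ i ∈ Finset.range l, (D.ent U (Finset.univ.filter (fun v => i < lam v))).card =
      ∑ i ∈ Finset.range l, (p + (D.ent O1 (Finset.univ.filter (fun v => i < lam v))).card) := by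
    apply Finset.sum_congr rfl
    intro i hi
    rw [Finset.mem_range] at hi
    have h1 := (hlevel (i + 1) (by omega) (by omega)).2
    rw [Nat.add_sub_cancel] at h1
    rw [h1]
    congr 1
    simp only [hf]
    rw [Net.ent, Finset.card_filter, hO1, Finset.sum_filter]
    apply Finset.sum_congr rfl
    intro a _
    simp only [Finset.mem_filter, Finset.mem_univ, true_and, not_lt]
    by_cases h2 : lam (D.tl a) < i + 1 ∧ i + 1 ≤ lam (D.hd a)
    · rw [if_pos h2, if_pos (by omega), if_pos ⟨by omega, by omega⟩]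
    · rw [if_neg h2]
      split_ifs with h3 h4
      · exact absurd ⟨by omega, by omega⟩ h2
      · rfl
      · rfl
  rw [Finset.sum_add_distrib, Finset.sum_const, Finset.card_range, smul_eq_mul, e3, e4] at e6
  have e7 : ∑ a ∈ U, (h (D.hd a) - h (D.tl a)) +
      (U.filter (fun a => (D.tl a ∈ Z ∧ D.hd a ∉ Z) ∧ lam (D.tl a) < lam (D.hd a))).card ≤
      ∑ a ∈ U, (lam (D.hd a) - lam (D.tl a)) + (D.ent U Z).card := by
    rw [Net.ent, Finset.card_filter, Finset.card_filter, ← Finset.sum_add_distrib,
      ← Finset.sum_add_distrib]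
    apply Finset.sum_le_sum
    intro a ha
    have h1 := hL.mono a ((hmU a).mp ha)
    simp only [hh]
    by_cases h2 : D.hd a ∈ Z <;> by_cases h3 : D.tl a ∈ Z <;>
      by_cases h4 : lam (D.tl a) < lam (D.hd a) <;> simp [h2, h3, h4] <;> omega
  have e8 : ∑ a ∈ O1, (lam (D.hd a) - lam (D.tl a)) ≤ ∑ a ∈ O1, (h (D.hd a) - h (D.tl a)) +
      (O1.filter (fun a => D.tl a ∈ Z ∧ D.hd a ∉ Z)).card := by
    rw [Finset.card_filter, ← Finset.sum_add_distrib]
    apply Finset.sum_le_sum
    intro a ha
    have h1 := ((hmO a).mp ha).2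
    simp only [hh]
    by_cases h2 : D.hd a ∈ Z <;> by_cases h3 : D.tl a ∈ Z <;> simp [h2, h3] <;> omega
  have e9 : (O1.filter (fun a => D.tl a ∈ Z ∧ D.hd a ∉ Z)).card ≤
      (U.filter (fun a => (D.tl a ∈ Z ∧ D.hd a ∉ Z) ∧ lam (D.tl a) < lam (D.hd a))).card := by
    apply Finset.card_le_card
    intro a ha
    rw [Finset.mem_filter] at ha ⊢
    exact ⟨hOU ha.1, ha.2, ((hmO a).mp ha.1).2⟩
  rw [Nat.add_mul, Nat.one_mul] at e5
  omega

/-- **Theorem A** (network form of Beineke–Harary for `N = j p + r`, `r < j`). -/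
theorem net_thmA (D : Net V A) (Sp : Finset A) (s t : V) (p j r : ℕ) (hp : 1 ≤ p)
    (hrj : r < j)
    (H : ∀ Z : Finset V, t ∈ Z → s ∉ Z → (D.ent Sp Z).card < p →
      j * p + r ≤ (D.ent Spᶜ Z).card + j * (D.ent Sp Z).card) :
    ∃ (P : Fin p → Finset A) (Q : Fin (j * p + r - p) → Finset A),
      (∀ i, D.IsPath t (P i) s) ∧ (∀ i, D.IsPath t (Q i) s) ∧
      (∀ a, mult P a ≤ 1) ∧ (∀ a ∉ Sp, mult P a + mult Q a ≤ 1) := by
  obtain ⟨z, l, lam, hL⟩ := exists_levels D Sp s t (j * p + r) j (by
    intro Z ht hs h0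
    have := H Z ht hs (by omega)
    rw [h0] at this
    simpa using this)
  obtain ⟨P, Q, h1, h2, h3, h4⟩ := split_flow D s t p (j * p + r) z (by
    intro Z ht hs
    have h1 : ∑ v ∈ Z, D.bal (fun a => (z a : ℤ)) v = ((j * p + r : ℕ) : ℤ) := by
      rw [Finset.sum_congr rfl (fun v _ => hL.bal v), sum_stb, if_pos ht, if_neg hs, sub_zero]
    rw [D.sum_bal] at h1
    unfold inn outt
    zify
    rw [Net.ent, Net.out, Finset.sum_filter, Finset.sum_filter]
    push_cast at h1
    rw [← sub_eq_iff_eq_add', ← h1, ← Finset.sum_sub_distrib]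
    apply Finset.sum_congr rfl
    intro a _
    by_cases h2 : D.hd a ∈ Z <;> by_cases h3 : D.tl a ∈ Z <;> simp [h2, h3]) (by
    intro Z ht hs
    have h1 := cut_support D Sp s t p j r hrj H hL Z ht hs
    refine h1.trans (Finset.card_le_card ?_)
    intro a ha
    rw [Net.mem_ent, Finset.mem_filter] at ha
    rw [Finset.mem_filter, Net.mem_ent]
    exact ⟨⟨Finset.mem_univ _, ha.2⟩, ha.1.2⟩)
  refine ⟨P, Q, h1, h2, h3, ?_⟩
  intro a ha
  exact (h4 a).trans (hL.ord_le a ha)

end BHNet
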