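import Pool.Agent.BH.Chain
import Pool.Agent.BH.ThmA
import Pool.Agent.BH.Graph

/-!
The network theorem for all `p ≥ 1` and `q`, and the graph form for all `(k, l)`, `l ≥ 1`.
-/

set_option autoImplicit false
set_option linter.unusedSectionVars false

namespace BHNet

open Classical

section
variable {V A : Type*} [Fintype V] [DecidableEq V] [Fintype A] [DecidableEq A]

/-- a state: `g` of value `p`, at most one on every arc, `h` of value `q'`, together at most one on
every ordinary arc -/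
structure Sta (D : Net V A) (Sp : Finset A) (s t : V) (p q' : ℕ) (g h : A → ℕ) : Prop where
  fg : ∀ v, v ≠ s → nb D g v = if v = t then (p : ℤ) else 0
  fh : ∀ v, v ≠ s → nb D h v = if v = t then (q' : ℤ) else 0
  g1 : ∀ a, g a ≤ 1
  gh : ∀ a, a ∉ Sp → g a + h a ≤ 1

/-- an ordinary arc of `g` enters `Y` -/
def F8 (D : Net V A) (Sp : Finset A) (g : A → ℕ) (Y : Finset V) : Prop :=
  Y = ∅ ∨ ∃ e, e ∉ Sp ∧ 1 ≤ g e ∧ D.tl e ∉ Y ∧ D.hd e ∈ Y

/-- reachable set -/
noncomputable def Rch (R : V → V → Prop) (x : V) : Finset V :=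
  Finset.univ.filter fun y => Relation.ReflTransGen R x y

lemma mem_Rch {R : V → V → Prop} {x y : V} : y ∈ Rch R x ↔ Relation.ReflTransGen R x y := by
  unfold Rch
  rw [Finset.mem_filter]
  exact ⟨fun h => h.2, fun h => ⟨Finset.mem_univ _, h⟩⟩

variable {D : Net V A} {Sp : Finset A} {s t : V} {p q q' : ℕ} {g h : A → ℕ}

lemma exists_in {f : A → ℕ} {Z : Finset V} (h1 : 1 ≤ inn D f Z) :
    ∃ a, 1 ≤ f a ∧ D.tl a ∉ Z ∧ D.hd a ∈ Z := by
  by_contra hcon
  have : inn D f Z = 0 := by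
    unfold inn
    apply Finset.sum_eq_zero
    intro a ha
    rw [Net.mem_ent] at ha
    by_contra h2
    exact hcon ⟨a, by omega, ha.2.1, ha.2.2⟩
  omega

lemma le_outt {f : A → ℕ} {Z : Finset V} {a : A} (h1 : 1 ≤ f a) (h2 : D.tl a ∈ Z)
    (h3 : D.hd a ∉ Z) : 1 ≤ outt D f Z := by
  unfold outt
  exact h1.trans (Finset.single_le_sum (f := f) (fun _ _ => Nat.zero_le _)
    (Net.mem_out.2 ⟨Finset.mem_univ a, h2, h3⟩))

lemma outt_zero {f : A → ℕ} {Z : Finset V} (hf : ∀ a, 1 ≤ f a → D.tl a ∈ Z → D.hd a ∈ Z) :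
    outt D f Z = 0 := by
  unfold outt
  apply Finset.sum_eq_zero
  intro a ha
  rw [Net.mem_out] at ha
  by_contra h2
  exact ha.2.2 (hf a (by omega) ha.2.1)

lemma enter_of_leave {f : A → ℕ} {n : ℕ}
    (hf : ∀ v, v ≠ s → nb D f v = if v = t then (n : ℤ) else 0)
    {Z : Finset V} (hs : s ∉ Z) {a : A} (h1 : 1 ≤ f a) (h2 : D.tl a ∈ Z) (h3 : D.hd a ∉ Z) :
    ∃ b, 1 ≤ f b ∧ D.tl b ∉ Z ∧ D.hd b ∈ Z := by
  have h4 := cut_eq D hf hs
  have h5 := le_outt h1 h2 h3
  refine exists_in ?_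
  rw [h4]
  exact h5.trans (Nat.le_add_right _ _)

lemma Sta.s_notMem (St : Sta D Sp s t p q' g h) {Y : Finset V}
    (hY : ∀ a, 1 ≤ g a → D.tl a ∈ Y → D.hd a ∈ Y) {e : A} (he1 : 1 ≤ g e) (he2 : D.tl e ∉ Y)
    (he3 : D.hd e ∈ Y) : s ∉ Y := by
  intro hs
  obtain ⟨b, hb1, hb2, hb3⟩ := enter_of_leave St.fg (Z := Yᶜ)
    (by rw [Finset.mem_compl, not_not]; exact hs) he1 (Finset.mem_compl.2 he2)
    (by rw [Finset.mem_compl, not_not]; exact he3)
  rw [Finset.mem_compl, not_not] at hb2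
  rw [Finset.mem_compl] at hb3
  exact hb3 (hY b hb1 hb2)

/-- Step A: `g` leaves the set `W = P.1 ∪ P.2`. -/
theorem stepA (St : Sta D Sp s t p q' g h) (hp : 1 ≤ p) (hq : q' < q)
    (H : ∀ Z : Finset V, t ∈ Z → s ∉ Z → (D.ent Sp Z).card < p →
      p + q ≤ (D.ent Finset.univ Z).card)
    {P : Finset V × Finset V} (I : Inv D Sp g h P) (hs : s ∉ P.1 ∪ P.2) (ht : t ∈ P.2)
    (h8 : F8 D Sp g P.1) : ∃ a, 1 ≤ g a ∧ D.tl a ∈ P.1 ∪ P.2 ∧ D.hd a ∉ P.1 ∪ P.2 := by
  by_contra hcon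
  have hout : outt D g (P.1 ∪ P.2) = 0 := by
    apply outt_zero
    intro a h1 h2
    by_contra h3
    exact hcon ⟨a, h1, h2, h3⟩
  have htW : t ∈ P.1 ∪ P.2 := Finset.mem_union_right _ ht
  have hin := cut_eq D St.fg hs
  rw [hout, if_pos htW, zero_add] at hin
  -- special arcs
  have hsp : (D.ent Sp (P.1 ∪ P.2)).card < p := by
    rcases h8 with h8 | ⟨e, he1, he2, he3, he4⟩
    · have : D.ent Sp (P.1 ∪ P.2) = ∅ := by
        rw [Finset.eq_empty_iff_forall_notMem]
        intro a ha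
        rw [Net.mem_ent, h8, Finset.empty_union] at ha
        exact ha.2.1 (I.f1 ha.1 ha.2.2)
      rw [this, Finset.card_empty]
      exact hp
    · -- an ordinary g-arc enters W
      have h9 : ∃ e0, e0 ∉ Sp ∧ 1 ≤ g e0 ∧ D.tl e0 ∉ P.1 ∪ P.2 ∧ D.hd e0 ∈ P.1 ∪ P.2 := by
        by_cases h10 : D.tl e ∈ P.2
        · obtain ⟨b, hb1, hb2, hb3⟩ := enter_of_leave St.fg (Z := P.2 \ P.1)
            (fun h => hs (Finset.mem_union_right _ (Finset.mem_sdiff.1 h).1)) he2
            (Finset.mem_sdiff.2 ⟨h10, he3⟩) (fun h => (Finset.mem_sdiff.1 h).2 he4)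
          rw [Finset.mem_sdiff] at hb2 hb3
          have h11 : D.tl b ∉ P.1 := fun h => hb3.2 (I.f5 hb1 h)
          have h12 : D.tl b ∉ P.2 := fun h => hb2 ⟨h, h11⟩
          exact ⟨b, fun h => h12 (I.f1 h hb3.1), hb1, by
            rw [Finset.mem_union, not_or]; exact ⟨h11, h12⟩, Finset.mem_union_right _ hb3.1⟩
        · exact ⟨e, he1, he2, by rw [Finset.mem_union, not_or]; exact ⟨he3, h10⟩,
            Finset.mem_union_left _ he4⟩
      obtain ⟨e0, h01, h02, h03, h04⟩ := h9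
      have h13 : (D.ent Sp (P.1 ∪ P.2)).card + 1 ≤ inn D g (P.1 ∪ P.2) := by
        unfold inn
        have h14 : insert e0 (D.ent Sp (P.1 ∪ P.2)) ⊆ D.ent Finset.univ (P.1 ∪ P.2) := by
          intro a ha
          rw [Finset.mem_insert] at ha
          rcases ha with rfl | ha
          · exact Net.mem_ent.2 ⟨Finset.mem_univ _, h03, h04⟩
          · rw [Net.mem_ent] at ha ⊢
            exact ⟨Finset.mem_univ _, ha.2⟩
        have h15 : e0 ∉ D.ent Sp (P.1 ∪ P.2) := fun h => h01 (Net.mem_ent.1 h).1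
        refine le_trans ?_ (Finset.sum_le_sum_of_subset h14)
        rw [← Finset.card_insert_of_notMem h15, Finset.card_eq_sum_ones]
        apply Finset.sum_le_sum
        intro a ha
        rw [Finset.mem_insert] at ha
        rcases ha with rfl | ha
        · exact h02
        · rw [Net.mem_ent] at ha
          by_contra h16
          exact ha.2.1 (I.f6 ⟨by omega, fun h => absurd ha.1 h⟩ ha.2.2)
      omega
  have h20 := H _ htW hs hsp
  -- counting
  have h21 : inn D h P.2 = q' := by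
    have h22 := cut_eq D St.fh (X := P.2) (fun h => hs (Finset.mem_union_right _ h))
    rw [outt_zero (fun a h1 h2 => I.f2 h1 h2), if_pos ht, zero_add] at h22
    exact h22
  have h23 : (D.ent Finset.univ (P.1 ∪ P.2)).card ≤ inn D g (P.1 ∪ P.2) + inn D h P.2 := by
    unfold inn
    have h24 : ∑ a ∈ (D.ent Finset.univ (P.1 ∪ P.2)).filter (fun a => a ∉ Sp ∧ 1 ≤ h a), h a ≤
        ∑ a ∈ D.ent Finset.univ P.2, h a := by
      apply Finset.sum_le_sum_of_subset
      intro a ha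
      rw [Finset.mem_filter, Net.mem_ent] at ha
      obtain ⟨⟨_, h25, h26⟩, h27, h28⟩ := ha
      rw [Finset.mem_union, not_or] at h25
      have h29 : D.hd a ∈ P.2 := by
        rcases Finset.mem_union.1 h26 with h30 | h30
        · exact I.f7 a h27 h28 h25.1 h30
        · exact h30
      exact Net.mem_ent.2 ⟨Finset.mem_univ _, h25.2, h29⟩
    refine le_trans ?_ (Nat.add_le_add_left h24 _)
    rw [Finset.sum_filter, ← Finset.sum_add_distrib, Finset.card_eq_sum_ones]
    apply Finset.sum_le_sum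
    intro a ha
    rw [Net.mem_ent] at ha
    by_cases h31 : g a = 0
    · have h32 : a ∉ Sp ∧ 1 ≤ h a := by
        by_contra h33
        refine ha.2.1 (I.f6 ⟨h31, fun h34 => ?_⟩ ha.2.2)
        by_contra h35
        exact h33 ⟨h34, by omega⟩
      rw [if_pos h32]
      omega
    · have h36 : 1 ≤ g a := by omega
      exact h36.trans (Nat.le_add_right _ _)
  omega

/-- Step B: an ordinary arc of `g` enters the next set `Y`, or there is an improvement. -/
theorem stepB (St : Sta D Sp s t p q' g h) {i L : ℕ} (hL : 2 * i + 1 < L)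
    (hs : s ∉ (ch D Sp t g h i).1 ∪ (ch D Sp t g h i).2) {a1 : A} (h1 : 1 ≤ g a1)
    (h2 : D.tl a1 ∈ (ch D Sp t g h i).1 ∪ (ch D Sp t g h i).2)
    (h3 : D.hd a1 ∉ (ch D Sp t g h i).1 ∪ (ch D Sp t g h i).2) :
    (∃ e, e ∉ Sp ∧ 1 ≤ g e ∧ D.tl e ∉ (ch D Sp t g h (i + 1)).1 ∧
      D.hd e ∈ (ch D Sp t g h (i + 1)).1) ∨
    ∃ g', Sta D Sp s t p q' g' h ∧ Imp D Sp t L g h g' h := by
  have I : Inv D Sp g h (ch D Sp t g h i) := inv_ch i
  have hYP0 : (ch D Sp t g h i).1 ∪ (ch D Sp t g h i).2 ⊆ (ch D Sp t g h (i + 1)).1 := ch_mono1 i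
  obtain ⟨P, hP⟩ : ∃ P, P = ch D Sp t g h i := ⟨_, rfl⟩
  rw [← hP] at I hs h2 h3 hYP0
  -- a g-arc entering Q
  have hcand : ∃ e, 1 ≤ g e ∧ D.tl e ∉ P.1 ∪ P.2 ∧ D.hd e ∈ P.2 \ P.1 := by
    have h4 : D.tl a1 ∉ P.1 := fun h => h3 (Finset.mem_union_left _ (I.f5 h1 h))
    have h5 : D.tl a1 ∈ P.2 \ P.1 :=
      Finset.mem_sdiff.2 ⟨(Finset.mem_union.1 h2).resolve_left h4, h4⟩
    obtain ⟨b, hb1, hb2, hb3⟩ := enter_of_leave St.fg (Z := P.2 \ P.1)
      (fun h => hs (Finset.mem_union_right _ (Finset.mem_sdiff.1 h).1)) h1 h5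
      (fun h => h3 (Finset.mem_union_right _ (Finset.mem_sdiff.1 h).1))
    have h6 : D.tl b ∉ P.1 := fun h => (Finset.mem_sdiff.1 hb3).2 (I.f5 hb1 h)
    have h7 : D.tl b ∉ P.2 := fun h => hb2 (Finset.mem_sdiff.2 ⟨h, h6⟩)
    exact ⟨b, hb1, by rw [Finset.mem_union, not_or]; exact ⟨h6, h7⟩, hb3⟩
  obtain ⟨R, hR⟩ : ∃ R, R = Res D g (fun a => Un Sp g h a ∧ D.tl a ∉ P.1 ∪ P.2 ∧
    D.hd a ∉ P.1 ∪ P.2) := ⟨_, rfl⟩
  have hmin : ∃ e, (1 ≤ g e ∧ D.tl e ∉ P.1 ∪ P.2 ∧ D.hd e ∈ P.2 \ P.1) ∧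
      ∀ e', (1 ≤ g e' ∧ D.tl e' ∉ P.1 ∪ P.2 ∧ D.hd e' ∈ P.2 \ P.1) →
        (Rch R (D.tl e)).card ≤ (Rch R (D.tl e')).card := by
    obtain ⟨e, he, hmin⟩ := Finset.exists_min_image (Finset.univ.filter fun e =>
      1 ≤ g e ∧ D.tl e ∉ P.1 ∪ P.2 ∧ D.hd e ∈ P.2 \ P.1) (fun e => (Rch R (D.tl e)).card)
      (by obtain ⟨e, he⟩ := hcand; exact ⟨e, Finset.mem_filter.2 ⟨Finset.mem_univ _, he⟩⟩)
    exact ⟨e, (Finset.mem_filter.1 he).2, fun e' he' =>
      hmin e' (Finset.mem_filter.2 ⟨Finset.mem_univ _, he'⟩)⟩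
  obtain ⟨e, ⟨he1, he2, he3⟩, hmin⟩ := hmin
  have heQ := Finset.mem_sdiff.1 he3
  have hesp : e ∉ Sp := fun h => he2 (Finset.mem_union_right _ (I.f1 h heQ.1))
  by_cases hY : D.tl e ∉ (ch D Sp t g h (i + 1)).1
  · exact Or.inl ⟨e, hesp, he1, hY, hYP0 (Finset.mem_union_right _ heQ.1)⟩
  rw [not_not] at hY
  right
  -- R never enters P.1
  have hR1 : ∀ x y, R x y → y ∈ P.1 → x ∈ P.1 := by
    intro x y hxy hy
    rw [hR] at hxy
    obtain ⟨a, ⟨⟨_, _, ha⟩, rfl, rfl⟩ | ⟨ha, rfl, rfl⟩⟩ := hxy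
    · exact absurd (Finset.mem_union_left _ hy) ha
    · exact I.f5 ha hy
  have hpath : ∀ x z, Relation.ReflTransGen (RG D Sp g h) x z → z ∈ P.1 ∪ P.2 →
      x ∉ P.1 ∪ P.2 → ∃ a, 1 ≤ g a ∧ D.tl a ∈ P.1 ∪ P.2 ∧ D.hd a ∉ P.1 ∪ P.2 ∧
        Relation.ReflTransGen R x (D.tl a) := by
    intro x z hxz hz
    induction hxz using Relation.ReflTransGen.head_induction_on with
    | refl =>
      intro hx
      exact absurd hz hx
    | head h5 h6 ih =>
      rename_i x c
      intro hx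
      obtain ⟨a, ⟨h7, rfl, rfl⟩ | ⟨h7, rfl, rfl⟩⟩ := h5
      · have hc : D.hd a ∉ P.1 ∪ P.2 := fun h => hx (I.f6 h7 h)
        obtain ⟨b, hb1, hb2, hb3, hb4⟩ := ih hc
        refine ⟨b, hb1, hb2, hb3, Relation.ReflTransGen.head ?_ hb4⟩
        rw [hR]
        exact ⟨a, Or.inl ⟨⟨h7, hx, hc⟩, rfl, rfl⟩⟩
      · have hRa : R (D.hd a) (D.tl a) := by
          rw [hR]
          exact ⟨a, Or.inr ⟨h7, rfl, rfl⟩⟩
        by_cases hc : D.tl a ∈ P.1 ∪ P.2
        · exact ⟨a, h7, hc, hx, Relation.ReflTransGen.single hRa⟩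
        · obtain ⟨b, hb1, hb2, hb3, hb4⟩ := ih hc
          exact ⟨b, hb1, hb2, hb3, Relation.ReflTransGen.head hRa hb4⟩
  obtain ⟨z, hz, hez⟩ := mem_bk.1 (show D.tl e ∈ bk (RG D Sp g h) (P.1 ∪ P.2) by
    rw [hP]
    exact hY)
  obtain ⟨a2, ha1, ha2, ha3, ha4⟩ := hpath _ _ hez hz he2
  have hno : ∀ x, Relation.ReflTransGen R (D.tl e) x → x ∉ P.1 := by
    intro x hx
    induction hx with
    | refl => exact fun h => he2 (Finset.mem_union_left _ h)
    | tail _ h5 ih => exact fun h => ih (hR1 _ _ h5 h)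
  have h5 : D.tl a2 ∈ (P.2 \ P.1) ∩ Rch R (D.tl e) := by
    have h6 := hno _ ha4
    exact Finset.mem_inter.2 ⟨Finset.mem_sdiff.2
      ⟨(Finset.mem_union.1 ha2).resolve_left h6, h6⟩, mem_Rch.2 ha4⟩
  obtain ⟨b, hb1, hb2, hb3⟩ := enter_of_leave St.fg (Z := (P.2 \ P.1) ∩ Rch R (D.tl e))
    (fun h => hs (Finset.mem_union_right _ (Finset.mem_sdiff.1 (Finset.mem_inter.1 h).1).1)) ha1 h5
    (fun h => ha3 (Finset.mem_union_right _ (Finset.mem_sdiff.1 (Finset.mem_inter.1 h).1).1))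
  rw [Finset.mem_inter] at hb3
  have hb4 : Relation.ReflTransGen R (D.tl e) (D.hd b) := mem_Rch.1 hb3.2
  have hRb : R (D.hd b) (D.tl b) := by
    rw [hR]
    exact ⟨b, Or.inr ⟨hb1, rfl, rfl⟩⟩
  have hb5 : Relation.ReflTransGen R (D.tl e) (D.tl b) := hb4.tail hRb
  have hb6 : D.tl b ∉ P.1 := hno _ hb5
  have hb7 : D.tl b ∉ P.2 := fun h =>
    hb2 (Finset.mem_inter.2 ⟨Finset.mem_sdiff.2 ⟨h, hb6⟩, mem_Rch.2 hb5⟩)
  have hb8 : D.tl b ∉ P.1 ∪ P.2 := by
    rw [Finset.mem_union, not_or]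
    exact ⟨hb6, hb7⟩
  have hsub : Rch R (D.tl b) ⊆ Rch R (D.tl e) := fun x hx =>
    mem_Rch.2 (hb5.trans (mem_Rch.1 hx))
  have heq := Finset.eq_of_subset_of_card_le hsub (hmin b ⟨hb1, hb8, hb3.1⟩)
  have hb9 : Relation.ReflTransGen R (D.tl b) (D.hd b) := mem_Rch.1 (by rw [heq]; exact hb3.2)
  have hbQ := Finset.mem_sdiff.1 hb3.1
  have hinn := (path_inn (S := P.1ᶜ) (R := R) (fun u w hu huw => by
    rw [Finset.mem_compl] at hu ⊢
    exact fun h => hu (hR1 _ _ huw h)) (Finset.mem_compl.2 hb6) hb9).2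
  rw [hR] at hinn
  obtain ⟨f', p1, p2, p3, p4, p5⟩ := push D _ (D.hd b) _ (P.1ᶜ) rfl g (D.tl b) hinn
  have hbsp : b ∉ Sp := fun h => hb7 (I.f1 h hbQ.1)
  have hgb : g b = 1 := le_antisymm (St.g1 b) hb1
  have hhb : h b = 0 := by
    have := St.gh b hbsp
    omega
  have hfb : f' b = 1 := by
    have h6 := p5 b rfl
    have h7 : ¬ g b < f' b := fun h => by
      have := (p4 b h).1.1
      omega
    omega
  obtain ⟨g', hg'⟩ : ∃ g', g' = Function.update f' b 0 := ⟨_, rfl⟩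
  have hgb0 : g' b = 0 := by rw [hg', Function.update_self]
  have hgne : ∀ a, a ≠ b → g' a = f' a := fun a ha => by
    rw [hg', Function.update_of_ne ha]
  have hup : ∀ a, g a < g' a → Un Sp g h a ∧ D.tl a ∉ P.1 ∪ P.2 ∧ D.hd a ∉ P.1 ∪ P.2 := by
    intro a ha
    by_cases hab : a = b
    · rw [hab, hgb0] at ha
      exact absurd ha (Nat.not_lt_zero _)
    · rw [hgne a hab] at ha
      exact p4 a ha
  have hle : ∀ a, g' a ≤ g a + 1 := by
    intro a
    by_cases hab : a = b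
    · rw [hab, hgb0]
      exact Nat.zero_le _
    · rw [hgne a hab]
      exact p3 a
  refine ⟨g', ⟨?_, St.fh, ?_, ?_⟩, ?_⟩
  · intro v hv
    rw [hg', nb_update, p1 v, hfb, ← St.fg v hv]
    simp only [eq_comm (a := v)]
    split_ifs <;> push_cast <;> ring
  · intro a
    by_cases h6 : g a < g' a
    · have h7 := (hup a h6).1.1
      have h8 := hle a
      omega
    · have h7 := St.g1 a
      omega
  · intro a ha
    by_cases h6 : g a < g' a
    · have h7 := (hup a h6).1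
      have h8 := h7.1
      have h9 := h7.2 ha
      have h10 := hle a
      omega
    · have h7 := St.gh a ha
      omega
  · refine imp_of (j0 := 2 * i + 1) hL ?_ ?_
    · refine seq_mono (i := i) (by omega) ?_ ?_ ?_
      · intro k hk a hx1 hx2
        have hk' : (ch D Sp t g h (k + 1)).1 ⊆ P.1 := by
          rw [hP]
          exact ch_le1 (by omega)
        have e1 : g' a = g a := by
          have h6 := hk' hx1
          have hab : a ≠ b := by
            rintro rfl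
            exact hb6 h6
          rw [hgne a hab, p2 a (Or.inl (by rw [Finset.mem_compl, not_not]; exact h6))]
        unfold Un
        rw [e1]
        exact ⟨id, id⟩
      · intro k hk a hx1 hx2
        have hk' : (ch D Sp t g h k).2 ⊆ P.2 := by
          rw [hP]
          exact ch_le2 (by omega)
        refine ⟨fun h6 h7 => ⟨?_, h7⟩, id⟩
        by_contra h8
        exact (hup a (by omega)).2.1 (Finset.mem_union_right _ (hk' hx1))
      · intro k _ _
        exact subset_rfl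
    · intro hall
      have h6 : ch D Sp t g' h i = ch D Sp t g h i :=
        ch_eq_of (hall _ (by omega)) (hall _ le_rfl)
      have I' : Inv D Sp g' h (ch D Sp t g' h i) := inv_ch i
      rw [h6, ← hP] at I'
      exact hb6 (I'.f3 hgb0 hhb hbQ.1 hb7).1

/-- Step D: `s` is not in the next set `B`, or there is an improvement. -/
theorem stepD (St : Sta D Sp s t p q' g h) {i L : ℕ} (hL : 2 * (i + 1) < L)
    (hs : s ∉ (ch D Sp t g h i).2) (hs' : s ∈ (ch D Sp t g h (i + 1)).2) :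
    ∃ h', Sta D Sp s t p q' g h' ∧ Imp D Sp t L g h g h' := by
  have I : Inv D Sp g h (ch D Sp t g h i) := inv_ch i
  obtain ⟨Y, hY⟩ : ∃ Y, Y = (ch D Sp t g h (i + 1)).1 := ⟨_, rfl⟩
  obtain ⟨B, hB⟩ : ∃ B, B = (ch D Sp t g h i).2 := ⟨_, rfl⟩
  have hBY : B ⊆ Y := by
    rw [hB, hY]
    exact Finset.subset_union_right.trans (ch_mono1 i)
  have hs2 : s ∈ bk (RH D Sp g h Y) (DD D Sp h Y) := by
    rw [hY]
    have h1 : s ∈ (ch D Sp t g h i).2 ∪ bk (RH D Sp g h (ch D Sp t g h (i + 1)).1)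
      (DD D Sp h (ch D Sp t g h (i + 1)).1) := hs'
    exact (Finset.mem_union.1 h1).resolve_left hs
  obtain ⟨d, hd, hsd⟩ := mem_bk.1 hs2
  obtain ⟨f0, h1, h2, h3, h4, h5⟩ := mem_DD.1 hd
  rw [← h4] at h5 hsd
  have hreach : Relation.ReflTransGen (RH D Sp g h Y) (D.tl f0) (D.hd f0) := by
    by_contra hcon
    have hsR : s ∉ Rch (RH D Sp g h Y) (D.tl f0) := fun h => hcon ((mem_Rch.1 h).trans hsd)
    obtain ⟨b, hb1, hb2, hb3⟩ := enter_of_leave St.fh hsR h2
      (mem_Rch.2 Relation.ReflTransGen.refl) (fun h => hcon (mem_Rch.1 h))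
    exact hb2 (mem_Rch.2 ((mem_Rch.1 hb3).tail ⟨b, Or.inr ⟨hb1, rfl, rfl⟩⟩))
  have hcB : D.tl f0 ∉ B := fun h => h3 (hBY h)
  have hinn := (path_inn (S := Bᶜ) (R := RH D Sp g h Y) (fun u w hu huw => by
    rw [Finset.mem_compl] at hu ⊢
    intro hw
    apply hu
    rw [hB] at hw ⊢
    refine I.cB u w hw (RH_mono ?_ huw)
    rw [hY]
    exact Finset.subset_union_left.trans (ch_mono1 i)) (Finset.mem_compl.2 hcB) hreach).2
  obtain ⟨f', p1, p2, p3, p4, p5⟩ := push D _ (D.hd f0) _ (Bᶜ) rfl h (D.tl f0) hinn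
  have hgh0 := St.gh f0 h1
  have hg0 : g f0 = 0 := by omega
  have hh0 : h f0 = 1 := by omega
  have hf0 : f' f0 = 1 := by
    have h6 := p5 f0 rfl
    have h7 : ¬ h f0 < f' f0 := fun h8 => by
      rcases p4 f0 h8 with h9 | h9
      · exact h1 h9
      · have := h9.2.1
        omega
    omega
  obtain ⟨h', hh'⟩ : ∃ h', h' = Function.update f' f0 0 := ⟨_, rfl⟩
  have hb0 : h' f0 = 0 := by rw [hh', Function.update_self]
  have hne : ∀ a, a ≠ f0 → h' a = f' a := fun a ha => by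
    rw [hh', Function.update_of_ne ha]
  have hup : ∀ a, h a < h' a → aH D Sp g h Y a := by
    intro a ha
    by_cases hab : a = f0
    · rw [hab, hb0] at ha
      exact absurd ha (Nat.not_lt_zero _)
    · rw [hne a hab] at ha
      exact p4 a ha
  have hle : ∀ a, h' a ≤ h a + 1 := by
    intro a
    by_cases hab : a = f0
    · rw [hab, hb0]
      exact Nat.zero_le _
    · rw [hne a hab]
      exact p3 a
  refine ⟨h', ⟨St.fg, ?_, St.g1, ?_⟩, ?_⟩
  · intro v hv
    rw [hh', nb_update, p1 v, hf0, ← St.fh v hv]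
    simp only [eq_comm (a := v)]
    split_ifs <;> push_cast <;> ring
  · intro a ha
    by_cases h6 : h a < h' a
    · rcases hup a h6 with h7 | ⟨h7, h8, _⟩
      · exact absurd h7 ha
      · have := hle a
        omega
    · have := St.gh a ha
      omega
  · refine imp_of (j0 := 2 * (i + 1)) hL ?_ ?_
    · refine seq_mono (i := i) le_rfl ?_ ?_ ?_
      · intro k hk a hx1 hx2
        have hk' : (ch D Sp t g h (k + 1)).1 ⊆ Y := by
          rw [hY]
          exact ch_le1 (by omega)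
        refine ⟨fun h6 => ⟨h6.1, fun h7 => ?_⟩, id⟩
        by_contra h8
        have h9 := h6.2 h7
        rcases hup a (by omega) with h10 | ⟨_, _, h10⟩
        · exact h7 h10
        · exact h10 ⟨hk' hx1, hk' hx2⟩
      · intro k hk a hx1 hx2
        have hk' : (ch D Sp t g h k).2 ⊆ B := by
          rw [hB]
          exact ch_le2 (by omega)
        have e1 : h' a = h a := by
          have hab : a ≠ f0 := by
            rintro rfl
            exact hcB (hk' hx1)
          rw [hne a hab, p2 a (Or.inl (by rw [Finset.mem_compl, not_not]; exact hk' hx1))]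
        rw [e1]
        exact ⟨fun h6 h7 => ⟨h6, h7⟩, id⟩
      · intro k hk he d' hd'
        obtain ⟨a, y1, y2, y3, y4, y5⟩ := mem_DD.1 hd'
        refine mem_DD.2 ⟨a, y1, ?_, y3, y4, y5⟩
        by_contra h6
        have h7 := St.gh a y1
        have I' : Inv D Sp g h' (ch D Sp t g h' (k + 1)) := inv_ch (k + 1)
        have h8 := I'.f4 (a := a) ⟨by omega, fun _ => by omega⟩ (by rw [he, y4]; exact y5)
        rw [he] at h8
        exact y3 h8
    · intro hall
      have h6 := hall (2 * (i + 1)) le_rfl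
      rw [X_even, X_even, ← hY] at h6
      have I' : Inv D Sp g h' (ch D Sp t g h' (i + 1)) := inv_ch (i + 1)
      have h8 := I'.f4 (a := f0) ⟨hg0, fun _ => hb0⟩ (by rw [h6]; exact h5)
      rw [h6] at h8
      exact h3 h8

/-- A state with `q' < q` can be extended or improved. -/
theorem step (St : Sta D Sp s t p q' g h) (hp : 1 ≤ p) (hq : q' < q)
    (H : ∀ Z : Finset V, t ∈ Z → s ∉ Z → (D.ent Sp Z).card < p →
      p + q ≤ (D.ent Finset.univ Z).card)
    {L : ℕ} (hL : L = 2 * (Fintype.card V + 1) + 1) :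
    (∃ g' h', Sta D Sp s t p (q' + 1) g' h') ∨
      ∃ g' h', Sta D Sp s t p q' g' h' ∧ Imp D Sp t L g h g' h' := by
  by_contra hcon
  rw [not_or] at hcon
  obtain ⟨hc1, hc2⟩ := hcon
  have h0 : s ∉ (ch D Sp t g h 0).2 := by
    intro hs
    obtain ⟨y, hy, hsy⟩ := mem_bk.1 (show s ∈ bk (RH D Sp g h ∅) {t} from hs)
    rw [Finset.mem_singleton] at hy
    rw [hy] at hsy
    have hinn := (path_inn (S := Finset.univ) (fun _ _ _ _ => Finset.mem_univ _)
      (Finset.mem_univ s) hsy).2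
    obtain ⟨h', p1, p2, p3, p4, p5⟩ := push D _ t _ Finset.univ rfl h s hinn
    refine hc1 ⟨g, h', St.fg, ?_, St.g1, ?_⟩
    · intro v hv
      rw [p1 v, St.fh v hv, if_neg hv]
      split_ifs <;> push_cast <;> ring
    · intro a ha
      by_cases h6 : h a < h' a
      · rcases p4 a h6 with h7 | ⟨h7, h8, _⟩
        · exact absurd h7 ha
        · have := p3 a
          omega
      · have := St.gh a ha
        omega
  have key : ∀ i, i ≤ Fintype.card V + 1 →
      s ∉ (ch D Sp t g h i).1 ∪ (ch D Sp t g h i).2 ∧ F8 D Sp g (ch D Sp t g h i).1 ∧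
      i ≤ ((ch D Sp t g h i).1 ∪ (ch D Sp t g h i).2).card := by
    intro i
    induction i with
    | zero =>
      intro _
      refine ⟨?_, Or.inl rfl, Nat.zero_le _⟩
      rw [Finset.mem_union, not_or]
      exact ⟨Finset.notMem_empty s, h0⟩
    | succ i ih =>
      intro hi
      obtain ⟨k1, k2, k3⟩ := ih (by omega)
      have ht : t ∈ (ch D Sp t g h i).2 :=
        ch_le2 (Nat.zero_le i) (subset_bk (Finset.mem_singleton_self t))
      obtain ⟨a1, a2, a3, a4⟩ := stepA St hp hq H (inv_ch i) k1 ht k2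
      rcases stepB St (L := L) (by omega) k1 a2 a3 a4 with ⟨e, e1, e2, e3, e4⟩ | ⟨g', hg1, hg2⟩
      · have I' : Inv D Sp g h (ch D Sp t g h (i + 1)) := inv_ch (i + 1)
        have hsY : s ∉ (ch D Sp t g h (i + 1)).1 :=
          St.s_notMem (fun a h1 h2 => I'.f5 h1 h2) e2 e3 e4
        have hsB : s ∉ (ch D Sp t g h (i + 1)).2 := by
          intro hs'
          obtain ⟨h', hh1, hh2⟩ := stepD St (L := L) (by omega)
            (fun h => k1 (Finset.mem_union_right _ h)) hs'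
          exact hc2 ⟨g, h', hh1, hh2⟩
        refine ⟨?_, Or.inr ⟨e, e1, e2, e3, e4⟩, ?_⟩
        · rw [Finset.mem_union, not_or]
          exact ⟨hsY, hsB⟩
        · have h7 : D.hd a1 ∈ (ch D Sp t g h (i + 1)).1 :=
            I'.cY _ _ (ch_mono1 i a3) ⟨a1, Or.inr ⟨a2, rfl, rfl⟩⟩
          have h8 : (ch D Sp t g h i).1 ∪ (ch D Sp t g h i).2 ⊂
              (ch D Sp t g h (i + 1)).1 ∪ (ch D Sp t g h (i + 1)).2 :=
            (Finset.ssubset_iff_of_subset ((ch_mono1 i).trans Finset.subset_union_left)).2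
              ⟨D.hd a1, Finset.mem_union_left _ h7, a4⟩
          have h9 := Finset.card_lt_card h8
          omega
      · exact absurd ⟨g', h, hg1, hg2⟩ hc2
  have h10 := (key (Fintype.card V + 1) le_rfl).2.2
  have h11 := Finset.card_le_univ ((ch D Sp t g h (Fintype.card V + 1)).1 ∪
    (ch D Sp t g h (Fintype.card V + 1)).2)
  omega

/-- encoded potential -/
def enc (n : ℕ) (x : ℕ → ℕ) : ℕ → ℕ
  | 0 => 0
  | L + 1 => enc n x L * (n + 1) + x L

lemma enc_congr {n : ℕ} {x y : ℕ → ℕ} {L : ℕ} (he : ∀ j < L, y j = x j) :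
    enc n y L = enc n x L := by
  induction L with
  | zero => rfl
  | succ L ih =>
    show enc n y L * (n + 1) + y L = enc n x L * (n + 1) + x L
    rw [ih (fun j hj => he j (by omega)), he L (by omega)]

lemma enc_lt {n : ℕ} {x y : ℕ → ℕ} (hx : ∀ j, x j ≤ n) {j : ℕ} (he : ∀ j' < j, y j' = x j')
    (hlt : x j < y j) {L : ℕ} (hj : j < L) : enc n x L < enc n y L := by
  induction L with
  | zero => omega
  | succ L ih =>
    show enc n x L * (n + 1) + x L < enc n y L * (n + 1) + y L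
    by_cases h1 : j < L
    · have h2 := ih h1
      have h3 := Nat.mul_le_mul_right (n + 1) (show enc n x L + 1 ≤ enc n y L from h2)
      have h4 := hx L
      rw [Nat.add_mul] at h3
      omega
    · have h2 : j = L := by omega
      subst h2
      rw [enc_congr he]
      omega

lemma enc_bound {n : ℕ} {x : ℕ → ℕ} (hx : ∀ j, x j ≤ n) (L : ℕ) :
    enc n x L < (n + 1) ^ L := by
  induction L with
  | zero => simp [enc]
  | succ L ih =>
    show enc n x L * (n + 1) + x L < (n + 1) ^ (L + 1)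
    have h3 := Nat.mul_le_mul_right (n + 1) (show enc n x L + 1 ≤ (n + 1) ^ L from ih)
    have h4 := hx L
    rw [Nat.add_mul] at h3
    rw [pow_succ]
    omega

/-- the potential of a state -/
noncomputable def pot (D : Net V A) (Sp : Finset A) (t : V) (g h : A → ℕ) (L : ℕ) : ℕ :=
  enc (Fintype.card V) (fun j => (X D Sp t g h j).card) L

lemma pot_lt {g' h' : A → ℕ} {L : ℕ} (hi : Imp D Sp t L g h g' h') :
    pot D Sp t g h L < pot D Sp t g' h' L := by
  obtain ⟨j, hj, h1, h2⟩ := hi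
  exact enc_lt (fun j => Finset.card_le_univ _) (fun j' hj' => by rw [h1 j' hj'])
    (Finset.card_lt_card h2) hj

/-- A state with `q' < q` gives one with `q' + 1`. -/
theorem climb (hp : 1 ≤ p) (hq : q' < q)
    (H : ∀ Z : Finset V, t ∈ Z → s ∉ Z → (D.ent Sp Z).card < p →
      p + q ≤ (D.ent Finset.univ Z).card) (St : Sta D Sp s t p q' g h) :
    ∃ g' h', Sta D Sp s t p (q' + 1) g' h' := by
  obtain ⟨L, hL⟩ : ∃ L, L = 2 * (Fintype.card V + 1) + 1 := ⟨_, rfl⟩
  induction hm : (Fintype.card V + 1) ^ L - pot D Sp t g h L using Nat.strong_induction_on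
    generalizing g h with
  | _ m ih =>
    rcases step St hp hq H hL with h1 | ⟨g', h', h1, h2⟩
    · exact h1
    · have h3 := pot_lt h2
      have h4 : pot D Sp t g' h' L < (Fintype.card V + 1) ^ L :=
        enc_bound (fun j => Finset.card_le_univ _) L
      exact ih _ (by omega) h1 rfl

/-- All states up to `q`. -/
theorem climb_all (hp : 1 ≤ p)
    (H : ∀ Z : Finset V, t ∈ Z → s ∉ Z → (D.ent Sp Z).card < p →
      p + q ≤ (D.ent Finset.univ Z).card) (St : Sta D Sp s t p 0 g h) :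
    ∀ r ≤ q, ∃ g' h', Sta D Sp s t p r g' h' := by
  intro r
  induction r with
  | zero => exact fun _ => ⟨g, h, St⟩
  | succ r ih =>
    intro hr
    obtain ⟨g', h', h1⟩ := ih (by omega)
    exact climb hp (by omega) H h1

end

/-- The network theorem for all `p ≥ 1`. -/
theorem netStatement_all.{u, v} {p N : ℕ} (hp : 1 ≤ p) (hN : p ≤ N) :
    NetStatement.{u, v} p N := by
  intro V A _ _ _ _ D Sp s t H
  obtain ⟨q, rfl⟩ := Nat.exists_eq_add_of_le hN
  by_cases hst : s = t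
  · subst hst
    obtain ⟨P, hP1, hP2⟩ := capMenger D s s p (fun _ => 0) (fun Z h1 h2 => absurd h1 h2)
    obtain ⟨Q, hQ1, hQ2⟩ := capMenger D s s (p + q - p) (fun _ => 0)
      (fun Z h1 h2 => absurd h1 h2)
    refine ⟨P, Q, hP1, hQ1, fun a => ?_, fun a _ => ?_⟩
    · have := hP2 a
      omega
    · have := hP2 a
      have := hQ2 a
      omega
  -- the first flow
  have hle : ∀ Z : Finset V, t ∈ Z → s ∉ Z → p ≤ (D.ent Finset.univ Z).card := by
    intro Z h1 h2
    by_cases h3 : (D.ent Sp Z).card < p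
    · have := H Z h1 h2 h3
      omega
    · have := D.ent_mono (Finset.subset_univ Sp) Z
      omega
  obtain ⟨z, hz1, hz2⟩ := gale D (stb s t (p : ℤ)) (by rw [sum_stb]; simp) (fun _ => 1) (by
    intro Z
    have h1 : D.cap (fun _ => 1) Z = ((D.ent Finset.univ Z).card : ℤ) := by
      unfold Net.cap Net.ent
      rw [Finset.card_filter]
      push_cast
      rfl
    rw [sum_stb, h1]
    by_cases ht : t ∈ Z <;> by_cases hs : s ∈ Z
    · rw [if_pos ht, if_pos hs]
      omega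
    · rw [if_pos ht, if_neg hs]
      have := hle Z ht hs
      omega
    · rw [if_neg ht, if_pos hs]
      omega
    · rw [if_neg ht, if_neg hs]
      omega)
  have St : Sta D Sp s t p 0 z (fun _ => 0) := by
    refine ⟨?_, ?_, hz1, ?_⟩
    · intro v hv
      show D.bal (fun a => (z a : ℤ)) v = _
      rw [hz2 v]
      unfold stb
      rw [if_neg hv, sub_zero]
    · intro v hv
      unfold nb Net.bal
      simp
    · intro a _
      have := hz1 a
      omega
  obtain ⟨g, h, St'⟩ := climb_all hp H St q le_rfl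
  obtain ⟨P, hP1, hP2⟩ := capMenger D s t p g (by
    intro Z h1 h2
    have h3 := cut_eq D St'.fg h2
    rw [if_pos h1] at h3
    unfold inn at h3
    omega)
  obtain ⟨Q, hQ1, hQ2⟩ := capMenger D s t (p + q - p) h (by
    intro Z h1 h2
    have h3 := cut_eq D St'.fh h2
    rw [if_pos h1] at h3
    unfold inn at h3
    omega)
  refine ⟨P, Q, hP1, hQ1, fun a => (hP2 a).trans (St'.g1 a), fun a ha => ?_⟩
  have h1 := hP2 a
  have h2 := hQ2 a
  have h3 := St'.gh a ha
  omega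

end BHNet

namespace BeinekeHarary

/-- The Beineke–Harary conjecture for all `(k, l)` with `l ≥ 1`. -/
theorem holds_all.{u, v} (k l : ℕ) (hl : 1 ≤ l) : Holds.{u, v} k l :=
  holds_of_net (BHNet.netStatement_all (by omega) (by omega))

end BeinekeHarary
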