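import Pool.Agent.BH.Push

/-!
The chain of a state and the comparison of the chains of two states.

State: `g` (value `p`, at most one on every arc), `h` (value `q'`), together at most one on every
ordinary arc.
-/

set_option autoImplicit false
set_option linter.unusedSectionVars false

namespace BHNet

open Classical

variable {V A : Type*} [Fintype V] [DecidableEq V] [Fintype A] [DecidableEq A]

/-- unused arcs: neither `g` nor (for an ordinary arc) `h` uses the arc -/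
def Un (Sp : Finset A) (g h : A → ℕ) (a : A) : Prop := g a = 0 ∧ (a ∉ Sp → h a = 0)

/-- arcs on which `h` may be increased, arcs inside `Y` excluded -/
def aH (D : Net V A) (Sp : Finset A) (g h : A → ℕ) (Y : Finset V) (a : A) : Prop :=
  a ∈ Sp ∨ (g a = 0 ∧ h a = 0 ∧ ¬ (D.tl a ∈ Y ∧ D.hd a ∈ Y))

/-- residual steps of `g` -/
def RG (D : Net V A) (Sp : Finset A) (g h : A → ℕ) : V → V → Prop := Res D g (Un Sp g h)

/-- residual steps of `h` -/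
def RH (D : Net V A) (Sp : Finset A) (g h : A → ℕ) (Y : Finset V) : V → V → Prop :=
  Res D h (aH D Sp g h Y)

/-- heads of the ordinary arcs of `h` entering `Y` -/
noncomputable def DD (D : Net V A) (Sp : Finset A) (h : A → ℕ) (Y : Finset V) : Finset V :=
  Finset.univ.filter fun d => ∃ a, a ∉ Sp ∧ 1 ≤ h a ∧ D.tl a ∉ Y ∧ D.hd a = d ∧ d ∈ Y

lemma mem_DD {D : Net V A} {Sp : Finset A} {h : A → ℕ} {Y : Finset V} {d : V} :
    d ∈ DD D Sp h Y ↔ ∃ a, a ∉ Sp ∧ 1 ≤ h a ∧ D.tl a ∉ Y ∧ D.hd a = d ∧ d ∈ Y := by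
  unfold DD
  rw [Finset.mem_filter]
  exact ⟨fun h => h.2, fun h => ⟨Finset.mem_univ _, h⟩⟩

/-- next set `Y` -/
noncomputable def Yn (D : Net V A) (Sp : Finset A) (g h : A → ℕ) (P : Finset V × Finset V) :
    Finset V := bk (RG D Sp g h) (P.1 ∪ P.2)

/-- the chain: `(∅, W_0), (Y_0, B_0), (Y_1, B_1), ...` -/
noncomputable def ch (D : Net V A) (Sp : Finset A) (t : V) (g h : A → ℕ) : ℕ → Finset V × Finset V
  | 0 => (∅, bk (RH D Sp g h ∅) {t})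
  | i + 1 => (Yn D Sp g h (ch D Sp t g h i), (ch D Sp t g h i).2 ∪
      bk (RH D Sp g h (Yn D Sp g h (ch D Sp t g h i))) (DD D Sp h (Yn D Sp g h (ch D Sp t g h i))))

/-- the sets of the chain in one sequence -/
noncomputable def X (D : Net V A) (Sp : Finset A) (t : V) (g h : A → ℕ) (j : ℕ) : Finset V :=
  if j % 2 = 0 then (ch D Sp t g h (j / 2)).1 else (ch D Sp t g h (j / 2)).2

section
variable {D : Net V A} {Sp : Finset A} {s t : V} {g h g' h' : A → ℕ}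

lemma X_even (i : ℕ) : X D Sp t g h (2 * i) = (ch D Sp t g h i).1 := by
  unfold X
  rw [if_pos (by omega)]
  congr 2
  omega

lemma X_odd (i : ℕ) : X D Sp t g h (2 * i + 1) = (ch D Sp t g h i).2 := by
  unfold X
  rw [if_neg (by omega)]
  congr 2
  omega

/-- structural facts about a pair of the chain -/
structure Inv (D : Net V A) (Sp : Finset A) (g h : A → ℕ) (P : Finset V × Finset V) : Prop where
  cB : ∀ x y, y ∈ P.2 → RH D Sp g h P.1 x y → x ∈ P.2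
  cY : ∀ x y, y ∈ P.1 → RG D Sp g h x y → x ∈ P.1
  f7 : ∀ a, a ∉ Sp → 1 ≤ h a → D.tl a ∉ P.1 → D.hd a ∈ P.1 → D.hd a ∈ P.2

lemma ch_mono1 (i : ℕ) : (ch D Sp t g h i).1 ∪ (ch D Sp t g h i).2 ⊆ (ch D Sp t g h (i + 1)).1 :=
  subset_bk

lemma ch_mono2 (i : ℕ) : (ch D Sp t g h i).2 ⊆ (ch D Sp t g h (i + 1)).2 :=
  Finset.subset_union_left

lemma ch_le1 {i j : ℕ} (hij : i ≤ j) : (ch D Sp t g h i).1 ⊆ (ch D Sp t g h j).1 := by
  induction hij with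
  | refl => exact subset_rfl
  | step _ ih => exact ih.trans (Finset.subset_union_left.trans (ch_mono1 _))

lemma ch_le2 {i j : ℕ} (hij : i ≤ j) : (ch D Sp t g h i).2 ⊆ (ch D Sp t g h j).2 := by
  induction hij with
  | refl => exact subset_rfl
  | step _ ih => exact ih.trans (ch_mono2 _)

lemma aH_mono {Y Y' : Finset V} (hY : Y ⊆ Y') {a : A} (ha : aH D Sp g h Y' a) :
    aH D Sp g h Y a := by
  rcases ha with ha | ⟨h1, h2, h3⟩
  · exact Or.inl ha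
  · exact Or.inr ⟨h1, h2, fun h4 => h3 ⟨hY h4.1, hY h4.2⟩⟩

lemma RH_mono {Y Y' : Finset V} (hY : Y ⊆ Y') {x y : V} (ha : RH D Sp g h Y' x y) :
    RH D Sp g h Y x y := by
  obtain ⟨a, ha | ha⟩ := ha
  · exact ⟨a, Or.inl ⟨aH_mono hY ha.1, ha.2⟩⟩
  · exact ⟨a, Or.inr ha⟩

lemma inv_ch (i : ℕ) : Inv D Sp g h (ch D Sp t g h i) := by
  induction i with
  | zero =>
    refine ⟨?_, ?_, ?_⟩
    · intro x y hy hxy
      exact bk_closed hy hxy
    · intro x y hy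
      exact absurd hy (Finset.notMem_empty y)
    · intro a _ _ _ ha
      exact absurd ha (Finset.notMem_empty _)
  | succ i ih =>
    refine ⟨?_, ?_, ?_⟩
    · intro x y hy hxy
      have hy' : y ∈ (ch D Sp t g h i).2 ∪
        bk (RH D Sp g h (Yn D Sp g h (ch D Sp t g h i)))
          (DD D Sp h (Yn D Sp g h (ch D Sp t g h i))) := hy
      show x ∈ (ch D Sp t g h i).2 ∪
        bk (RH D Sp g h (Yn D Sp g h (ch D Sp t g h i)))
          (DD D Sp h (Yn D Sp g h (ch D Sp t g h i)))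
      rcases Finset.mem_union.1 hy' with hy | hy
      · exact Finset.mem_union_left _ (ih.cB x y hy (RH_mono (ch_le1 (Nat.le_succ i)) hxy))
      · exact Finset.mem_union_right _ (bk_closed hy hxy)
    · intro x y hy hxy
      exact bk_closed (S := (ch D Sp t g h i).1 ∪ (ch D Sp t g h i).2) hy hxy
    · intro a h1 h2 h3 h4
      refine Finset.mem_union_right _ (subset_bk (mem_DD.2 ⟨a, h1, h2, h3, rfl, h4⟩))

section
variable {P : Finset V × Finset V} (I : Inv D Sp g h P)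
include I

lemma Inv.f1 {a : A} (ha : a ∈ Sp) (h1 : D.hd a ∈ P.2) : D.tl a ∈ P.2 :=
  I.cB _ _ h1 ⟨a, Or.inl ⟨Or.inl ha, rfl, rfl⟩⟩

lemma Inv.f2 {a : A} (ha : 1 ≤ h a) (h1 : D.tl a ∈ P.2) : D.hd a ∈ P.2 :=
  I.cB _ _ h1 ⟨a, Or.inr ⟨ha, rfl, rfl⟩⟩

lemma Inv.f3 {a : A} (h1 : g a = 0) (h2 : h a = 0) (h3 : D.hd a ∈ P.2) (h4 : D.tl a ∉ P.2) :
    D.tl a ∈ P.1 ∧ D.hd a ∈ P.1 := by
  by_contra h5
  exact h4 (I.cB _ _ h3 ⟨a, Or.inl ⟨Or.inr ⟨h1, h2, h5⟩, rfl, rfl⟩⟩)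

lemma Inv.f4 {a : A} (ha : Un Sp g h a) (h1 : D.hd a ∈ P.1) : D.tl a ∈ P.1 :=
  I.cY _ _ h1 ⟨a, Or.inl ⟨ha, rfl, rfl⟩⟩

lemma Inv.f5 {a : A} (ha : 1 ≤ g a) (h1 : D.tl a ∈ P.1) : D.hd a ∈ P.1 :=
  I.cY _ _ h1 ⟨a, Or.inr ⟨ha, rfl, rfl⟩⟩

/-- No unused arc enters `W = P.1 ∪ P.2`. -/
lemma Inv.f6 {a : A} (ha : Un Sp g h a) (h1 : D.hd a ∈ P.1 ∪ P.2) : D.tl a ∈ P.1 ∪ P.2 := by
  rcases Finset.mem_union.1 h1 with h1 | h1
  · exact Finset.mem_union_left _ (I.f4 ha h1)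
  · by_contra h2
    rw [Finset.mem_union, not_or] at h2
    by_cases h3 : a ∈ Sp
    · exact h2.2 (I.f1 h3 h1)
    · exact h2.1 (I.f3 ha.1 (ha.2 h3) h1 h2.2).1

end

/-! ### Comparison of two states -/

/-- the residual steps of `g` inside `T` are kept -/
def PG (D : Net V A) (Sp : Finset A) (g h g' h' : A → ℕ) (T : Finset V) : Prop :=
  ∀ a, D.tl a ∈ T → D.hd a ∈ T → (Un Sp g h a → Un Sp g' h' a) ∧ (1 ≤ g a → 1 ≤ g' a)

/-- the residual steps of `h` inside `T` are kept -/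
def PH (D : Net V A) (g h g' h' : A → ℕ) (T : Finset V) : Prop :=
  ∀ a, D.tl a ∈ T → D.hd a ∈ T → (g a = 0 → h a = 0 → g' a = 0 ∧ h' a = 0) ∧ (1 ≤ h a → 1 ≤ h' a)

lemma PG.mono {T T' : Finset V} (hT : PG D Sp g h g' h' T') (hs : T ⊆ T') :
    PG D Sp g h g' h' T := fun a h1 h2 => hT a (hs h1) (hs h2)

lemma PH.mono {T T' : Finset V} (hT : PH D g h g' h' T') (hs : T ⊆ T') :
    PH D g h g' h' T := fun a h1 h2 => hT a (hs h1) (hs h2)

lemma RG_keep {T : Finset V} (hT : PG D Sp g h g' h' T) {x y : V} (hx : x ∈ T) (hy : y ∈ T)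
    (hxy : RG D Sp g h x y) : RG D Sp g' h' x y := by
  obtain ⟨a, ⟨h1, rfl, rfl⟩ | ⟨h1, rfl, rfl⟩⟩ := hxy
  · exact ⟨a, Or.inl ⟨(hT a hx hy).1 h1, rfl, rfl⟩⟩
  · exact ⟨a, Or.inr ⟨(hT a hy hx).2 h1, rfl, rfl⟩⟩

lemma RH_keep {T Y : Finset V} (hT : PH D g h g' h' T) {x y : V} (hx : x ∈ T) (hy : y ∈ T)
    (hxy : RH D Sp g h Y x y) : RH D Sp g' h' Y x y := by
  obtain ⟨a, ⟨h1, rfl, rfl⟩ | ⟨h1, rfl, rfl⟩⟩ := hxy
  · refine ⟨a, Or.inl ⟨?_, rfl, rfl⟩⟩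
    rcases h1 with h1 | ⟨h1, h2, h3⟩
    · exact Or.inl h1
    · have := (hT a hx hy).1 h1 h2
      exact Or.inr ⟨this.1, this.2, h3⟩
  · exact ⟨a, Or.inr ⟨(hT a hy hx).2 h1, rfl, rfl⟩⟩

lemma M2 (hT : PH D g h g' h' (ch D Sp t g h 0).2) :
    (ch D Sp t g h 0).2 ⊆ (ch D Sp t g' h' 0).2 :=
  bk_mono subset_rfl fun _ _ hx hy hxy => RH_keep hT hx hy hxy

lemma M3 {k : ℕ} (he : ch D Sp t g' h' k = ch D Sp t g h k)
    (hT : PG D Sp g h g' h' (ch D Sp t g h (k + 1)).1) :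
    (ch D Sp t g h (k + 1)).1 ⊆ (ch D Sp t g' h' (k + 1)).1 := by
  show bk (RG D Sp g h) _ ⊆ bk (RG D Sp g' h') _
  rw [he]
  exact bk_mono subset_rfl fun _ _ hx hy hxy => RG_keep hT hx hy hxy

lemma M4 {k : ℕ} (he : ch D Sp t g' h' k = ch D Sp t g h k)
    (he1 : (ch D Sp t g' h' (k + 1)).1 = (ch D Sp t g h (k + 1)).1)
    (hT : PH D g h g' h' (ch D Sp t g h (k + 1)).2)
    (hD : DD D Sp h (ch D Sp t g h (k + 1)).1 ⊆ DD D Sp h' (ch D Sp t g h (k + 1)).1) :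
    (ch D Sp t g h (k + 1)).2 ⊆ (ch D Sp t g' h' (k + 1)).2 := by
  have e1 : (ch D Sp t g h (k + 1)).2 = (ch D Sp t g h k).2 ∪
      bk (RH D Sp g h (ch D Sp t g h (k + 1)).1) (DD D Sp h (ch D Sp t g h (k + 1)).1) := rfl
  have e2 : (ch D Sp t g' h' (k + 1)).2 = (ch D Sp t g' h' k).2 ∪
      bk (RH D Sp g' h' (ch D Sp t g' h' (k + 1)).1) (DD D Sp h' (ch D Sp t g' h' (k + 1)).1) := rfl
  rw [e2, he, he1]
  conv_lhs => rw [e1]
  refine Finset.union_subset_union subset_rfl (bk_mono hD ?_)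
  intro x y hx hy hxy
  refine RH_keep hT ?_ ?_ hxy
  · rw [e1]
    exact Finset.mem_union_right _ hx
  · rw [e1]
    exact Finset.mem_union_right _ hy

/-- the state `(g', h')` is an improvement of `(g, h)` -/
def Imp (D : Net V A) (Sp : Finset A) (t : V) (L : ℕ) (g h g' h' : A → ℕ) : Prop :=
  ∃ j < L, (∀ j' < j, X D Sp t g' h' j' = X D Sp t g h j') ∧ X D Sp t g h j ⊂ X D Sp t g' h' j

lemma imp_of {L j0 : ℕ} (hj : j0 < L)
    (hm : ∀ j ≤ j0, (∀ j' < j, X D Sp t g' h' j' = X D Sp t g h j') →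
      X D Sp t g h j ⊆ X D Sp t g' h' j)
    (hne : ¬ ∀ j ≤ j0, X D Sp t g' h' j = X D Sp t g h j) : Imp D Sp t L g h g' h' := by
  have hex : ∃ j, j ≤ j0 ∧ X D Sp t g' h' j ≠ X D Sp t g h j := by
    by_contra hcon
    apply hne
    intro j hj1
    by_contra h1
    exact hcon ⟨j, hj1, h1⟩
  obtain ⟨h1, h2⟩ := Nat.find_spec hex
  have h3 : ∀ j' < Nat.find hex, X D Sp t g' h' j' = X D Sp t g h j' := by
    intro j' hj'
    by_contra h4
    exact Nat.find_min hex hj' ⟨by omega, h4⟩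
  exact ⟨Nat.find hex, by omega, h3, (hm _ h1 h3).ssubset_of_ne (Ne.symm h2)⟩

lemma ch_eq_of {k : ℕ} (h1 : X D Sp t g' h' (2 * k) = X D Sp t g h (2 * k))
    (h2 : X D Sp t g' h' (2 * k + 1) = X D Sp t g h (2 * k + 1)) :
    ch D Sp t g' h' k = ch D Sp t g h k := by
  rw [X_even, X_even] at h1
  rw [X_odd, X_odd] at h2
  exact Prod.ext h1 h2

/-- Monotonicity of the sequences up to the index `j0`. -/
lemma seq_mono {i j0 : ℕ} (hj : j0 ≤ 2 * (i + 1))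
    (hG : ∀ k, 2 * (k + 1) ≤ j0 → PG D Sp g h g' h' (ch D Sp t g h (k + 1)).1)
    (hH : ∀ k, 2 * k + 1 ≤ j0 → PH D g h g' h' (ch D Sp t g h k).2)
    (hD : ∀ k, 2 * (k + 1) + 1 ≤ j0 → (ch D Sp t g' h' (k + 1)).1 = (ch D Sp t g h (k + 1)).1 →
      DD D Sp h (ch D Sp t g h (k + 1)).1 ⊆ DD D Sp h' (ch D Sp t g h (k + 1)).1) :
    ∀ j ≤ j0, (∀ j' < j, X D Sp t g' h' j' = X D Sp t g h j') →
      X D Sp t g h j ⊆ X D Sp t g' h' j := by
  intro j hj1 he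
  obtain ⟨k, rfl | rfl⟩ : ∃ k, j = 2 * k ∨ j = 2 * k + 1 := ⟨j / 2, by omega⟩
  · rw [X_even, X_even]
    cases k with
    | zero => exact Finset.empty_subset _
    | succ k =>
      exact M3 (ch_eq_of (he _ (by omega)) (he _ (by omega))) (hG k hj1)
  · rw [X_odd, X_odd]
    cases k with
    | zero => exact M2 (hH 0 hj1)
    | succ k =>
      have h1 := he (2 * (k + 1)) (by omega)
      rw [X_even, X_even] at h1
      exact M4 (ch_eq_of (he _ (by omega)) (he _ (by omega))) h1 (hH _ hj1) (hD k hj1 h1)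

end

end BHNet
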