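import Pool.Agent.BH.Bulk

/-!
Integral flows with prescribed balances (Gale's theorem) and minimum cost flows with integral
potentials, both proved by uncrossing / by taking an optimal potential.  (helper32)
-/

set_option autoImplicit false

namespace BHNet

variable {V A : Type*} [Fintype V] [DecidableEq V] [Fintype A] [DecidableEq A]

/-- net inflow of `f` at the vertex `v` -/
def Net.bal (D : Net V A) (f : A → ℤ) (v : V) : ℤ :=
  ∑ a, ((if D.hd a = v then f a else 0) - (if D.tl a = v then f a else 0))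

omit [Fintype V] [DecidableEq A] in
lemma Net.sum_bal (D : Net V A) (f : A → ℤ) (Z : Finset V) :
    ∑ v ∈ Z, D.bal f v
      = ∑ a, ((if D.hd a ∈ Z then f a else 0) - (if D.tl a ∈ Z then f a else 0)) := by
  unfold Net.bal
  rw [Finset.sum_comm]
  apply Finset.sum_congr rfl
  intro a _
  rw [Finset.sum_sub_distrib, Finset.sum_ite_eq, Finset.sum_ite_eq]

omit [DecidableEq A] in
lemma Net.sum_pot_bal (D : Net V A) (f : A → ℤ) (π : V → ℤ) :
    ∑ v, D.bal f v * π v = ∑ a, f a * (π (D.hd a) - π (D.tl a)) := by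
  unfold Net.bal
  simp_rw [Finset.sum_mul]
  rw [Finset.sum_comm]
  apply Finset.sum_congr rfl
  intro a _
  simp only [sub_mul, ite_mul, zero_mul, mul_sub]
  rw [Finset.sum_sub_distrib, Finset.sum_ite_eq, Finset.sum_ite_eq]
  simp

omit [DecidableEq A] in
lemma Net.sum_bal_univ (D : Net V A) (f : A → ℤ) : ∑ v, D.bal f v = 0 := by
  rw [D.sum_bal]
  simp

omit [Fintype V] [DecidableEq A] in
lemma Net.bal_add (D : Net V A) (f g : A → ℤ) (v : V) :
    D.bal (fun a => f a + g a) v = D.bal f v + D.bal g v := by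
  unfold Net.bal
  rw [← Finset.sum_add_distrib]
  apply Finset.sum_congr rfl
  intro a _
  split_ifs <;> ring

/-- inflow with respect to capacities, as a sum over all arcs -/
def Net.cap (D : Net V A) (u : A → ℕ) (Z : Finset V) : ℤ :=
  ∑ a, if D.tl a ∉ Z ∧ D.hd a ∈ Z then (u a : ℤ) else 0

omit [Fintype V] [DecidableEq A] in
lemma Net.cap_submod (D : Net V A) (u : A → ℕ) (X Y : Finset V) :
    D.cap u (X ∩ Y) + D.cap u (X ∪ Y) +
      ∑ a, (if (D.tl a ∈ X ∧ D.tl a ∉ Y ∧ D.hd a ∈ Y ∧ D.hd a ∉ X) ∨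
        (D.tl a ∈ Y ∧ D.tl a ∉ X ∧ D.hd a ∈ X ∧ D.hd a ∉ Y) then (u a : ℤ) else 0)
      = D.cap u X + D.cap u Y := by
  unfold Net.cap
  rw [← Finset.sum_add_distrib, ← Finset.sum_add_distrib, ← Finset.sum_add_distrib]
  apply Finset.sum_congr rfl
  intro a _
  by_cases h1 : D.tl a ∈ X <;> by_cases h2 : D.tl a ∈ Y <;>
    by_cases h3 : D.hd a ∈ X <;> by_cases h4 : D.hd a ∈ Y <;>
    simp [h1, h2, h3, h4]

/-- **Gale's theorem** (integral form). -/
theorem gale (D : Net V A) (b : V → ℤ) (hb : ∑ v, b v = 0) (u : A → ℕ)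
    (H : ∀ Z : Finset V, ∑ v ∈ Z, b v ≤ D.cap u Z) :
    ∃ z : A → ℕ, (∀ a, z a ≤ u a) ∧ ∀ v, D.bal (fun a => (z a : ℤ)) v = b v := by
  induction hn : ∑ a, u a using Nat.strong_induction_on generalizing u with
  | _ n ih =>
  by_cases hred : ∃ a₀, 1 ≤ u a₀ ∧ ∀ Z : Finset V, ∑ v ∈ Z, b v
      ≤ D.cap (Function.update u a₀ (u a₀ - 1)) Z
  · obtain ⟨a₀, ha₀, hZ⟩ := hred
    have hlt : ∑ a, Function.update u a₀ (u a₀ - 1) a < n := by
      rw [← hn]
      apply Finset.sum_lt_sum
      · intro a _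
        by_cases h : a = a₀
        · subst h; simp
        · simp [Function.update_of_ne h]
      · exact ⟨a₀, Finset.mem_univ _, by simp; omega⟩
    obtain ⟨z, hz1, hz2⟩ := ih _ hlt _ hZ rfl
    refine ⟨z, ?_, hz2⟩
    intro a
    refine (hz1 a).trans ?_
    by_cases h : a = a₀
    · subst h; simp
    · simp [Function.update_of_ne h]
  · push Not at hred
    -- every arc with positive capacity enters a tight set
    have htight : ∀ a, 1 ≤ u a → ∃ T : Finset V, ∑ v ∈ T, b v = D.cap u T ∧
        D.tl a ∉ T ∧ D.hd a ∈ T := by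
      intro a ha
      obtain ⟨Z, hZ⟩ := hred a ha
      by_cases hent : D.tl a ∉ Z ∧ D.hd a ∈ Z
      · refine ⟨Z, ?_, hent⟩
        have h1 : D.cap (Function.update u a (u a - 1)) Z = D.cap u Z - 1 := by
          unfold Net.cap
          rw [← Finset.sum_erase_add _ _ (Finset.mem_univ a),
            ← Finset.sum_erase_add _ _ (Finset.mem_univ a), if_pos hent, if_pos hent]
          rw [Finset.sum_congr rfl (g := fun x => if D.tl x ∉ Z ∧ D.hd x ∈ Z then (u x : ℤ) else 0)
            (fun x hx => by rw [Function.update_of_ne (Finset.ne_of_mem_erase hx)])]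
          rw [Function.update_self]
          push_cast [ha]
          ring
        have := H Z
        omega
      · exfalso
        have h1 : D.cap (Function.update u a (u a - 1)) Z = D.cap u Z := by
          unfold Net.cap
          apply Finset.sum_congr rfl
          intro x _
          by_cases hx : x = a
          · subst hx; rw [if_neg hent, if_neg hent]
          · rw [Function.update_of_ne hx]
        have := H Z
        omega
    have huncross : ∀ X Y : Finset V, ∑ v ∈ X, b v = D.cap u X → ∑ v ∈ Y, b v = D.cap u Y →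
        ∑ v ∈ X ∩ Y, b v = D.cap u (X ∩ Y) ∧
        ∀ a, ((D.tl a ∈ X ∧ D.tl a ∉ Y ∧ D.hd a ∈ Y ∧ D.hd a ∉ X) ∨
          (D.tl a ∈ Y ∧ D.tl a ∉ X ∧ D.hd a ∈ X ∧ D.hd a ∉ Y)) → u a = 0 := by
      intro X Y hX hY
      have h1 := D.cap_submod u X Y
      have h2 : ∑ v ∈ X ∩ Y, b v + ∑ v ∈ X ∪ Y, b v = ∑ v ∈ X, b v + ∑ v ∈ Y, b v := by
        rw [add_comm]; exact Finset.sum_union_inter
      have h3 := H (X ∩ Y)
      have h4 := H (X ∪ Y)
      have h5 : ∀ a ∈ (Finset.univ : Finset A),
          0 ≤ (if (D.tl a ∈ X ∧ D.tl a ∉ Y ∧ D.hd a ∈ Y ∧ D.hd a ∉ X) ∨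
            (D.tl a ∈ Y ∧ D.tl a ∉ X ∧ D.hd a ∈ X ∧ D.hd a ∉ Y) then (u a : ℤ) else 0) := by
        intro a _
        split_ifs
        · exact Int.natCast_nonneg _
        · exact le_rfl
      have h6 := Finset.sum_nonneg h5
      refine ⟨by omega, ?_⟩
      have h7 : ∑ a, (if (D.tl a ∈ X ∧ D.tl a ∉ Y ∧ D.hd a ∈ Y ∧ D.hd a ∉ X) ∨
            (D.tl a ∈ Y ∧ D.tl a ∉ X ∧ D.hd a ∈ X ∧ D.hd a ∉ Y) then (u a : ℤ) else 0) = 0 := by
        omega
      rw [Finset.sum_eq_zero_iff_of_nonneg h5] at h7
      intro a ha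
      have h8 := h7 a (Finset.mem_univ a)
      rw [if_pos ha] at h8
      exact_mod_cast h8
    have hleave : ∀ X : Finset V, ∑ v ∈ X, b v = D.cap u X → ∀ a, D.tl a ∈ X → D.hd a ∉ X →
        u a = 0 := by
      intro X hX a h1 h2
      by_contra h3
      obtain ⟨T, hT, h4, h5⟩ := htight a (by omega)
      exact h3 ((huncross X T hX hT).2 a (Or.inl ⟨h1, h4, h5, h2⟩))
    refine ⟨u, fun a => le_rfl, ?_⟩
    have hle : ∀ v ∈ (Finset.univ : Finset V), D.bal (fun a => (u a : ℤ)) v ≤ b v := by
      intro v _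
      -- the smallest tight set containing v
      have huniv : ∑ w, b w = D.cap u Finset.univ := by
        rw [hb]; unfold Net.cap; simp
      obtain ⟨M, hM1, hM2⟩ := Finset.exists_min_image
        (Finset.univ.filter (fun X : Finset V => v ∈ X ∧ ∑ w ∈ X, b w = D.cap u X))
        Finset.card ⟨Finset.univ, by simp [huniv]⟩
      rw [Finset.mem_filter] at hM1
      obtain ⟨-, hvM, hM⟩ := hM1
      have hmin : ∀ X : Finset V, v ∈ X → ∑ w ∈ X, b w = D.cap u X → M ⊆ X := by
        intro X hv hX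
        have h1 := (huncross M X hM hX).1
        have h2 := hM2 (M ∩ X) (by simp [hvM, hv, h1])
        have h3 : M ∩ X = M := Finset.eq_of_subset_of_card_le Finset.inter_subset_left h2
        rw [← h3]; exact Finset.inter_subset_right
      have hin : ∀ a, D.hd a = v → D.tl a ≠ v → D.tl a ∈ M → u a = 0 := by
        intro a h1 _ h3
        by_contra h4
        obtain ⟨T, hT, h5, h6⟩ := htight a (by omega)
        exact h5 (hmin T (h1 ▸ h6) hT h3)
      have hcap : D.cap u (M.erase v) = D.cap u M - D.bal (fun a => (u a : ℤ)) v := by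
        unfold Net.cap Net.bal
        rw [← Finset.sum_sub_distrib]
        apply Finset.sum_congr rfl
        intro a _
        by_cases h1 : D.hd a = v <;> by_cases h2 : D.tl a = v
        · simp [h1, h2, hvM]
        · by_cases h3 : D.tl a ∈ M
          · have := hin a h1 h2 h3
            simp [this]
          · simp [h1, h2, hvM, h3]
        · by_cases h3 : D.hd a ∈ M
          · simp [h1, h2, hvM, h3]
          · have := hleave M hM a (h2 ▸ hvM) h3
            simp [this]
        · simp [h1, h2]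
      have h1 := H (M.erase v)
      have h2 : ∑ w ∈ M.erase v, b w + b v = ∑ w ∈ M, b w := Finset.sum_erase_add _ _ hvM
      rw [hcap, ← hM] at h1
      linarith
    have hsum : ∑ v, D.bal (fun a => (u a : ℤ)) v = ∑ v, b v := by
      rw [D.sum_bal_univ, hb]
    intro v
    exact (Finset.sum_eq_sum_iff_of_le hle).mp hsum v (Finset.mem_univ v)

/-- **Minimum cost flows**: an integral flow with balances `b` below the capacities `u` together with
an integral potential that certifies its optimality for the costs `c`. -/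
theorem mincost (D : Net V A) (b : V → ℤ) (hb : ∑ v, b v = 0) (u : A → ℕ) (c : A → ℤ)
    (H : ∀ Z : Finset V, ∑ v ∈ Z, b v ≤ D.cap u Z) :
    ∃ z : A → ℕ, (∀ a, z a ≤ u a) ∧ (∀ v, D.bal (fun a => (z a : ℤ)) v = b v) ∧
      ∃ π : V → ℤ, ∀ a, (0 < z a → c a ≤ π (D.hd a) - π (D.tl a)) ∧
        (z a < u a → π (D.hd a) - π (D.tl a) ≤ c a) := by
  obtain ⟨g, hg1, hg2⟩ := gale D b hb u H
  set F : (V → ℤ) → ℤ := fun π =>
    ∑ v, b v * π v - ∑ a, (u a : ℤ) * max (π (D.hd a) - π (D.tl a) - c a) 0 with hF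
  have hbound : ∀ π, F π ≤ ∑ a, (g a : ℤ) * c a := by
    intro π
    have h1 : ∑ v, b v * π v = ∑ a, (g a : ℤ) * (π (D.hd a) - π (D.tl a)) := by
      rw [← D.sum_pot_bal]
      apply Finset.sum_congr rfl
      intro v _
      rw [hg2 v]
    have h2 : ∀ a ∈ (Finset.univ : Finset A), (g a : ℤ) * (π (D.hd a) - π (D.tl a)) ≤
        (u a : ℤ) * max (π (D.hd a) - π (D.tl a) - c a) 0 + (g a : ℤ) * c a := by
      intro a _
      have h3 : (g a : ℤ) * (π (D.hd a) - π (D.tl a) - c a) ≤
          (g a : ℤ) * max (π (D.hd a) - π (D.tl a) - c a) 0 :=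
        mul_le_mul_of_nonneg_left (le_max_left _ _) (Int.natCast_nonneg _)
      have h4 : (g a : ℤ) * max (π (D.hd a) - π (D.tl a) - c a) 0 ≤
          (u a : ℤ) * max (π (D.hd a) - π (D.tl a) - c a) 0 :=
        mul_le_mul_of_nonneg_right (by exact_mod_cast hg1 a) (le_max_right _ _)
      have h5 : (g a : ℤ) * (π (D.hd a) - π (D.tl a)) =
          (g a : ℤ) * (π (D.hd a) - π (D.tl a) - c a) + (g a : ℤ) * c a := by ring
      linarith
    have h6 := Finset.sum_le_sum h2
    rw [Finset.sum_add_distrib] at h6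
    simp only [hF]
    linarith
  obtain ⟨m, ⟨π, hπ⟩, hmax⟩ := Int.exists_greatest_of_bdd (P := fun m => ∃ π, F π = m)
    ⟨∑ a, (g a : ℤ) * c a, by rintro _ ⟨π, rfl⟩; exact hbound π⟩ ⟨_, 0, rfl⟩
  set Δ : A → ℤ := fun a => π (D.hd a) - π (D.tl a) with hΔ
  set ℓ : A → ℕ := fun a => if c a < Δ a then u a else 0 with hℓ
  set u' : A → ℕ := fun a => if Δ a = c a then u a else 0 with hu'
  obtain ⟨z', hz1, hz2⟩ := gale D (fun v => b v - D.bal (fun a => (ℓ a : ℤ)) v)
    (by rw [Finset.sum_sub_distrib, hb, D.sum_bal_univ]; ring) u' (by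
      intro Z
      have h1 : F (fun v => π v + if v ∈ Z then 1 else 0) ≤ F π := by
        rw [hπ]; exact hmax _ ⟨_, rfl⟩
      have h2 : ∑ v, b v * (π v + if v ∈ Z then 1 else 0) = ∑ v, b v * π v + ∑ v ∈ Z, b v := by
        simp_rw [mul_add]
        rw [Finset.sum_add_distrib]
        congr 1
        simp
      have h3 : ∀ a ∈ (Finset.univ : Finset A),
          (u a : ℤ) * max ((π (D.hd a) + if D.hd a ∈ Z then 1 else 0) -
            (π (D.tl a) + if D.tl a ∈ Z then 1 else 0) - c a) 0
          = (u a : ℤ) * max (π (D.hd a) - π (D.tl a) - c a) 0 +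
            (((if D.hd a ∈ Z then (ℓ a : ℤ) else 0) - (if D.tl a ∈ Z then (ℓ a : ℤ) else 0)) +
              (if D.tl a ∉ Z ∧ D.hd a ∈ Z then (u' a : ℤ) else 0)) := by
        intro a _
        rcases lt_trichotomy (Δ a) (c a) with h | h | h
        · have hl : ℓ a = 0 := by simp only [hℓ]; rw [if_neg (by omega)]
          have hu : u' a = 0 := by simp only [hu']; rw [if_neg (by omega)]
          simp only [hΔ] at h
          rw [hl, hu, max_eq_right (by omega : π (D.hd a) - π (D.tl a) - c a ≤ 0),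
            max_eq_right (by split_ifs <;> omega)]
          simp
        · have hl : ℓ a = 0 := by simp only [hℓ]; rw [if_neg (by omega)]
          have hu : u' a = u a := by simp only [hu']; rw [if_pos h]
          simp only [hΔ] at h
          rw [hl, hu, max_eq_right (by omega : π (D.hd a) - π (D.tl a) - c a ≤ 0)]
          by_cases h1 : D.hd a ∈ Z <;> by_cases h2 : D.tl a ∈ Z
          · simp only [h1, h2, if_true]
            rw [max_eq_right (by omega)]; simp
          · simp only [h1, h2, if_true, if_false]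
            rw [max_eq_left (by omega)]
            have : π (D.hd a) + 1 - (π (D.tl a) + 0) - c a = 1 := by omega
            rw [this]; simp
          · simp only [h1, h2, if_true, if_false]
            rw [max_eq_right (by omega)]; simp
          · simp only [h1, h2, if_false]
            rw [max_eq_right (by omega)]; simp
        · have hl : ℓ a = u a := by simp only [hℓ]; rw [if_pos h]
          have hu : u' a = 0 := by simp only [hu']; rw [if_neg (by omega)]
          simp only [hΔ] at h
          rw [hl, hu, max_eq_left (by omega : 0 ≤ π (D.hd a) - π (D.tl a) - c a),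
            max_eq_left (by split_ifs <;> omega)]
          split_ifs <;> push_cast <;> ring
      have h4 : D.cap u' Z = ∑ a, if D.tl a ∉ Z ∧ D.hd a ∈ Z then (u' a : ℤ) else 0 := rfl
      have h5 : ∑ v ∈ Z, (b v - D.bal (fun a => (ℓ a : ℤ)) v) = ∑ v ∈ Z, b v -
          ∑ a, ((if D.hd a ∈ Z then (ℓ a : ℤ) else 0) - (if D.tl a ∈ Z then (ℓ a : ℤ) else 0)) := by
        rw [Finset.sum_sub_distrib, D.sum_bal]
      simp only [hF] at h1
      rw [h2, Finset.sum_congr rfl h3, Finset.sum_add_distrib, Finset.sum_add_distrib] at h1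
      rw [h4, h5]
      linarith)
  refine ⟨fun a => ℓ a + z' a, ?_, ?_, π, ?_⟩
  · intro a
    have h1 := hz1 a
    simp only [hℓ, hu'] at h1 ⊢
    split_ifs at h1 ⊢ <;> omega
  · intro v
    have h1 := hz2 v
    have h2 : (fun a => ((ℓ a + z' a : ℕ) : ℤ)) = fun a => (ℓ a : ℤ) + (z' a : ℤ) := by
      funext a; push_cast; ring
    rw [h2, D.bal_add, h1]
    ring
  · intro a
    have h1 := hz1 a
    have hd : π (D.hd a) - π (D.tl a) = Δ a := rfl
    rw [hd]
    constructor
    · intro h2
      simp only [hℓ, hu'] at h1 h2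
      split_ifs at h1 h2 <;> omega
    · intro h2
      simp only [hℓ] at h2
      split_ifs at h2 <;> omega

end BHNet
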