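import Pool.Agent.BH.MinCost

/-!
Pushing one unit of flow along a residual path of a network.
-/

set_option autoImplicit false
set_option linter.unusedSectionVars false

namespace BHNet

open Classical

variable {V A : Type*} [Fintype V] [DecidableEq V] [Fintype A] [DecidableEq A]

/-- Residual steps of `f`: along an arc on which `f` may be increased (`add`) or against an arc
which carries `f`. -/
def Res (D : Net V A) (f : A → ℕ) (add : A → Prop) (x y : V) : Prop :=
  ∃ a, (add a ∧ D.tl a = x ∧ D.hd a = y) ∨ (1 ≤ f a ∧ D.hd a = x ∧ D.tl a = y)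

/-- net inflow, with values in `ℕ` -/
def nb (D : Net V A) (f : A → ℕ) (v : V) : ℤ := D.bal (fun a => (f a : ℤ)) v

lemma rtg_mono {R R' : V → V → Prop} (h : ∀ x y, R x y → R' x y) {x y : V}
    (hp : Relation.ReflTransGen R x y) : Relation.ReflTransGen R' x y := by
  induction hp with
  | refl => exact Relation.ReflTransGen.refl
  | tail _ h2 ih => exact ih.tail (h _ _ h2)

/-- relation restricted to a set -/
def Inn (R : V → V → Prop) (S : Finset V) (x y : V) : Prop := R x y ∧ x ∈ S ∧ y ∈ S

/-- If `y` can be reached from `x ≠ y`, then it can be reached from some successor of `x` without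
using `x` again. -/
lemma exit_step {R : V → V → Prop} {S : Finset V} {x y : V} (hxy : x ≠ y)
    (h : Relation.ReflTransGen (Inn R S) x y) :
    ∃ z, R x z ∧ x ∈ S ∧ z ∈ S.erase x ∧ Relation.ReflTransGen (Inn R (S.erase x)) z y := by
  have key : ∀ u, Relation.ReflTransGen (Inn R S) u y →
      (u ≠ x ∧ Relation.ReflTransGen (Inn R (S.erase x)) u y) ∨
      ∃ z, R x z ∧ x ∈ S ∧ z ∈ S.erase x ∧ Relation.ReflTransGen (Inn R (S.erase x)) z y := by
    intro u hu
    induction hu using Relation.ReflTransGen.head_induction_on with
    | refl => exact Or.inl ⟨Ne.symm hxy, Relation.ReflTransGen.refl⟩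
    | head h1 h2 ih =>
      rename_i a c
      rcases ih with ⟨h3, h4⟩ | h3
      · by_cases ha : a = x
        · subst ha
          exact Or.inr ⟨c, h1.1, h1.2.1, Finset.mem_erase.2 ⟨h3, h1.2.2⟩, h4⟩
        · refine Or.inl ⟨ha, Relation.ReflTransGen.head ⟨h1.1, ?_, ?_⟩ h4⟩
          · exact Finset.mem_erase.2 ⟨ha, h1.2.1⟩
          · exact Finset.mem_erase.2 ⟨h3, h1.2.2⟩
      · exact Or.inr h3
  rcases key x h with h1 | h1
  · exact absurd rfl h1.1
  · exact h1

lemma nb_update (D : Net V A) (f : A → ℕ) (a : A) (n : ℕ) (v : V) :
    nb D (Function.update f a n) v = nb D f v +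
      ((if D.hd a = v then (n : ℤ) - f a else 0) - (if D.tl a = v then (n : ℤ) - f a else 0)) := by
  unfold nb Net.bal
  have h : ∀ b ∈ (Finset.univ : Finset A).erase a,
      ((if D.hd b = v then ((Function.update f a n b : ℕ) : ℤ) else 0) -
        (if D.tl b = v then ((Function.update f a n b : ℕ) : ℤ) else 0)) =
      ((if D.hd b = v then (f b : ℤ) else 0) - (if D.tl b = v then (f b : ℤ) else 0)) := by
    intro b hb
    rw [Function.update_of_ne (Finset.ne_of_mem_erase hb)]
  rw [← Finset.add_sum_erase _ _ (Finset.mem_univ a), ← Finset.add_sum_erase (a := a) _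
    (fun b => ((if D.hd b = v then (f b : ℤ) else 0) - (if D.tl b = v then (f b : ℤ) else 0)))
    (Finset.mem_univ a), Finset.sum_congr rfl h]
  simp only [Function.update_self]
  split_ifs <;> ring

/-- Push one unit along a residual path inside `S`. -/
theorem push (D : Net V A) (add : A → Prop) (y : V) : ∀ (n : ℕ) (S : Finset V), S.card = n →
    ∀ (f : A → ℕ) (x : V), Relation.ReflTransGen (Inn (Res D f add) S) x y →
    ∃ f' : A → ℕ,
      (∀ v, nb D f' v = nb D f v + ((if v = y then 1 else 0) - (if v = x then 1 else 0))) ∧
      (∀ a, (D.tl a ∉ S ∨ D.hd a ∉ S) → f' a = f a) ∧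
      (∀ a, f' a ≤ f a + 1) ∧ (∀ a, f a < f' a → add a) ∧ (∀ a, D.tl a = x → f a ≤ f' a) := by
  intro n
  induction n with
  | zero =>
    intro S hS f x h
    by_cases hxy : x = y
    · subst hxy
      exact ⟨f, fun v => by simp, fun _ _ => rfl, fun _ => Nat.le_succ _,
        fun a ha => absurd ha (lt_irrefl _), fun _ _ => le_rfl⟩
    · obtain ⟨z, -, hx, -⟩ := exit_step hxy h
      rw [Finset.card_eq_zero.1 hS] at hx
      simp at hx
  | succ n ih =>
    intro S hS f x h
    by_cases hxy : x = y
    · subst hxy
      exact ⟨f, fun v => by simp, fun _ _ => rfl, fun _ => Nat.le_succ _,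
        fun a ha => absurd ha (lt_irrefl _), fun _ _ => le_rfl⟩
    · obtain ⟨z, ⟨a, ha⟩, hx, hz, hp⟩ := exit_step hxy h
      have hcard : (S.erase x).card = n := by
        rw [Finset.card_erase_of_mem hx, hS]
        rfl
      have hzx : z ≠ x := Finset.ne_of_mem_erase hz
      have hzS : z ∈ S := Finset.mem_of_mem_erase hz
      have hxe : x ∉ S.erase x := Finset.notMem_erase x S
      rcases ha with ⟨h1, h2, h3⟩ | ⟨h1, h2, h3⟩
      · -- a forward step
        have hp' : Relation.ReflTransGen
            (Inn (Res D (Function.update f a (f a + 1)) add) (S.erase x)) z y := by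
          refine rtg_mono ?_ hp
          rintro u w ⟨⟨b, hb⟩, hu, hw⟩
          refine ⟨⟨b, ?_⟩, hu, hw⟩
          rcases hb with hb | ⟨hb1, hb2, hb3⟩
          · exact Or.inl hb
          · right
            have hne : b ≠ a := by
              rintro rfl
              rw [h2] at hb3
              rw [← hb3] at hw
              exact hxe hw
            rw [Function.update_of_ne hne]
            exact ⟨hb1, hb2, hb3⟩
        obtain ⟨f', g1, g2, g3, g4, g5⟩ := ih (S.erase x) hcard _ z hp'
        have ha' : f' a = f a + 1 := by
          rw [g2 a (Or.inl (by rw [h2]; exact hxe)), Function.update_self]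
        refine ⟨f', ?_, ?_, ?_, ?_, ?_⟩
        · intro v
          rw [g1 v, nb_update, h2, h3]
          push_cast
          by_cases e1 : v = z <;> by_cases e2 : v = x
          · exact absurd (e1.symm.trans e2) hzx
          · subst e1
            simp [e2, Ne.symm e2]
          · subst e2
            simp [hzx, Ne.symm hzx]
            ring
          · simp [e1, e2, Ne.symm e1, Ne.symm e2]
        · intro b hb
          by_cases hba : b = a
          · subst hba
            exfalso
            rw [h2, h3] at hb
            rcases hb with hb | hb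
            · exact hb hx
            · exact hb hzS
          · rw [g2 b, Function.update_of_ne hba]
            rcases hb with hb | hb
            · exact Or.inl fun h => hb (Finset.mem_of_mem_erase h)
            · exact Or.inr fun h => hb (Finset.mem_of_mem_erase h)
        · intro b
          by_cases hba : b = a
          · subst hba
            exact ha'.le
          · have := g3 b
            rwa [Function.update_of_ne hba] at this
        · intro b hb
          by_cases hba : b = a
          · subst hba
            exact h1
          · refine g4 b ?_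
            rwa [Function.update_of_ne hba]
        · intro b hb
          by_cases hba : b = a
          · subst hba
            omega
          · rw [g2 b (Or.inl (by rw [hb]; exact hxe)), Function.update_of_ne hba]
      · -- a backward step
        have hne0 : D.tl a ≠ x := by
          rw [h3]
          exact hzx
        have hp' : Relation.ReflTransGen
            (Inn (Res D (Function.update f a (f a - 1)) add) (S.erase x)) z y := by
          refine rtg_mono ?_ hp
          rintro u w ⟨⟨b, hb⟩, hu, hw⟩
          refine ⟨⟨b, ?_⟩, hu, hw⟩
          rcases hb with hb | ⟨hb1, hb2, hb3⟩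
          · exact Or.inl hb
          · right
            have hne : b ≠ a := by
              rintro rfl
              rw [h2] at hb2
              rw [← hb2] at hu
              exact hxe hu
            rw [Function.update_of_ne hne]
            exact ⟨hb1, hb2, hb3⟩
        obtain ⟨f', g1, g2, g3, g4, g5⟩ := ih (S.erase x) hcard _ z hp'
        have ha' : f' a = f a - 1 := by
          rw [g2 a (Or.inr (by rw [h2]; exact hxe)), Function.update_self]
        refine ⟨f', ?_, ?_, ?_, ?_, ?_⟩
        · intro v
          rw [g1 v, nb_update, h2, h3, Nat.cast_sub h1]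
          push_cast
          by_cases e1 : v = z <;> by_cases e2 : v = x
          · exact absurd (e1.symm.trans e2) hzx
          · subst e1
            simp [e2, Ne.symm e2]
          · subst e2
            simp [hzx, Ne.symm hzx]
            ring
          · simp [e1, e2, Ne.symm e1, Ne.symm e2]
        · intro b hb
          by_cases hba : b = a
          · subst hba
            exfalso
            rw [h2, h3] at hb
            rcases hb with hb | hb
            · exact hb hzS
            · exact hb hx
          · rw [g2 b, Function.update_of_ne hba]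
            rcases hb with hb | hb
            · exact Or.inl fun h => hb (Finset.mem_of_mem_erase h)
            · exact Or.inr fun h => hb (Finset.mem_of_mem_erase h)
        · intro b
          by_cases hba : b = a
          · subst hba
            omega
          · have := g3 b
            rwa [Function.update_of_ne hba] at this
        · intro b hb
          by_cases hba : b = a
          · subst hba
            omega
          · refine g4 b ?_
            rwa [Function.update_of_ne hba]
        · intro b hb
          by_cases hba : b = a
          · subst hba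
            exact absurd hb hne0
          · rw [g2 b (Or.inl (by rw [hb]; exact hxe)), Function.update_of_ne hba]

/-- Backward reachability. -/
noncomputable def bk (R : V → V → Prop) (S : Finset V) : Finset V :=
  Finset.univ.filter fun x => ∃ y ∈ S, Relation.ReflTransGen R x y

lemma mem_bk {R : V → V → Prop} {S : Finset V} {x : V} :
    x ∈ bk R S ↔ ∃ y ∈ S, Relation.ReflTransGen R x y := by
  unfold bk
  rw [Finset.mem_filter]
  exact ⟨fun h => h.2, fun h => ⟨Finset.mem_univ _, h⟩⟩

lemma subset_bk {R : V → V → Prop} {S : Finset V} : S ⊆ bk R S :=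
  fun x hx => mem_bk.2 ⟨x, hx, Relation.ReflTransGen.refl⟩

lemma bk_closed {R : V → V → Prop} {S : Finset V} {x y : V} (hy : y ∈ bk R S) (h : R x y) :
    x ∈ bk R S := by
  obtain ⟨z, hz, h1⟩ := mem_bk.1 hy
  exact mem_bk.2 ⟨z, hz, Relation.ReflTransGen.head h h1⟩

lemma bk_mono {R R' : V → V → Prop} {S S' : Finset V} (hS : S ⊆ S')
    (h : ∀ x y, x ∈ bk R S → y ∈ bk R S → R x y → R' x y) : bk R S ⊆ bk R' S' := by
  intro x hx
  obtain ⟨y, hy, hxy⟩ := mem_bk.1 hx
  clear hx
  induction hxy using Relation.ReflTransGen.head_induction_on with
  | refl => exact mem_bk.2 ⟨y, hS hy, Relation.ReflTransGen.refl⟩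
  | head h1 h2 ih =>
    rename_i a c
    refine bk_closed ih (h a c ?_ ?_ h1)
    · exact mem_bk.2 ⟨y, hy, Relation.ReflTransGen.head h1 h2⟩
    · exact mem_bk.2 ⟨y, hy, h2⟩

/-- A path which cannot enter the complement of `S` stays in `S`. -/
lemma path_inn {R : V → V → Prop} {S : Finset V} (hS : ∀ u w, u ∈ S → R u w → w ∈ S) {x y : V}
    (hx : x ∈ S) (h : Relation.ReflTransGen R x y) :
    y ∈ S ∧ Relation.ReflTransGen (Inn R S) x y := by
  induction h with
  | refl => exact ⟨hx, Relation.ReflTransGen.refl⟩
  | tail h1 h2 ih =>
    rename_i b c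
    have hc := hS b c ih.1 h2
    exact ⟨hc, ih.2.tail ⟨h2, ih.1, hc⟩⟩

/-- Conservation for a set which does not contain the source. -/
lemma cut_eq (D : Net V A) {s t : V} {f : A → ℕ} {n : ℕ}
    (hf : ∀ v, v ≠ s → nb D f v = if v = t then (n : ℤ) else 0) {X : Finset V} (hs : s ∉ X) :
    inn D f X = outt D f X + if t ∈ X then n else 0 := by
  have h1 := D.sum_bal (fun a => (f a : ℤ)) X
  have h2 : ∑ v ∈ X, D.bal (fun a => (f a : ℤ)) v = if t ∈ X then (n : ℤ) else 0 := by
    rw [Finset.sum_congr rfl (g := fun v => if v = t then (n : ℤ) else 0)]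
    · rw [Finset.sum_ite_eq']
    · intro v hv
      exact hf v (fun h => hs (h ▸ hv))
  have h3 : ∑ a, ((if D.hd a ∈ X then (f a : ℤ) else 0) - (if D.tl a ∈ X then (f a : ℤ) else 0)) =
      (inn D f X : ℤ) - outt D f X := by
    unfold inn outt Net.ent Net.out
    push_cast
    rw [Finset.sum_filter, Finset.sum_filter, ← Finset.sum_sub_distrib]
    apply Finset.sum_congr rfl
    intro a _
    by_cases e1 : D.hd a ∈ X <;> by_cases e2 : D.tl a ∈ X <;> simp [e1, e2]
  rw [h2, h3] at h1
  split_ifs with h4
  · rw [if_pos h4] at h1
    omega
  · rw [if_neg h4] at h1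
    omega

end BHNet
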